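import Mathlib

/-!
# MP_0db605_an : atomic versus exposed condition -- general definitions
-/

namespace EC

open Matrix
open scoped Matrix.Norms.Elementwise

/-- The Grassmannian of `k`-planes in `ℝⁿ`, identified with the set of orthogonal projections
of rank `k` in `End(ℝⁿ)`. -/
def Gr (n k : ℕ) : Set (Matrix (Fin n) (Fin n) ℝ) :=
  {T | Tᵀ = T ∧ T * T = T ∧ T.rank = k}

/-- The orthogonal projection of `ℝⁿ` onto the column space of an `n × k` matrix `M` of full
column rank `k`. -/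
noncomputable def colProj {n k : ℕ} (M : Matrix (Fin n) (Fin k) ℝ) :
    Matrix (Fin n) (Fin n) ℝ :=
  M * (Mᵀ * M)⁻¹ * Mᵀ

/-- The `k`-dimensional Jacobian (Gram determinant) of an `n × k` matrix `M`. -/
noncomputable def jac {n k : ℕ} (M : Matrix (Fin n) (Fin k) ℝ) : ℝ :=
  Real.sqrt (Mᵀ * M).det

/-- `B` is the anisotropic first variation matrix `B_F(T)`.  If the columns of `W` are an
orthonormal basis of the plane `π = im T`, then `(1 + tL) W` spans `π_t = (1 + tL)[π]`, so that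
`colProj ((1 + tL) W)` is the projection onto `π_t`, and `jac ((1 + tL) W)` is the Jacobian `J_t`
of `(1 + tL)|π`. -/
def IsFirstVar {n : ℕ} (k : ℕ) (F : Matrix (Fin n) (Fin n) ℝ → ℝ)
    (T B : Matrix (Fin n) (Fin n) ℝ) : Prop :=
  ∀ W : Matrix (Fin n) (Fin k) ℝ, Wᵀ * W = 1 → W * Wᵀ = T →
    ∀ L : Matrix (Fin n) (Fin n) ℝ,
      HasDerivAt (fun t : ℝ => F (colProj ((1 + t • L) * W)) * jac ((1 + t • L) * W))
        (Matrix.trace (Bᵀ * L)) 0

/-- The Gauss image `{B_F(T) / F(T)}`. -/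
def gaussImage (n k : ℕ) (F : Matrix (Fin n) (Fin n) ℝ → ℝ) : Set (Matrix (Fin n) (Fin n) ℝ) :=
  {A | ∃ T ∈ Gr n k, ∃ B, IsFirstVar k F T B ∧ A = (F T)⁻¹ • B}

/-- `F` is (the extension to a neighbourhood of the Grassmannian of) a `k`-integrand:
positive and of class `C¹`. -/
def IsIntegrand (n k : ℕ) (F : Matrix (Fin n) (Fin n) ℝ → ℝ) : Prop :=
  ∀ T ∈ Gr n k, 0 < F T ∧ ContDiffAt ℝ 1 F T

/-- The atomic condition. -/
def AtomicCondition (n k : ℕ) (F : Matrix (Fin n) (Fin n) ℝ → ℝ) : Prop :=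
  convexHull ℝ (gaussImage n k F) ∩ {A | A.rank ≤ k} = gaussImage n k F ∧
    gaussImage n k F = Set.extremePoints ℝ (convexHull ℝ (gaussImage n k F))

/-- The exposed condition. -/
def ExposedCondition (n k : ℕ) (F : Matrix (Fin n) (Fin n) ℝ → ℝ) : Prop :=
  convexHull ℝ (gaussImage n k F) ∩ {A | A.rank ≤ k} = gaussImage n k F ∧
    gaussImage n k F = Set.exposedPoints ℝ (convexHull ℝ (gaussImage n k F))

end EC
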