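import Mathlib
import Pool.Agent.Helper35.EC.Defs

/-!
# MP_0db605_an : the scalar functions of the counterexample
-/

namespace EC

/-- positive part -/
noncomputable def pos (x : ℝ) : ℝ := max x 0

/-- the monotone function `ω₀(p) = (p-2)₊ - (-p)₊` -/
noncomputable def om (p : ℝ) : ℝ := pos (p - 2) - pos (-p)

/-- the monotone function `k(u)` -/
noncomputable def kf (u : ℝ) : ℝ := pos (u - 1) - pos (-u) ^ 2 + pos (-u - 1 / 2) ^ 2

/-- the twist `μ` -/
noncomputable def mu (u p : ℝ) : ℝ := 1 / 4 * min (pos p) 2 + 3 * min (pos (-u)) 1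

/-- the coordinate `y` of the slice point with parameters `(u,p)` -/
noncomputable def yf (h u p : ℝ) : ℝ := h * (p + u ^ 3) + (4 - h) * om p

/-- the momentum `P` of the slice point with parameters `(u,p)` (the momentum `Q` is `4p`) -/
noncomputable def Pf (h u p : ℝ) : ℝ := kf u + 4 * h * u ^ 2 * (u - 3 * p)

/-- The slice kernel in terms of the differences `a = Δu`, `d = Δy` and the momenta. -/
noncomputable def Ks (h m a d P Q P' Q' : ℝ) : ℝ :=
  a * (P' - P) + d * (Q' - Q) + h * ((a ^ 2 + d ^ 2) * (P * P' + Q * Q')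
      + 2 * a * d * (P * Q' + Q * P'))
    + h * m * (d * (P' - P) + a * (Q' - Q) + h * ((a ^ 2 + d ^ 2) * (P * Q' + Q * P')
      + 2 * a * d * (P * P' + Q * Q')))

/-- The slice kernel between the slice points `(u,p)` and `(u',p')`. -/
noncomputable def Fs (h u p u' p' : ℝ) : ℝ :=
  Ks h (mu u p) (u' - u) (yf h u' p' - yf h u p) (Pf h u p) (4 * p) (Pf h u' p') (4 * p')

/-- `Φ(W)`, the steep monotone function. -/
noncomputable def Phi (h W : ℝ) : ℝ := W + (4 / h - 1) * (pos W - pos (W - 2 * h))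

/-- primitive of `Φ` -/
noncomputable def Theta (h W : ℝ) : ℝ :=
  W ^ 2 / 2 + (4 / h - 1) / 2 * (pos W ^ 2 - pos (W - 2 * h) ^ 2)

/-- the parameter `p` of the slice point `(u,y)`; `4p = Q`. -/
noncomputable def pf (h u y : ℝ) : ℝ := Phi h (y - h * u ^ 3) / 4

/-- slice potential -/
noncomputable def Sd (h u y : ℝ) : ℝ :=
  2 * Theta h (y - h * u ^ 3) + pos (u - 1) ^ 2
    + 2 / 3 * (pos (-u) ^ 3 - pos (-u - 1 / 2) ^ 3) + 2 * h * u ^ 4

/-- the determinant form `d = det X` (in coordinates). -/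
noncomputable def dd (u y w z : ℝ) : ℝ := u ^ 2 - y ^ 2 - w ^ 2 + z ^ 2

/-- `det (1 + XᵀX)`. -/
noncomputable def Det (h u y w z : ℝ) : ℝ :=
  1 + 2 * h * (u ^ 2 + y ^ 2 + w ^ 2 + z ^ 2) + h ^ 2 * dd u y w z ^ 2

/-- `D = ĝ_d - ĝ_a`, the difference of the design potential and the area potential. -/
noncomputable def DD (h u y w z : ℝ) : ℝ :=
  Sd h u y + w ^ 2 + z ^ 2 - 1 / (2 * h) * Real.log (Det h u y w z)

noncomputable def k2 (u : ℝ) : ℝ := pos (u - 2) - pos (-u - 2)
noncomputable def k1 (y : ℝ) : ℝ := pos (y - 1) - pos (-y - 1)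

/-- squared size of `π(X)` -/
noncomputable def NN (u y w z : ℝ) : ℝ := k2 u ^ 2 + k1 y ^ 2 + w ^ 2 + z ^ 2

noncomputable def theta (K u y w z : ℝ) : ℝ := pos (1 - NN u y w z / K ^ 2)

noncomputable def eta (K u y w z : ℝ) : ℝ := theta K u y w z ^ 2

/-- the perturbing potential `η D` -/
noncomputable def psi (h K u y w z : ℝ) : ℝ := eta K u y w z * DD h u y w z

/-! half gradient of the area potential -/
noncomputable def GaP (h u y w z : ℝ) : ℝ := u * (1 + h * dd u y w z) / Det h u y w z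
noncomputable def GaQ (h u y w z : ℝ) : ℝ := y * (1 - h * dd u y w z) / Det h u y w z
noncomputable def GaR (h u y w z : ℝ) : ℝ := w * (1 - h * dd u y w z) / Det h u y w z
noncomputable def GaS (h u y w z : ℝ) : ℝ := z * (1 + h * dd u y w z) / Det h u y w z

/-- the cutoff coefficient: `e = -τ π` -/
noncomputable def tau (h K u y w z : ℝ) : ℝ := 2 / K ^ 2 * DD h u y w z * theta K u y w z

/-! half gradient of `η D` -/
noncomputable def HP (h K u y w z : ℝ) : ℝ :=
  eta K u y w z * (Pf h u (pf h u y) - GaP h u y w z) - tau h K u y w z * k2 u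
noncomputable def HQ (h K u y w z : ℝ) : ℝ :=
  eta K u y w z * (4 * pf h u y - GaQ h u y w z) - tau h K u y w z * k1 y
noncomputable def HR (h K u y w z : ℝ) : ℝ :=
  eta K u y w z * (w - GaR h u y w z) - tau h K u y w z * w
noncomputable def HS (h K u y w z : ℝ) : ℝ :=
  eta K u y w z * (z - GaS h u y w z) - tau h K u y w z * z

/-! half gradient `G` of `ĝ_a + η D` -/
noncomputable def GP (h K u y w z : ℝ) : ℝ := GaP h u y w z + HP h K u y w z
noncomputable def GQ (h K u y w z : ℝ) : ℝ := GaQ h u y w z + HQ h K u y w z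
noncomputable def GR (h K u y w z : ℝ) : ℝ := GaR h u y w z + HR h K u y w z
noncomputable def GS (h K u y w z : ℝ) : ℝ := GaS h u y w z + HS h K u y w z

/-- The four dimensional kernel, in terms of the difference `Y = (a,b,c,d)` and the momenta. -/
noncomputable def Ker (h m a b c d P Q R S P' Q' R' S' : ℝ) : ℝ :=
  a * (P' - P) + b * (Q' - Q) + c * (R' - R) + d * (S' - S)
    + h * (2 * (a * P + b * Q + c * R + d * S) * (a * P' + b * Q' + c * R' + d * S')
        - (a ^ 2 - b ^ 2 - c ^ 2 + d ^ 2) * (P * P' - Q * Q' - R * R' + S * S'))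
    + h * m * (b * (P' - P) + a * (Q' - Q) - d * (R' - R) - c * (S' - S)
      + h * (2 * (b * P + a * Q - d * R - c * S) * (a * P' + b * Q' + c * R' + d * S')
        - (a ^ 2 - b ^ 2 - c ^ 2 + d ^ 2) * (Q * P' - P * Q' + S * R' - R * S')))

/-- the twist coefficient used at the point `(u,y,w,z)`. -/
noncomputable def mh (h K u y w z : ℝ) : ℝ :=
  if 0 < theta K u y w z then mu u (pf h u y) else 0

/-- The kernel of the counterexample between two points of the chart. -/
noncomputable def Kab (h K u y w z u' y' w' z' : ℝ) : ℝ :=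
  Ker h (mh h K u y w z) (u' - u) (y' - y) (w' - w) (z' - z)
    (GP h K u y w z) (GQ h K u y w z) (GR h K u y w z) (GS h K u y w z)
    (GP h K u' y' w' z') (GQ h K u' y' w' z') (GR h K u' y' w' z') (GS h K u' y' w' z')

end EC
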