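import Mathlib
import Pool.Agent.Helper35.EC.Design

/-!
# MP_0db605_an : linear and bilinear parts of the kernel
-/

namespace EC

/-- linear part of the kernel: `Y·G + h m J(Y)·G` -/
noncomputable def Lam (h m a b c d P Q R S : ℝ) : ℝ :=
  a * P + b * Q + c * R + d * S + h * m * (b * P + a * Q - d * R - c * S)

/-- bilinear part of the kernel -/
noncomputable def Bet (h m a b c d P Q R S P' Q' R' S' : ℝ) : ℝ :=
  2 * (a * P + b * Q + c * R + d * S) * (a * P' + b * Q' + c * R' + d * S')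
    - (a ^ 2 - b ^ 2 - c ^ 2 + d ^ 2) * (P * P' - Q * Q' - R * R' + S * S')
    + h * m * (2 * (b * P + a * Q - d * R - c * S) * (a * P' + b * Q' + c * R' + d * S')
      - (a ^ 2 - b ^ 2 - c ^ 2 + d ^ 2) * (Q * P' - P * Q' + S * R' - R * S'))

theorem Ker_eq (h m a b c d P Q R S P' Q' R' S' : ℝ) :
    Ker h m a b c d P Q R S P' Q' R' S'
      = Lam h m a b c d P' Q' R' S' - Lam h m a b c d P Q R S
        + h * Bet h m a b c d P Q R S P' Q' R' S' := by
  unfold Ker Lam Bet; ring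

/-- The decomposition of the kernel.  Here `(A1,..,A4)` are the momenta of area, `(D1,..,D4)` the
differences design minus area, `(p1,..,p4)` the cutoff vector `π`. -/
theorem Ker_decomp (h m a b c d E E' t t' A1 A2 A3 A4 A1' A2' A3' A4' D1 D2 D3 D4 D1' D2' D3' D4'
    p1 p2 p3 p4 p1' p2' p3' p4' : ℝ) :
    Ker h m a b c d
      (A1 + (E * D1 - t * p1)) (A2 + (E * D2 - t * p2)) (A3 + (E * D3 - t * p3))
      (A4 + (E * D4 - t * p4))
      (A1' + (E' * D1' - t' * p1')) (A2' + (E' * D2' - t' * p2')) (A3' + (E' * D3' - t' * p3'))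
      (A4' + (E' * D4' - t' * p4'))
    = (E + E') / 2 * Ker h m a b c d (A1 + D1) (A2 + D2) (A3 + D3) (A4 + D4)
        (A1' + D1') (A2' + D2') (A3' + D3') (A4' + D4')
      + (1 - (E + E') / 2) * Ker h m a b c d A1 A2 A3 A4 A1' A2' A3' A4'
      + (E' - E) * ((Lam h m a b c d D1 D2 D3 D4 + Lam h m a b c d D1' D2' D3' D4') / 2)
      - h / 2 * (E' - E) * (Bet h m a b c d D1 D2 D3 D4 A1' A2' A3' A4'
          - Bet h m a b c d A1 A2 A3 A4 D1' D2' D3' D4')
      + h * (E * E' - (E + E') / 2) * Bet h m a b c d D1 D2 D3 D4 D1' D2' D3' D4'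
      - (t' * Lam h m a b c d p1' p2' p3' p4' - t * Lam h m a b c d p1 p2 p3 p4)
      - h * (t' * Bet h m a b c d (A1 + E * D1) (A2 + E * D2) (A3 + E * D3) (A4 + E * D4)
            p1' p2' p3' p4'
          + t * Bet h m a b c d p1 p2 p3 p4
            (A1' + E' * D1') (A2' + E' * D2') (A3' + E' * D3') (A4' + E' * D4')
          - t * t' * Bet h m a b c d p1 p2 p3 p4 p1' p2' p3' p4') := by
  unfold Ker Lam Bet; ring

end EC
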