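import Mathlib
import Pool.Agent.Helper35.EC.Design

/-!
# MP_0db605_an : the matrices of the counterexample (`n = 4`, `k = 2`)
-/

namespace EC

open Matrix
open scoped Matrix.Norms.Elementwise

abbrev M2 := Matrix (Fin 2) (Fin 2) ℝ
abbrev M42 := Matrix (Fin 4) (Fin 2) ℝ
abbrev M4 := Matrix (Fin 4) (Fin 4) ℝ

/-- the `4 × 2` matrix with upper block `A` and lower block `B` -/
def stack (A B : M2) : M42 := Matrix.of ![A 0, A 1, B 0, B 1]

/-- upper left `2 × 2` block -/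
def blk11 (T : M4) : M2 := !![T 0 0, T 0 1; T 1 0, T 1 1]

/-- lower left `2 × 2` block -/
def blk21 (T : M4) : M2 := !![T 2 0, T 2 1; T 3 0, T 3 1]

/-- slope of the plane `im T` : the plane is the graph of `Xof T` (if `blk11 T` is invertible) -/
noncomputable def Xof (T : M4) : M2 := blk21 T * (blk11 T)⁻¹

/-- the projection onto the graph of `X` -/
noncomputable def Pm (X : M2) : M4 := colProj (stack 1 X)

/-- `u I + y J + w K + z N` -/
def mat (u y w z : ℝ) : M2 := !![u + w, y + z; y - z, u - w]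

def matJ : M2 := !![0, 1; 1, 0]

/-! coordinates of a `2 × 2` matrix with respect to the basis `I, J, K, N` -/
noncomputable def cu (X : M2) : ℝ := (X 0 0 + X 1 1) / 2
noncomputable def cy (X : M2) : ℝ := (X 0 1 + X 1 0) / 2
noncomputable def cw (X : M2) : ℝ := (X 0 0 - X 1 1) / 2
noncomputable def cz (X : M2) : ℝ := (X 0 1 - X 1 0) / 2

noncomputable def psiM (ε K : ℝ) (X : M2) : ℝ :=
  psi (ε ^ 2) K (cu X / ε) (cy X / ε) (cw X / ε) (cz X / ε)

noncomputable def thetaM (ε K : ℝ) (X : M2) : ℝ :=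
  theta K (cu X / ε) (cy X / ε) (cw X / ε) (cz X / ε)

/-- gradient (as a `2 × 2` matrix) of `X ↦ ε² ψ(X/ε)` -/
noncomputable def Hm (ε K : ℝ) (X : M2) : M2 :=
  ε • mat (HP (ε ^ 2) K (cu X / ε) (cy X / ε) (cw X / ε) (cz X / ε))
    (HQ (ε ^ 2) K (cu X / ε) (cy X / ε) (cw X / ε) (cz X / ε))
    (HR (ε ^ 2) K (cu X / ε) (cy X / ε) (cw X / ε) (cz X / ε))
    (HS (ε ^ 2) K (cu X / ε) (cy X / ε) (cw X / ε) (cz X / ε))

/-- gradient of `log` of the full integrand in the chart -/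
noncomputable def Gm (ε K : ℝ) (X : M2) : M2 :=
  ε • mat (GP (ε ^ 2) K (cu X / ε) (cy X / ε) (cw X / ε) (cz X / ε))
    (GQ (ε ^ 2) K (cu X / ε) (cy X / ε) (cw X / ε) (cz X / ε))
    (GR (ε ^ 2) K (cu X / ε) (cy X / ε) (cw X / ε) (cz X / ε))
    (GS (ε ^ 2) K (cu X / ε) (cy X / ε) (cw X / ε) (cz X / ε))

/-- the integrand -/
noncomputable def FF (ε K : ℝ) (T : M4) : ℝ :=
  if 1 / 2 < (blk11 T).det then Real.exp (ε ^ 2 * psiM ε K (Xof T)) else 1

/-- the Gauss map `B_F(T)/F(T)` -/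
noncomputable def Aof (ε K : ℝ) (T : M4) : M4 :=
  if 1 / 2 < (blk11 T).det then
    T + stack (-(Xof T)ᵀ) 1 * Hm ε K (Xof T) * (stack 1 (Xof T))ᵀ
  else T

/-- the certificates -/
noncomputable def Zof (ε K : ℝ) (T : M4) : M4 :=
  if 1 / 2 < (blk11 T).det ∧ 0 < thetaM ε K (Xof T) then
    (1 - Aof ε K T) +
      (ε ^ 2 * mh (ε ^ 2) K (cu (Xof T) / ε) (cy (Xof T) / ε) (cw (Xof T) / ε) (cz (Xof T) / ε)) •
        (stack (-(Xof T)ᵀ) 1 * matJ *
          (stack (-(Gm ε K (Xof T))ᵀ) (1 - Xof T * (Gm ε K (Xof T))ᵀ))ᵀ)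
  else 1 - Aof ε K T

/-- the base plane -/
noncomputable def T0 : M4 := Pm 0

/-- the plane in contact with it -/
noncomputable def T1 (ε : ℝ) : M4 := Pm (mat ε (2 * ε ^ 3) 0 0)

end EC
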