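import Mathlib
import Pool.Agent.Helper35.EC.Design

/-!
# MP_0db605_an : elementary facts on the wall functions `kf`, `om`, `mu`
-/

namespace EC

lemma pos_nonneg (x : ℝ) : 0 ≤ pos x := le_max_right _ _

lemma pos_of_nonneg {x : ℝ} (h : 0 ≤ x) : pos x = x := max_eq_left h

lemma pos_of_nonpos {x : ℝ} (h : x ≤ 0) : pos x = 0 := max_eq_right h

lemma le_pos (x : ℝ) : x ≤ pos x := le_max_left _ _

/-! ### piecewise formulas -/

lemma kf_of_le_neg_half {u : ℝ} (h : u ≤ -1 / 2) : kf u = u + 1 / 4 := by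
  unfold kf
  rw [pos_of_nonpos (by linarith : u - 1 ≤ 0), pos_of_nonneg (by linarith : 0 ≤ -u),
    pos_of_nonneg (by linarith : 0 ≤ -u - 1 / 2)]
  ring

lemma kf_of_neg {u : ℝ} (h : -1 / 2 ≤ u) (h0 : u ≤ 0) : kf u = -u ^ 2 := by
  unfold kf
  rw [pos_of_nonpos (by linarith : u - 1 ≤ 0), pos_of_nonneg (by linarith : 0 ≤ -u),
    pos_of_nonpos (by linarith : -u - 1 / 2 ≤ 0)]
  ring

lemma kf_of_mid {u : ℝ} (h0 : 0 ≤ u) (h1 : u ≤ 1) : kf u = 0 := by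
  unfold kf
  rw [pos_of_nonpos (by linarith : u - 1 ≤ 0), pos_of_nonpos (by linarith : -u ≤ 0),
    pos_of_nonpos (by linarith : -u - 1 / 2 ≤ 0)]
  ring

lemma kf_of_one_le {u : ℝ} (h1 : 1 ≤ u) : kf u = u - 1 := by
  unfold kf
  rw [pos_of_nonneg (by linarith : 0 ≤ u - 1), pos_of_nonpos (by linarith : -u ≤ 0),
    pos_of_nonpos (by linarith : -u - 1 / 2 ≤ 0)]
  ring

lemma om_of_nonpos {p : ℝ} (h : p ≤ 0) : om p = p := by
  unfold om
  rw [pos_of_nonpos (by linarith : p - 2 ≤ 0), pos_of_nonneg (by linarith : 0 ≤ -p)]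
  ring

lemma om_of_mid {p : ℝ} (h : 0 ≤ p) (h2 : p ≤ 2) : om p = 0 := by
  unfold om
  rw [pos_of_nonpos (by linarith : p - 2 ≤ 0), pos_of_nonpos (by linarith : -p ≤ 0)]
  ring

lemma om_of_two_le {p : ℝ} (h : 2 ≤ p) : om p = p - 2 := by
  unfold om
  rw [pos_of_nonneg (by linarith : 0 ≤ p - 2), pos_of_nonpos (by linarith : -p ≤ 0)]
  ring

lemma kf_cases (u : ℝ) : (u ≤ -1 / 2 ∧ kf u = u + 1 / 4) ∨
    (-1 / 2 ≤ u ∧ u ≤ 0 ∧ kf u = -u ^ 2) ∨ (0 ≤ u ∧ u ≤ 1 ∧ kf u = 0) ∨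
    (1 ≤ u ∧ kf u = u - 1) := by
  rcases le_total u (-1 / 2) with h | h
  · exact Or.inl ⟨h, kf_of_le_neg_half h⟩
  rcases le_total u 0 with h0 | h0
  · exact Or.inr (Or.inl ⟨h, h0, kf_of_neg h h0⟩)
  rcases le_total u 1 with h1 | h1
  · exact Or.inr (Or.inr (Or.inl ⟨h0, h1, kf_of_mid h0 h1⟩))
  · exact Or.inr (Or.inr (Or.inr ⟨h1, kf_of_one_le h1⟩))

lemma om_cases (p : ℝ) : (p ≤ 0 ∧ om p = p) ∨ (0 ≤ p ∧ p ≤ 2 ∧ om p = 0) ∨
    (2 ≤ p ∧ om p = p - 2) := by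
  rcases le_total p 0 with h0 | h0
  · exact Or.inl ⟨h0, om_of_nonpos h0⟩
  rcases le_total p 2 with h1 | h1
  · exact Or.inr (Or.inl ⟨h0, h1, om_of_mid h0 h1⟩)
  · exact Or.inr (Or.inr ⟨h1, om_of_two_le h1⟩)

/-! ### monotonicity and Lipschitz bounds -/

lemma kf_mono_aux {u u' : ℝ} (h : u ≤ u') : kf u ≤ kf u' ∧ kf u' - kf u ≤ u' - u := by
  rcases kf_cases u with ⟨h1, e1⟩ | ⟨h1, h1', e1⟩ | ⟨h1, h1', e1⟩ | ⟨h1, e1⟩ <;>
  rcases kf_cases u' with ⟨h2, e2⟩ | ⟨h2, h2', e2⟩ | ⟨h2, h2', e2⟩ | ⟨h2, e2⟩ <;>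
  rw [e1, e2] <;> constructor <;> nlinarith

lemma kf_mono {u u' : ℝ} (h : u ≤ u') : kf u ≤ kf u' := (kf_mono_aux h).1

lemma om_mono_aux {p p' : ℝ} (h : p ≤ p') : om p ≤ om p' ∧ om p' - om p ≤ p' - p := by
  rcases om_cases p with ⟨h1, e1⟩ | ⟨h1, h1', e1⟩ | ⟨h1, e1⟩ <;>
  rcases om_cases p' with ⟨h2, e2⟩ | ⟨h2, h2', e2⟩ | ⟨h2, e2⟩ <;>
  rw [e1, e2] <;> constructor <;> linarith

lemma om_mono {p p' : ℝ} (h : p ≤ p') : om p ≤ om p' := (om_mono_aux h).1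

lemma wk_nonneg (u u' : ℝ) : 0 ≤ (u' - u) * (kf u' - kf u) := by
  rcases le_total u u' with h | h
  · exact mul_nonneg (by linarith) (by linarith [kf_mono h])
  · exact mul_nonneg_of_nonpos_of_nonpos (by linarith) (by linarith [kf_mono h])

lemma wo_nonneg (p p' : ℝ) : 0 ≤ (p' - p) * (om p' - om p) := by
  rcases le_total p p' with h | h
  · exact mul_nonneg (by linarith) (by linarith [om_mono h])
  · exact mul_nonneg_of_nonpos_of_nonpos (by linarith) (by linarith [om_mono h])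

lemma dk_sq_le (u u' : ℝ) : (kf u' - kf u) ^ 2 ≤ (u' - u) * (kf u' - kf u) := by
  rcases le_total u u' with h | h
  · have := kf_mono_aux h
    nlinarith
  · have := kf_mono_aux h
    nlinarith

lemma dom_sq_le (p p' : ℝ) : (om p' - om p) ^ 2 ≤ (p' - p) * (om p' - om p) := by
  rcases le_total p p' with h | h
  · have := om_mono_aux h
    nlinarith
  · have := om_mono_aux h
    nlinarith

/-- opposite signs -/
lemma wo_ge_of_neg {p p' : ℝ} (h : p * p' < 0) : -(p * p') ≤ (p' - p) * (om p' - om p) := by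
  rcases om_cases p with ⟨h1, e1⟩ | ⟨h1, h1', e1⟩ | ⟨h1, e1⟩ <;>
  rcases om_cases p' with ⟨h2, e2⟩ | ⟨h2, h2', e2⟩ | ⟨h2, e2⟩ <;>
  rw [e1, e2] <;> nlinarith [sq_nonneg p, sq_nonneg p']

/-- slope of the soft wall, moving left -/
lemma kf_left {u u' m : ℝ} (hu : u ≤ 0) (h : u' ≤ u) (hm0 : 0 ≤ m) (hm1 : m ≤ -u)
    (hm2 : m ≤ 1 / 2) : (u - u') * m ≤ kf u - kf u' := by
  have h0 : 0 ≤ u - u' := by linarith
  have a1 := mul_nonneg h0 hm0
  have a2 := mul_nonneg h0 (sub_nonneg.2 hm1)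
  have a3 := mul_nonneg h0 (sub_nonneg.2 hm2)
  rcases kf_cases u with ⟨h1, e1⟩ | ⟨h1, h1', e1⟩ | ⟨h1, h1', e1⟩ | ⟨h1, e1⟩
  · rw [e1, kf_of_le_neg_half (by linarith : u' ≤ -1 / 2)]
    nlinarith
  · rcases le_total u' (-1 / 2) with h2 | h2
    · rw [e1, kf_of_le_neg_half h2]
      nlinarith [mul_nonneg (by linarith : (0:ℝ) ≤ u + 1 / 2) (by linarith : (0:ℝ) ≤ -u)]
    · rw [e1, kf_of_neg h2 (by linarith)]
      nlinarith [mul_nonneg h0 (by linarith : (0:ℝ) ≤ -u')]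
  · have : u = 0 := le_antisymm hu h1
    subst this
    have : m = 0 := by linarith
    subst this
    simpa using kf_mono h
  · linarith

/-- slope of the soft wall, moving right up to `0` -/
lemma kf_right {u u' m : ℝ} (hu' : u' ≤ 0) (h : u ≤ u') (hm0 : 0 ≤ m) (hm1 : m ≤ -u)
    (hm2 : m ≤ 1 / 2) : (u' - u) * m ≤ kf u' - kf u := by
  have h0 : 0 ≤ u' - u := by linarith
  have a1 := mul_nonneg h0 hm0
  have a2 := mul_nonneg h0 (sub_nonneg.2 hm1)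
  have a3 := mul_nonneg h0 (sub_nonneg.2 hm2)
  rcases le_total u' (-1 / 2) with h2 | h2
  · rw [kf_of_le_neg_half h2, kf_of_le_neg_half (by linarith : u ≤ -1 / 2)]
    nlinarith
  · rw [kf_of_neg h2 hu']
    rcases le_total u (-1 / 2) with h3 | h3
    · rw [kf_of_le_neg_half h3]
      nlinarith [mul_nonneg (by linarith : (0:ℝ) ≤ u' + 1 / 2) (by linarith : (0:ℝ) ≤ -u')]
    · rw [kf_of_neg h3 (by linarith)]
      nlinarith [mul_nonneg h0 (by linarith : (0:ℝ) ≤ -u')]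

/-- the soft wall when crossing `0` -/
lemma kf_cross {u u' m : ℝ} (hu : u ≤ 0) (hu' : 0 ≤ u') (hm0 : 0 ≤ m) (hm1 : m ≤ -u)
    (hm2 : m ≤ 1 / 2) : (-u) * m ≤ kf u' - kf u := by
  have h1 := kf_mono hu'
  rw [kf_of_mid le_rfl zero_le_one] at h1
  have h2 := kf_right (u := u) (u' := 0) le_rfl hu hm0 hm1 hm2
  rw [kf_of_mid le_rfl zero_le_one] at h2
  linarith

/-- lower bound for the soft wall -/
lemma wk_ge {u u' m : ℝ} (hu : u ≤ 0) (hm0 : 0 ≤ m) (hm1 : m ≤ -u) (hm2 : m ≤ 1 / 2) :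
    min (|u' - u| ^ 2) (|u' - u| * (-u)) * m ≤ (u' - u) * (kf u' - kf u) := by
  rcases le_total u u' with h | h
  · have h0 : 0 ≤ u' - u := by linarith
    rw [abs_of_nonneg h0]
    rcases le_total u' 0 with h1 | h1
    · have key := kf_right h1 h hm0 hm1 hm2
      calc min ((u' - u) ^ 2) ((u' - u) * (-u)) * m
          ≤ (u' - u) ^ 2 * m := mul_le_mul_of_nonneg_right (min_le_left _ _) hm0
        _ = (u' - u) * ((u' - u) * m) := by ring
        _ ≤ _ := mul_le_mul_of_nonneg_left key h0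
    · have key := kf_cross hu h1 hm0 hm1 hm2
      calc min ((u' - u) ^ 2) ((u' - u) * (-u)) * m
          ≤ (u' - u) * (-u) * m := mul_le_mul_of_nonneg_right (min_le_right _ _) hm0
        _ = (u' - u) * ((-u) * m) := by ring
        _ ≤ _ := mul_le_mul_of_nonneg_left key h0
  · have h0 : 0 ≤ u - u' := by linarith
    rw [abs_of_nonpos (by linarith : u' - u ≤ 0)]
    have key := kf_left hu h hm0 hm1 hm2
    calc min ((-(u' - u)) ^ 2) ((-(u' - u)) * (-u)) * m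
        ≤ (-(u' - u)) ^ 2 * m := mul_le_mul_of_nonneg_right (min_le_left _ _) hm0
      _ = (u - u') * ((u - u') * m) := by ring
      _ ≤ (u - u') * (kf u - kf u') := mul_le_mul_of_nonneg_left key h0
      _ = _ := by ring

/-! ### the twist -/

lemma mu_nonneg (u p : ℝ) : 0 ≤ mu u p := by
  unfold mu
  have h1 : 0 ≤ min (pos p) 2 := le_min (pos_nonneg _) (by norm_num)
  have h2 : 0 ≤ min (pos (-u)) 1 := le_min (pos_nonneg _) (by norm_num)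
  linarith

lemma mu_le (u p : ℝ) : mu u p ≤ 7 / 2 := by
  unfold mu
  have h1 : min (pos p) 2 ≤ 2 := min_le_right _ _
  have h2 : min (pos (-u)) 1 ≤ 1 := min_le_right _ _
  linarith

/-! ### the quadratic form `q² + q q' + q'²` -/

lemma quadN_half (q q' : ℝ) : (q ^ 2 + q' ^ 2) / 2 ≤ q ^ 2 + q * q' + q' ^ 2 := by
  nlinarith [sq_nonneg (q + q')]

lemma quadN_left (q q' : ℝ) : 3 / 4 * q ^ 2 ≤ q ^ 2 + q * q' + q' ^ 2 := by
  nlinarith [sq_nonneg (q' + q / 2)]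

lemma quadN_right (q q' : ℝ) : 3 / 4 * q' ^ 2 ≤ q ^ 2 + q * q' + q' ^ 2 := by
  nlinarith [sq_nonneg (q + q' / 2)]

lemma quadN_diff (u p u' p' : ℝ) : (u' - u - (p' - p)) ^ 2 / 4
    ≤ (u - p) ^ 2 + (u - p) * (u' - p') + (u' - p') ^ 2 := by
  nlinarith [sq_nonneg (u - p + (u' - p'))]

lemma quadN_nonneg (q q' : ℝ) : 0 ≤ q ^ 2 + q * q' + q' ^ 2 := by
  nlinarith [sq_nonneg (q + q'), sq_nonneg q, sq_nonneg q']

lemma sq_le_one_of_abs {x : ℝ} (h : |x| ≤ 1) : x ^ 2 ≤ 1 := by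
  rw [← sq_abs]; nlinarith [abs_nonneg x]

lemma sq_le_quarter_of_abs {x : ℝ} (h : |x| ≤ 1 / 2) : x ^ 2 ≤ 1 / 4 := by
  rw [← sq_abs]; nlinarith [abs_nonneg x]

lemma mb {x y A B : ℝ} (hx : |x| ≤ A) (hy : |y| ≤ B) : |x * y| ≤ A * B := by
  rw [abs_mul]
  exact mul_le_mul hx hy (abs_nonneg _) ((abs_nonneg _).trans hx)

lemma two_ad {a d z : ℝ} : |2 * a * d * z| ≤ (a ^ 2 + d ^ 2) * |z| := by
  rw [abs_mul]
  apply mul_le_mul_of_nonneg_right _ (abs_nonneg z)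
  rw [abs_le]
  constructor <;> nlinarith [sq_nonneg (a + d), sq_nonneg (a - d)]

end EC
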