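import Mathlib
import Pool.Agent.Helper35.EC.Walls

/-!
# MP_0db605_an : the core inequality
-/

namespace EC

/-- the soft-wall part of the twist is absorbed by the wall (`|a| ≤ 1`) -/
lemma twist_soft {u u' E : ℝ} (hE : 0 ≤ E) (hA : |u' - u| ≤ 1) :
    303 / 100 * min (pos (-u)) 1 * (|u' - u| * E)
      ≤ 20000 * ((u' - u) * (kf u' - kf u)) + 1 / 2000 * E ^ 2 := by
  have hwk := wk_nonneg u u'
  have hA0 : 0 ≤ |u' - u| := abs_nonneg _
  rcases le_total 0 u with hu | hu
  · rw [pos_of_nonpos (by linarith : -u ≤ 0)]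
    have : min (0:ℝ) 1 = 0 := min_eq_left zero_le_one
    rw [this]
    nlinarith [sq_nonneg E]
  · rw [pos_of_nonneg (by linarith : 0 ≤ -u)]
    have hm0 : 0 ≤ min (-u) (1 / 2) := le_min (by linarith) (by norm_num)
    have hm1 : min (-u) (1 / 2) ≤ -u := min_le_left _ _
    have hm2 : min (-u) (1 / 2) ≤ 1 / 2 := min_le_right _ _
    have hmm : min (-u) 1 ≤ 2 * min (-u) (1 / 2) := by
      rcases le_total (-u) (1 / 2) with h | h
      · rw [min_eq_left h, min_eq_left (by linarith)]
        linarith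
      · rw [min_eq_right h]
        linarith [min_le_right (-u) (1:ℝ)]
    have key := wk_ge (u' := u') hu hm0 hm1 hm2
    set A := |u' - u| with hAdef
    set m := min (-u) (1 / 2) with hmdef
    have hAE : 0 ≤ A * E := mul_nonneg hA0 hE
    have h1 : 303 / 100 * min (-u) 1 * (A * E) ≤ 606 / 100 * m * (A * E) := by
      nlinarith
    refine h1.trans ?_
    rcases le_total A (-u) with h | h
    · rw [min_eq_left (by nlinarith : A ^ 2 ≤ A * (-u))] at key
      have h2 : 606 / 100 * (A * E) ≤ 20000 * A ^ 2 + 1 / 1000 * E ^ 2 := by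
        nlinarith [sq_nonneg (A - 606 / 4000000 * E), sq_nonneg E]
      nlinarith [mul_le_mul_of_nonneg_left h2 hm0, mul_nonneg hm0 (sq_nonneg E),
        mul_nonneg (sub_nonneg.2 hm2) (sq_nonneg E)]
    · rw [min_eq_right (by nlinarith : A * (-u) ≤ A ^ 2)] at key
      have h2 : 606 / 100 * (m * E) ≤ 20000 * m ^ 2 + 1 / 2000 * E ^ 2 := by
        nlinarith [sq_nonneg (m - 606 / 4000000 * E), sq_nonneg E]
      have h3 : A * m ^ 2 ≤ A * (-u) * m := by
        have : m * m ≤ (-u) * m := mul_le_mul_of_nonneg_right hm1 hm0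
        nlinarith [mul_le_mul_of_nonneg_left this hA0]
      nlinarith [mul_le_mul_of_nonneg_left h2 hA0, mul_nonneg (sub_nonneg.2 hA) (sq_nonneg E)]

/-- scalar inequality for `|a| ≤ 1`, `ae < 0` -/
lemma core_small_neg {A E p x N : ℝ} (hA0 : 0 ≤ A) (hA1 : A ≤ 1) (hE : 0 ≤ E) (hx : 0 ≤ x)
    (hN : (A + E) ^ 2 / 4 ≤ N) (hpx : 0 < p → E ≤ p / 2 → p ^ 2 / 2 ≤ x) :
    101 / 400 * min (pos p) 2 * (A * E) + 1 / 1000 * E ^ 2
        ≤ 98 / 100 * A ^ 2 * N + (1 - A ^ 2) * E ^ 2 + 99 / 100 * A ^ 2 * x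
    ∧ (A ≤ 1 / 2 → 101 / 400 * min (pos p) 2 * (A * E) + 11 / 1000 * E ^ 2
        ≤ 98 / 100 * A ^ 2 * N + (1 - A ^ 2) * E ^ 2 + 99 / 100 * A ^ 2 * x) := by
  have hAE : 0 ≤ A * E := mul_nonneg hA0 hE
  have hA2 : 0 ≤ A ^ 2 := sq_nonneg A
  have hE2 : 0 ≤ E ^ 2 := sq_nonneg E
  have hA2' : A ^ 2 ≤ 1 := by nlinarith
  have hAN : A ^ 2 * ((A + E) ^ 2 / 4) ≤ A ^ 2 * N := mul_le_mul_of_nonneg_left hN hA2
  have hAx : 0 ≤ A ^ 2 * x := mul_nonneg hA2 hx
  have hAEE : A ^ 2 * E ^ 2 ≤ A ^ 2 * (A + E) ^ 2 :=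
    mul_le_mul_of_nonneg_left (by nlinarith) hA2
  have hAAE : A ^ 2 * E ^ 2 ≤ E ^ 2 := by nlinarith
  rcases le_total p 0 with hp | hp
  · have hm : min (pos p) 2 = 0 := by rw [pos_of_nonpos hp]; exact min_eq_left (by norm_num)
    rw [hm]
    constructor
    · nlinarith
    · intro hA
      have : A ^ 2 ≤ 1 / 4 := by nlinarith
      nlinarith [mul_nonneg (sub_nonneg.2 this) hE2]
  · have hm1 : min (pos p) 2 ≤ p := by rw [pos_of_nonneg hp]; exact min_le_left _ _
    have hm2 : min (pos p) 2 ≤ 2 := min_le_right _ _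
    rcases le_or_gt E (p / 2) with h | h
    · rcases hp.eq_or_lt with hp0 | hp0
      · have hE0 : E = 0 := by rw [← hp0] at h; linarith
        subst hE0
        have : min (pos p) 2 * (A * 0) = 0 := by ring
        constructor
        · nlinarith
        · intro _; nlinarith
      · have hx' := hpx hp0 h
        have hAx' : A ^ 2 * (p ^ 2 / 2) ≤ A ^ 2 * x := mul_le_mul_of_nonneg_left hx' hA2
        have h1 : 101 / 400 * min (pos p) 2 * (A * E) ≤ 101 / 400 * p * (A * E) := by
          nlinarith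
        have h2 : 101 / 400 * p * (A * E) ≤ 495 / 1000 * (A * p) ^ 2 + 1 / 30 * E ^ 2 := by
          nlinarith [sq_nonneg (A * p - 1 / 4 * E)]
        constructor
        · nlinarith
        · intro hA
          have : A ^ 2 ≤ 1 / 4 := by nlinarith
          nlinarith [mul_nonneg (sub_nonneg.2 this) hE2]
    · have hm3 : min (pos p) 2 ≤ 2 * E := by linarith
      have h1 : 101 / 400 * min (pos p) 2 * (A * E) ≤ 505 / 1000 * A * E ^ 2 := by
        nlinarith
      have h2 : 101 / 400 * min (pos p) 2 * (A * E) ≤ 505 / 1000 * (A * E) := by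
        nlinarith
      constructor
      · rcases le_total A (3 / 4) with hA | hA
        · have h3 : A ^ 2 ≤ 9 / 16 := by nlinarith
          nlinarith [mul_nonneg (sub_nonneg.2 h3) hE2, mul_nonneg (sub_nonneg.2 hA) hE2]
        · have h4 : 505 / 1000 * (A * E) + 1 / 1000 * E ^ 2
              ≤ 98 / 100 * (A ^ 2 * ((A + E) ^ 2 / 4)) + (1 - A ^ 2) * E ^ 2 := by
            have hs : 9 / 16 ≤ A ^ 2 := by nlinarith
            -- quadratic in E with negative discriminant
            have hq : 0 ≤ (999 / 1000 - 755 / 1000 * A ^ 2) := by nlinarith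
            have hq2 : 0 < (999 / 1000 - 755 / 1000 * A ^ 2) := by nlinarith
            have key : 0 ≤ (999 / 1000 - 755 / 1000 * A ^ 2) *
                (98 / 100 * (A ^ 2 * ((A + E) ^ 2 / 4)) + (1 - A ^ 2) * E ^ 2
                  - 505 / 1000 * (A * E) - 1 / 1000 * E ^ 2) := by
              have e1 : (999 / 1000 - 755 / 1000 * A ^ 2) *
                (98 / 100 * (A ^ 2 * ((A + E) ^ 2 / 4)) + (1 - A ^ 2) * E ^ 2
                  - 505 / 1000 * (A * E) - 1 / 1000 * E ^ 2)
                = ((999 / 1000 - 755 / 1000 * A ^ 2) * E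
                    - (505 / 1000 - 49 / 100 * A ^ 2) / 2 * A) ^ 2
                  + A ^ 2 * (245 / 1000 * A ^ 2 * (999 / 1000 - 755 / 1000 * A ^ 2)
                    - (505 / 1000 - 49 / 100 * A ^ 2) ^ 2 / 4) := by ring
              rw [e1]
              have e2 : 0 ≤ 245 / 1000 * A ^ 2 * (999 / 1000 - 755 / 1000 * A ^ 2)
                    - (505 / 1000 - 49 / 100 * A ^ 2) ^ 2 / 4 := by
                nlinarith [mul_nonneg (sub_nonneg.2 hs) (sub_nonneg.2 hA2')]
              have := mul_nonneg hA2 e2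
              positivity
            have := nonneg_of_mul_nonneg_right key hq2
            linarith
          nlinarith
      · intro hA
        have h3 : A ^ 2 ≤ 1 / 4 := by nlinarith
        nlinarith [mul_nonneg (sub_nonneg.2 h3) hE2, mul_nonneg (sub_nonneg.2 hA) hE2]

end EC
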