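import Mathlib
import Pool.Agent.Helper35.EC.Walls

/-!
# MP_0db605_an : the core inequality, large differences
-/

namespace EC

lemma small_wall {s t : ℝ} (h : 1 < t - s) (hm : kf t - kf s < 1 / 10 ^ 6) :
    -1 / 1000 ≤ s ∧ s ≤ 1 / 10 ^ 5 ∧ 0 ≤ t ∧ t - 1 ≤ kf t - kf s := by
  rcases kf_cases s with ⟨h1, e1⟩ | ⟨h1, h1', e1⟩ | ⟨h1, h1', e1⟩ | ⟨h1, e1⟩
  · exfalso
    rcases kf_cases t with ⟨h2, e2⟩ | ⟨h2, h2', e2⟩ | ⟨h2, h2', e2⟩ | ⟨h2, e2⟩ <;>
    rw [e1, e2] at hm <;> nlinarith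
  · have hs : (-s) ^ 2 < 1 / 10 ^ 6 ∧ 0 ≤ t ∧ t - 1 ≤ kf t - kf s := by
      rcases kf_cases t with ⟨h2, e2⟩ | ⟨h2, h2', e2⟩ | ⟨h2, h2', e2⟩ | ⟨h2, e2⟩
      · exfalso; linarith
      · exfalso; linarith
      · rw [e1, e2] at hm
        refine ⟨by linarith, by linarith, ?_⟩
        rw [e1, e2]; nlinarith
      · rw [e1, e2] at hm
        refine ⟨by linarith, by linarith, ?_⟩
        rw [e1, e2]; nlinarith
    refine ⟨?_, by linarith, hs.2.1, hs.2.2⟩
    by_contra hc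
    push Not at hc
    nlinarith [hs.1]
  · rcases kf_cases t with ⟨h2, e2⟩ | ⟨h2, h2', e2⟩ | ⟨h2, h2', e2⟩ | ⟨h2, e2⟩
    · exfalso; linarith
    · exfalso; linarith
    · exfalso; linarith
    · rw [e1, e2] at hm
      rw [e1, e2]
      refine ⟨by linarith, by linarith, by linarith, by linarith⟩
  · exfalso
    rcases kf_cases t with ⟨h2, e2⟩ | ⟨h2, h2', e2⟩ | ⟨h2, h2', e2⟩ | ⟨h2, e2⟩ <;>
    rw [e1, e2] at hm <;> linarith

/-- lower bound for the `p`-wall to the left of zero -/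
lemma wo_left {p p' s : ℝ} (h : p ≤ p') (hs0 : 0 ≤ s) (hs : s ≤ -p) (hs' : s ≤ p' - p) :
    (p' - p) * s ≤ (p' - p) * (om p' - om p) := by
  apply mul_le_mul_of_nonneg_left _ (by linarith)
  rw [om_of_nonpos (by linarith : p ≤ 0)]
  rcases om_cases p' with ⟨h1, e1⟩ | ⟨h1, h1', e1⟩ | ⟨h1, e1⟩ <;> rw [e1] <;> linarith

/-- big wall -/
lemma bb_big {R ν A E μ M : ℝ} (hR : 1 ≤ R) (hν : 10 ^ 9 * R ^ 4 ≤ ν) (hA0 : 0 ≤ A)
    (hA : A ≤ 2 * R) (hE0 : 0 ≤ E) (hE : E ≤ 2 * R) (hμ : μ ≤ 7 / 2)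
    (hM : 1 / 10 ^ 6 ≤ M) :
    (A ^ 2 - 1) * E ^ 2 + 101 / 100 * (μ * (A * E)) ≤ ν * (A * M) := by
  have hR34 : R ^ 3 ≤ R ^ 4 := pow_le_pow_right₀ hR (by norm_num)
  have hR14 : R ≤ R ^ 4 := by
    calc R = R ^ 1 := (pow_one R).symm
      _ ≤ R ^ 4 := pow_le_pow_right₀ hR (by norm_num)
  have hν0 : 0 ≤ ν := le_trans (by positivity) hν
  have h1 : 10 ^ 9 * R ^ 4 * (A * (1 / 10 ^ 6)) ≤ ν * (A * M) :=
    mul_le_mul hν (mul_le_mul_of_nonneg_left hM hA0) (by positivity) hν0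
  have h2 : A ^ 2 * E ^ 2 ≤ A * (2 * R) * (2 * R) ^ 2 := by
    apply mul_le_mul _ (pow_le_pow_left₀ hE0 hE 2) (sq_nonneg _) (by positivity)
    rw [sq]; exact mul_le_mul_of_nonneg_left hA hA0
  have h3 : μ * (A * E) ≤ 7 / 2 * (A * (2 * R)) :=
    mul_le_mul hμ (mul_le_mul_of_nonneg_left hE hA0) (by positivity) (by norm_num)
  have h4 : R ^ 3 * A ≤ R ^ 4 * A := mul_le_mul_of_nonneg_right hR34 hA0
  have h5 : R * A ≤ R ^ 4 * A := mul_le_mul_of_nonneg_right hR14 hA0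
  have h6 : 0 ≤ R ^ 4 * A := by positivity
  have h7 : A * (2 * R) * (2 * R) ^ 2 = 8 * (R ^ 3 * A) := by ring
  have h8 : 7 / 2 * (A * (2 * R)) = 7 * (R * A) := by ring
  have h9 : 10 ^ 9 * R ^ 4 * (A * (1 / 10 ^ 6)) = 10 ^ 3 * (R ^ 4 * A) := by ring
  have h10 : (A ^ 2 - 1) * E ^ 2 = A ^ 2 * E ^ 2 - E ^ 2 := by ring
  have h11 := sq_nonneg E
  rw [h7] at h2
  rw [h8] at h3
  rw [h9] at h1
  linarith

/-- the negative term for a small wall -/
lemma bb_neg {R ν a E m n : ℝ} (hR : 1 ≤ R) (hν : 10 ^ 9 * R ^ 4 ≤ ν) (ha : 1 ≤ a)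
    (ham : a ≤ 1 + m + n) (hm0 : 0 ≤ m) (hm : m ≤ 1 / 10 ^ 6) (hn : n ≤ 1 / 1000)
    (hE : E ^ 2 ≤ 4 * R ^ 2) :
    (a ^ 2 - 1) * E ^ 2 ≤ 201 / 100 * n * E ^ 2 + ν * (a * m) := by
  have hE0 := sq_nonneg E
  have h1 : a ^ 2 - 1 ≤ 201 / 100 * (m + n) := by nlinarith
  have h2 := mul_le_mul_of_nonneg_right h1 hE0
  have h3 : 201 / 100 * m * E ^ 2 ≤ 201 / 100 * m * (4 * R ^ 2) :=
    mul_le_mul_of_nonneg_left hE (by positivity)
  have hR24 : R ^ 2 ≤ R ^ 4 := pow_le_pow_right₀ hR (by norm_num)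
  have h4 : 201 / 100 * (4 * R ^ 2) ≤ ν := by
    have : 0 ≤ R ^ 4 := by positivity
    linarith
  have h5 : (201 / 100 * (4 * R ^ 2)) * m ≤ ν * m := mul_le_mul_of_nonneg_right h4 hm0
  have hν0 : 0 ≤ ν := le_trans (by positivity) hν
  have h6 : ν * m ≤ ν * (a * m) := by
    apply mul_le_mul_of_nonneg_left _ hν0
    nlinarith
  have h7 : 201 / 100 * (m + n) * E ^ 2 = 201 / 100 * m * E ^ 2 + 201 / 100 * n * E ^ 2 := by ring
  have h8 : 201 / 100 * m * (4 * R ^ 2) = (201 / 100 * (4 * R ^ 2)) * m := by ring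
  linarith

/-- opposite signs, `|a| > 1` -/
lemma bb_opp {a E μ n N : ℝ} (ha : 1 ≤ a) (hE0 : 0 ≤ E) (hμ : μ ≤ 503 / 1000)
    (hn : n ≤ 1 / 1000) (hN : (a + E) ^ 2 / 4 ≤ N) :
    201 / 100 * n * E ^ 2 + 101 / 100 * (μ * (a * E)) ≤ 98 / 100 * (a ^ 2 * N) := by
  have haE : 0 ≤ a * E := mul_nonneg (by linarith) hE0
  have hE2 := sq_nonneg E
  have h1 : μ * (a * E) ≤ 503 / 1000 * (a * E) := mul_le_mul_of_nonneg_right hμ haE
  have h2 : n * E ^ 2 ≤ 1 / 1000 * E ^ 2 := mul_le_mul_of_nonneg_right hn hE2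
  have h3 : (a + E) ^ 2 / 4 ≤ a ^ 2 * N := by
    have h4 : 1 ≤ a ^ 2 := by nlinarith
    have h5 : 0 ≤ (a + E) ^ 2 / 4 := by positivity
    nlinarith
  nlinarith [sq_nonneg (a - E)]

/-- same signs, `E ≤ 5/4` -/
lemma bb_same_small {a E μ n : ℝ} (ha : 1 ≤ a) (hE0 : 0 ≤ E) (hE : E ≤ 5 / 4) (hn0 : 0 ≤ n)
    (hμ : 3 * n ≤ μ) :
    201 / 100 * n * E ^ 2 ≤ 99 / 100 * (μ * (a * E)) := by
  have h1 : E ≤ a * E := by nlinarith
  have h2 : 3 * n * E ≤ μ * (a * E) := mul_le_mul hμ h1 hE0 (by linarith)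
  have h3 : E ^ 2 ≤ 5 / 4 * E := by nlinarith
  have h4 : n * E ^ 2 ≤ n * (5 / 4 * E) := mul_le_mul_of_nonneg_left h3 hn0
  have h5 : 0 ≤ n * E := mul_nonneg hn0 hE0
  nlinarith

lemma sq_le_of_neg_bound {q s : ℝ} (hs : 0 ≤ s) (h : q ≤ -s) : s ^ 2 ≤ q ^ 2 := by
  nlinarith

/-- The core inequality for `|a| > 1`, in the form needed (the factor `N` is
`q² + qq' + q'²`, `x = |pp'|`). -/
lemma core_big_right {R ν u p u' p' : ℝ} (hR : 1 ≤ R) (hν : 10 ^ 9 * R ^ 4 ≤ ν)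
    (hp : |p| ≤ R) (hp' : |p'| ≤ R) (hA : 1 < u' - u)
    (hm : kf u' - kf u < 1 / 10 ^ 6) :
    ((u' - u) ^ 2 - 1) * (p' - p) ^ 2 + 1 / 100 * (mu u p * |(u' - u) * (p' - p)|)
      ≤ 98 / 100 * ((u' - u) ^ 2 * ((u - p) ^ 2 + (u - p) * (u' - p') + (u' - p') ^ 2))
        + mu u p * ((u' - u) * (p' - p))
        + ν * ((u' - u) * (kf u' - kf u)) + ν / 2 * ((p' - p) * (om p' - om p)) := by
  have hmu0 := mu_nonneg u p
  have hwo := wo_nonneg p p'
  obtain ⟨hpl, hpr⟩ := abs_le.1 hp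
  obtain ⟨hpl', hpr'⟩ := abs_le.1 hp'
  obtain ⟨hs1, hs2, ht0, ht1⟩ := small_wall hA hm
  have hm0 : 0 ≤ kf u' - kf u := by linarith [kf_mono (by linarith : u ≤ u')]
  have hn0 : 0 ≤ pos (-u) := pos_nonneg _
  have hn1 : -u ≤ pos (-u) := le_pos _
  have hn2 : pos (-u) ≤ 1 / 1000 := by
    unfold pos; exact max_le (by linarith) (by norm_num)
  have hmun : 3 * pos (-u) ≤ mu u p := by
    unfold mu
    rw [min_eq_left (by linarith : pos (-u) ≤ 1)]
    have : 0 ≤ min (pos p) 2 := le_min (pos_nonneg _) (by norm_num)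
    linarith
  have hmun' : mu u p ≤ 503 / 1000 := by
    unfold mu
    rw [min_eq_left (by linarith : pos (-u) ≤ 1)]
    have : min (pos p) 2 ≤ 2 := min_le_right _ _
    linarith
  have hE2 : (p' - p) ^ 2 ≤ 4 * R ^ 2 := by
    rw [show 4 * R ^ 2 = (2 * R) ^ 2 by ring]
    exact sq_le_sq' (by linarith) (by linarith)
  have hneg := bb_neg hR hν hA.le (by linarith : u' - u ≤ 1 + (kf u' - kf u) + pos (-u)) hm0
    hm.le hn2 hE2
  have hν0 : 0 ≤ ν := le_trans (by positivity) hν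
  have ha2 : 1 ≤ (u' - u) ^ 2 := one_le_pow₀ hA.le
  have hN1 := quadN_right (u - p) (u' - p')
  have hN3 := quadN_diff u p u' p'
  generalize (u - p) ^ 2 + (u - p) * (u' - p') + (u' - p') ^ 2 = N at hN1 hN3 ⊢
  have hN0 : 0 ≤ N := le_trans (by positivity) hN1
  have haN : N ≤ (u' - u) ^ 2 * N := le_mul_of_one_le_left hN0 ha2
  generalize hw : kf u' - kf u = m at *
  generalize hn : pos (-u) = n at *
  generalize hmu : mu u p = μ at *
  rcases le_total 0 (p' - p) with he | he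
  · -- e ≥ 0
    have hae : |(u' - u) * (p' - p)| = (u' - u) * (p' - p) :=
      abs_of_nonneg (mul_nonneg (by linarith) he)
    rw [hae]
    have hμae : 0 ≤ μ * ((u' - u) * (p' - p)) := mul_nonneg hmu0 (mul_nonneg (by linarith) he)
    have hνwo : 0 ≤ ν / 2 * ((p' - p) * (om p' - om p)) := mul_nonneg (by positivity) hwo
    rcases le_total (p' - p) (5 / 4) with hE | hE
    · have := bb_same_small hA.le he hE hn0 hmun
      linarith
    · have hn3 : 201 / 100 * n * (p' - p) ^ 2 ≤ 201 / 10 ^ 5 * (p' - p) ^ 2 := by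
        apply mul_le_mul_of_nonneg_right _ (sq_nonneg _)
        linarith
      rcases le_total (-1 / 10) p with hpp | hpp
      · have hq : u' - p' ≤ -(112 / 1000 * (p' - p)) := by linarith
        have hq2 := sq_le_of_neg_bound (by linarith) hq
        have h1 : (112 / 1000 * (p' - p)) ^ 2 = (112 / 1000) ^ 2 * (p' - p) ^ 2 := by ring
        rw [h1] at hq2
        have h2 := sq_nonneg (p' - p)
        linarith
      · have h1 := wo_left (p := p) (p' := p') (s := 1 / 10) (by linarith) (by norm_num)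
          (by linarith) (by linarith)
        have h2 : 201 / 10 ^ 5 * (p' - p) ^ 2 ≤ ν / 2 * ((p' - p) * (1 / 10)) := by
          have hR14 : R ≤ R ^ 4 := by
            calc R = R ^ 1 := (pow_one R).symm
              _ ≤ R ^ 4 := pow_le_pow_right₀ hR (by norm_num)
          have h3 : 201 / 10 ^ 5 * (p' - p) ≤ ν / 2 * (1 / 10) := by linarith
          have h4 := mul_le_mul_of_nonneg_left h3 he
          linarith [h4, (by ring : (p' - p) * (201 / 10 ^ 5 * (p' - p))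
            = 201 / 10 ^ 5 * (p' - p) ^ 2),
            (by ring : (p' - p) * (ν / 2 * (1 / 10)) = ν / 2 * ((p' - p) * (1 / 10)))]
        have h3 : ν / 2 * ((p' - p) * (1 / 10)) ≤ ν / 2 * ((p' - p) * (om p' - om p)) :=
          mul_le_mul_of_nonneg_left h1 (by positivity)
        linarith
  · -- e ≤ 0
    have hae : |(u' - u) * (p' - p)| = (u' - u) * (p - p') := by
      rw [abs_of_nonpos (mul_nonpos_of_nonneg_of_nonpos (by linarith) he)]; ring
    rw [hae]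
    have hN3' : (u' - u + (p - p')) ^ 2 / 4 ≤ N := by
      rw [show u' - u + (p - p') = u' - u - (p' - p) by ring]; exact hN3
    have h1 := bb_opp (E := p - p') hA.le (by linarith) hmun' hn2 hN3'
    have hνwo : 0 ≤ ν / 2 * ((p' - p) * (om p' - om p)) := mul_nonneg (by positivity) hwo
    have e1 : (p - p') ^ 2 = (p' - p) ^ 2 := by ring
    have e2 : μ * ((u' - u) * (p' - p)) = -(μ * ((u' - u) * (p - p'))) := by ring
    rw [e1] at h1
    rw [e2]
    linarith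

lemma core_big_left {R ν u p u' p' : ℝ} (hR : 1 ≤ R) (hν : 10 ^ 9 * R ^ 4 ≤ ν)
    (hp : |p| ≤ R) (hp' : |p'| ≤ R) (hA : 1 < u - u')
    (hm : kf u - kf u' < 1 / 10 ^ 6) :
    ((u' - u) ^ 2 - 1) * (p' - p) ^ 2 + 1 / 100 * (mu u p * |(u' - u) * (p' - p)|)
      ≤ 98 / 100 * ((u' - u) ^ 2 * ((u - p) ^ 2 + (u - p) * (u' - p') + (u' - p') ^ 2))
        + mu u p * ((u' - u) * (p' - p))
        + ν * ((u' - u) * (kf u' - kf u)) + ν / 2 * ((p' - p) * (om p' - om p)) := by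
  have hmu0 := mu_nonneg u p
  have hwo := wo_nonneg p p'
  obtain ⟨hpl, hpr⟩ := abs_le.1 hp
  obtain ⟨hpl', hpr'⟩ := abs_le.1 hp'
  obtain ⟨hs1, hs2, ht0, ht1⟩ := small_wall hA hm
  have hm0 : 0 ≤ kf u - kf u' := by linarith [kf_mono (by linarith : u' ≤ u)]
  have hn0 : 0 ≤ pos (-u') := pos_nonneg _
  have hn1 : -u' ≤ pos (-u') := le_pos _
  have hn2 : pos (-u') ≤ 1 / 1000 := by
    unfold pos; exact max_le (by linarith) (by norm_num)
  have hmueq : mu u p = 1 / 4 * min (pos p) 2 := by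
    unfold mu
    rw [pos_of_nonpos (by linarith : -u ≤ 0), min_eq_left (zero_le_one)]
    ring
  have hmu2 : mu u p ≤ 503 / 1000 := by
    rw [hmueq]
    have : min (pos p) 2 ≤ 2 := min_le_right _ _
    linarith
  have hE2 : (p' - p) ^ 2 ≤ 4 * R ^ 2 := by
    rw [show 4 * R ^ 2 = (2 * R) ^ 2 by ring]
    exact sq_le_sq' (by linarith) (by linarith)
  have hneg := bb_neg hR hν hA.le (by linarith : u - u' ≤ 1 + (kf u - kf u') + pos (-u')) hm0
    hm.le hn2 hE2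
  have hν0 : 0 ≤ ν := le_trans (by positivity) hν
  have hν1 : 1 ≤ ν := by
    have : 1 ≤ R ^ 4 := one_le_pow₀ hR
    linarith
  have ha2 : 1 ≤ (u' - u) ^ 2 := by
    rw [show (u' - u) ^ 2 = (u - u') ^ 2 by ring]; exact one_le_pow₀ hA.le
  have hN2 := quadN_left (u - p) (u' - p')
  have hN3 := quadN_diff u p u' p'
  generalize (u - p) ^ 2 + (u - p) * (u' - p') + (u' - p') ^ 2 = N at hN2 hN3 ⊢
  have hN0 : 0 ≤ N := le_trans (by positivity) hN2
  have haN : N ≤ (u' - u) ^ 2 * N := le_mul_of_one_le_left hN0 ha2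
  have hkk : (u' - u) * (kf u' - kf u) = (u - u') * (kf u - kf u') := by ring
  rw [hkk]
  generalize hw : kf u - kf u' = m at *
  generalize hn : pos (-u') = n at *
  have hsq : (u' - u) ^ 2 = (u - u') ^ 2 := by ring
  rcases le_total (p' - p) 0 with he | he
  · -- e ≤ 0
    have hae : |(u' - u) * (p' - p)| = (u - u') * (p - p') := by
      rw [abs_of_nonneg (mul_nonneg_of_nonpos_of_nonpos (by linarith) he)]; ring
    have e2 : (u' - u) * (p' - p) = (u - u') * (p - p') := by ring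
    have e3 : (p' - p) ^ 2 = (p - p') ^ 2 := by ring
    have e4 : (p' - p) * (om p' - om p) = (p - p') * (om p - om p') := by ring
    rw [hae, e2]
    rw [e3] at hneg ⊢
    rw [hsq] at haN ⊢
    rw [e4] at hwo ⊢
    have hE0 : 0 ≤ p - p' := by linarith
    have hn3 : 201 / 100 * n * (p - p') ^ 2 ≤ 201 / 10 ^ 5 * (p - p') ^ 2 := by
      apply mul_le_mul_of_nonneg_right _ (sq_nonneg _)
      linarith
    have hE1 : p - p' ≤ (u - u') * (p - p') := le_mul_of_one_le_left hE0 hA.le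
    have hEμ : mu u p * (p - p') ≤ mu u p * ((u - u') * (p - p')) :=
      mul_le_mul_of_nonneg_left hE1 hmu0
    have hEμ0 : 0 ≤ mu u p * (p - p') := mul_nonneg hmu0 hE0
    have hνwo : 0 ≤ ν / 2 * ((p - p') * (om p - om p')) := mul_nonneg (by positivity) hwo
    have hE20 := sq_nonneg (p - p')
    rcases le_total ((p - p') / 2) p with hpE | hpE
    · rcases le_total (p - p') 4 with hE4 | hE4
      · have h1 : (p - p') / 2 ≤ min (pos p) 2 := le_min (hpE.trans (le_pos _)) (by linarith)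
        have h2 : 1 / 8 * (p - p') ≤ mu u p := by rw [hmueq]; linarith
        have h3 : 1 / 8 * (p - p') * (p - p') ≤ mu u p * (p - p') :=
          mul_le_mul_of_nonneg_right h2 hE0
        have h4 : 1 / 8 * (p - p') * (p - p') = 1 / 8 * (p - p') ^ 2 := by ring
        linarith
      · have hq : u - p ≤ -(24 / 100 * (p - p')) := by linarith
        have hq2 := sq_le_of_neg_bound (by linarith) hq
        have h1 : (24 / 100 * (p - p')) ^ 2 = (24 / 100) ^ 2 * (p - p') ^ 2 := by ring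
        rw [h1] at hq2
        linarith
    · have h1 := wo_left (p := p') (p' := p) (s := (p - p') / 2) (by linarith) (by linarith)
        (by linarith) (by linarith)
      have h3 : ν / 2 * ((p - p') * ((p - p') / 2)) ≤ ν / 2 * ((p - p') * (om p - om p')) :=
        mul_le_mul_of_nonneg_left h1 (by positivity)
      have h4 : 1 * (p - p') ^ 2 ≤ ν * (p - p') ^ 2 := mul_le_mul_of_nonneg_right hν1 hE20
      have h6 : ν / 2 * ((p - p') * ((p - p') / 2)) = 1 / 4 * (ν * (p - p') ^ 2) := by ring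
      linarith
  · -- e ≥ 0, ae ≤ 0
    have hae : |(u' - u) * (p' - p)| = (u - u') * (p' - p) := by
      rw [abs_of_nonpos (mul_nonpos_of_nonpos_of_nonneg (by linarith) he)]; ring
    rw [hae]
    have hN3' : (u - u' + (p' - p)) ^ 2 / 4 ≤ N := by
      rw [show (u - u' + (p' - p)) ^ 2 = (u' - u - (p' - p)) ^ 2 by ring]; exact hN3
    have h1 := bb_opp (E := p' - p) hA.le he hmu2 hn2 hN3'
    have hνwo : 0 ≤ ν / 2 * ((p' - p) * (om p' - om p)) := mul_nonneg (by positivity) hwo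
    have e2 : mu u p * ((u' - u) * (p' - p)) = -(mu u p * ((u - u') * (p' - p))) := by ring
    rw [hsq, e2]
    linarith

lemma core_big {R ν u p u' p' : ℝ} (hR : 1 ≤ R) (hν : 10 ^ 9 * R ^ 4 ≤ ν)
    (hu : |u| ≤ R) (hp : |p| ≤ R) (hu' : |u'| ≤ R) (hp' : |p'| ≤ R) (hA : 1 < |u' - u|) :
    ((u' - u) ^ 2 - 1) * (p' - p) ^ 2 + 1 / 100 * (mu u p * |(u' - u) * (p' - p)|)
      ≤ 98 / 100 * ((u' - u) ^ 2 * ((u - p) ^ 2 + (u - p) * (u' - p') + (u' - p') ^ 2))
        + mu u p * ((u' - u) * (p' - p))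
        + ν * ((u' - u) * (kf u' - kf u)) + ν / 2 * ((p' - p) * (om p' - om p)) := by
  by_cases hbig : 1 / 10 ^ 6 ≤ |kf u' - kf u|
  · have hwk := wk_nonneg u u'
    have hwo := wo_nonneg p p'
    have hmu0 := mu_nonneg u p
    obtain ⟨hpl, hpr⟩ := abs_le.1 hp
    obtain ⟨hpl', hpr'⟩ := abs_le.1 hp'
    obtain ⟨hul, hur⟩ := abs_le.1 hu
    obtain ⟨hul', hur'⟩ := abs_le.1 hu'
    have hwk' : (u' - u) * (kf u' - kf u) = |u' - u| * |kf u' - kf u| := by
      rw [← abs_mul, abs_of_nonneg hwk]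
    have h1 := bb_big (A := |u' - u|) (E := |p' - p|) hR hν (abs_nonneg _)
      (by rw [abs_le]; constructor <;> linarith) (abs_nonneg _)
      (by rw [abs_le]; constructor <;> linarith) (mu_le u p) hbig
    rw [sq_abs, sq_abs] at h1
    have hν0 : 0 ≤ ν := le_trans (by positivity) hν
    have h2 : 0 ≤ ν / 2 * ((p' - p) * (om p' - om p)) := mul_nonneg (by positivity) hwo
    have h3 := quadN_nonneg (u - p) (u' - p')
    have h4 : 0 ≤ (u' - u) ^ 2 * ((u - p) ^ 2 + (u - p) * (u' - p') + (u' - p') ^ 2) :=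
      mul_nonneg (sq_nonneg _) h3
    have h5 : -(mu u p * (|u' - u| * |p' - p|)) ≤ mu u p * ((u' - u) * (p' - p)) := by
      rw [← abs_mul, ← mul_neg]
      exact mul_le_mul_of_nonneg_left (neg_abs_le _) hmu0
    rw [hwk', abs_mul]
    linarith
  · push Not at hbig
    rcases le_total u u' with huu | huu
    · have ha : 1 < u' - u := by rwa [abs_of_nonneg (by linarith)] at hA
      rw [abs_of_nonneg (by linarith [kf_mono huu])] at hbig
      exact core_big_right hR hν hp hp' ha hbig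
    · have ha : 1 < u - u' := by rw [abs_of_nonpos (by linarith)] at hA; linarith
      rw [abs_of_nonpos (by linarith [kf_mono huu])] at hbig
      exact core_big_left hR hν hp hp' ha (by linarith)

end EC
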