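import Mathlib
import Pool.Agent.Helper35.EC.Core
import Pool.Agent.Helper35.EC.CoreBig

/-!
# MP_0db605_an : the core inequality
-/

namespace EC

/-- The core inequality (module T1). -/
theorem core_lower {R ν u p u' p' : ℝ} (hR : 1 ≤ R) (hν : 10 ^ 9 * R ^ 4 ≤ ν)
    (hu : |u| ≤ R) (hp : |p| ≤ R) (hu' : |u'| ≤ R) (hp' : |p'| ≤ R) :
    1 / 100 * ((u' - u) ^ 2 * ((u - p) ^ 2 + (u' - p') ^ 2 + |p * p'|)
        + mu u p * |(u' - u) * (p' - p)|)
      ≤ (u' - u) ^ 2 * ((u - p) ^ 2 + (u - p) * (u' - p') + (u' - p') ^ 2)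
        + (1 - (u' - u) ^ 2) * (p' - p) ^ 2 + (u' - u) ^ 2 * (p * p')
        + mu u p * ((u' - u) * (p' - p))
        + ν * ((u' - u) * (kf u' - kf u) + (p' - p) * (om p' - om p))
    ∧ (|u' - u| ≤ 1 / 2 →
      1 / 100 * ((u' - u) ^ 2 * ((u - p) ^ 2 + (u' - p') ^ 2 + |p * p'|)
        + mu u p * |(u' - u) * (p' - p)| + (p' - p) ^ 2)
      ≤ (u' - u) ^ 2 * ((u - p) ^ 2 + (u - p) * (u' - p') + (u' - p') ^ 2)
        + (1 - (u' - u) ^ 2) * (p' - p) ^ 2 + (u' - u) ^ 2 * (p * p')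
        + mu u p * ((u' - u) * (p' - p))
        + ν * ((u' - u) * (kf u' - kf u) + (p' - p) * (om p' - om p))) := by
  have hmu0 := mu_nonneg u p
  have hwo := wo_nonneg p p'
  have hwk := wk_nonneg u u'
  have hν0 : 0 ≤ ν := le_trans (by positivity) hν
  obtain ⟨hpl, hpr⟩ := abs_le.1 hp
  obtain ⟨hpl', hpr'⟩ := abs_le.1 hp'
  obtain ⟨hul, hur⟩ := abs_le.1 hu
  obtain ⟨hul', hur'⟩ := abs_le.1 hu'
  have hR4 : 1 ≤ R ^ 4 := one_le_pow₀ hR
  have hR24 : R ^ 2 ≤ R ^ 4 := pow_le_pow_right₀ hR (by norm_num)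
  -- step 1 : replace `pp'` by `|pp'|`
  have hx : (u' - u) ^ 2 * |p * p'| ≤ (u' - u) ^ 2 * (p * p')
      + ν / 2 * ((p' - p) * (om p' - om p)) := by
    rcases le_or_gt 0 (p * p') with h | h
    · rw [abs_of_nonneg h]
      have := mul_nonneg (by positivity : 0 ≤ ν / 2) hwo
      linarith
    · rw [abs_of_neg h]
      have h1 := wo_ge_of_neg h
      have h2 : (u' - u) ^ 2 ≤ 4 * R ^ 2 := by
        rw [show 4 * R ^ 2 = (2 * R) ^ 2 by ring]
        exact sq_le_sq' (by linarith) (by linarith)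
      have h3 : 2 * (u' - u) ^ 2 ≤ ν / 2 := by linarith
      have h4 : 2 * (u' - u) ^ 2 * -(p * p') ≤ ν / 2 * -(p * p') :=
        mul_le_mul_of_nonneg_right h3 (by linarith)
      have h5 : ν / 2 * -(p * p') ≤ ν / 2 * ((p' - p) * (om p' - om p)) :=
        mul_le_mul_of_nonneg_left h1 (by positivity)
      linarith
  -- the factor N
  have hN1 : ((u - p) ^ 2 + (u' - p') ^ 2) / 2
      ≤ (u - p) ^ 2 + (u - p) * (u' - p') + (u' - p') ^ 2 := quadN_half _ _
  have haN1 := mul_le_mul_of_nonneg_left hN1 (sq_nonneg (u' - u))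
  have hN3 := quadN_diff u p u' p'
  have hx0 : 0 ≤ |p * p'| := abs_nonneg _
  have hax0 : 0 ≤ (u' - u) ^ 2 * |p * p'| := mul_nonneg (sq_nonneg _) hx0
  have hN0 : 0 ≤ (u - p) ^ 2 + (u - p) * (u' - p') + (u' - p') ^ 2 :=
    le_trans (by positivity) hN3
  have haN0 : 0 ≤ (u' - u) ^ 2 * ((u - p) ^ 2 + (u - p) * (u' - p') + (u' - p') ^ 2) :=
    mul_nonneg (sq_nonneg _) hN0
  have hE0 := sq_nonneg (p' - p)
  rcases le_or_gt |u' - u| 1 with hA | hA
  · have ha1 : (u' - u) ^ 2 ≤ 1 := sq_le_one_of_abs hA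
    have hνwk : 0 ≤ ν * ((u' - u) * (kf u' - kf u)) := mul_nonneg hν0 hwk
    have hνwo : 0 ≤ ν / 2 * ((p' - p) * (om p' - om p)) := mul_nonneg (by positivity) hwo
    rcases le_or_gt 0 ((u' - u) * (p' - p)) with hae | hae
    · -- same sign
      rw [abs_of_nonneg hae]
      have h1 : 0 ≤ mu u p * ((u' - u) * (p' - p)) := mul_nonneg hmu0 hae
      have h2 : 0 ≤ (1 - (u' - u) ^ 2) * (p' - p) ^ 2 := mul_nonneg (by linarith) hE0
      constructor
      · linarith
      · intro hA2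
        have h3 : (u' - u) ^ 2 ≤ 1 / 4 := sq_le_quarter_of_abs hA2
        have h4 : 3 / 4 * (p' - p) ^ 2 ≤ (1 - (u' - u) ^ 2) * (p' - p) ^ 2 :=
          mul_le_mul_of_nonneg_right (by linarith) hE0
        linarith
    · -- opposite signs
      have hae' : |(u' - u) * (p' - p)| = |u' - u| * |p' - p| := abs_mul _ _
      have hae2 : (u' - u) * (p' - p) = -(|u' - u| * |p' - p|) := by
        rw [← hae', abs_of_neg hae]; ring
      rw [hae', hae2]
      have hts := twist_soft (u := u) (u' := u') (abs_nonneg (p' - p)) hA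
      have hsgn : (|u' - u| + |p' - p|) ^ 2 = (u' - u - (p' - p)) ^ 2 := by
        have h1 := sq_abs (u' - u)
        have h2 := sq_abs (p' - p)
        have h3 : (|u' - u| + |p' - p|) ^ 2
          = |u' - u| ^ 2 + |p' - p| ^ 2 + 2 * (|u' - u| * |p' - p|) := by ring
        rw [h3, h1, h2]
        linarith [(by ring : (u' - u - (p' - p)) ^ 2
          = (u' - u) ^ 2 + (p' - p) ^ 2 - 2 * ((u' - u) * (p' - p)))]
      have hpx : 0 < p → |p' - p| ≤ p / 2 → p ^ 2 / 2 ≤ |p * p'| := by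
        intro hp0 hE
        have h1 : p / 2 ≤ p' := by linarith [(abs_le.1 hE).1]
        have h2 : p * (p / 2) ≤ p * p' := mul_le_mul_of_nonneg_left h1 hp0.le
        have h3 := le_abs_self (p * p')
        have h4 : p * (p / 2) = p ^ 2 / 2 := by ring
        linarith
      have hsm := core_small_neg (A := |u' - u|) (E := |p' - p|) (p := p) (x := |p * p'|)
        (N := (u - p) ^ 2 + (u - p) * (u' - p') + (u' - p') ^ 2) (abs_nonneg _) hA (abs_nonneg _)
        hx0 (by rw [hsgn]; exact hN3) hpx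
      rw [sq_abs, sq_abs] at hsm
      rw [sq_abs] at hts
      have hmudef : mu u p * (|u' - u| * |p' - p|)
          = 1 / 4 * min (pos p) 2 * (|u' - u| * |p' - p|)
            + 3 * min (pos (-u)) 1 * (|u' - u| * |p' - p|) := by
        unfold mu; ring
      have hAE0 : 0 ≤ |u' - u| * |p' - p| := by positivity
      have hm1 : 0 ≤ min (pos p) 2 * (|u' - u| * |p' - p|) :=
        mul_nonneg (le_min (pos_nonneg _) (by norm_num)) hAE0
      have hm2 : 0 ≤ min (pos (-u)) 1 * (|u' - u| * |p' - p|) :=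
        mul_nonneg (le_min (pos_nonneg _) (by norm_num)) hAE0
      have hν2 : 20000 * ((u' - u) * (kf u' - kf u)) ≤ ν * ((u' - u) * (kf u' - kf u)) :=
        mul_le_mul_of_nonneg_right (by linarith) hwk
      obtain ⟨hsm1, hsm2⟩ := hsm
      constructor
      · linarith
      · intro hA2
        have := hsm2 hA2
        linarith
  · have hbig := core_big hR hν hu hp hu' hp' hA
    constructor
    · linarith
    · intro hA2
      linarith

end EC
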