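import Mathlib
import Pool.Agent.Helper94.EC.Bounds
import Pool.Agent.Helper35.EC.Walls

/-!
# MP_0db605_an : crude lower bound for the untwisted slice kernel
-/

namespace EC

lemma Phi_mono {h W W' : ℝ} (h0 : 0 < h) (h1 : h ≤ 1) (hW : W ≤ W') : Phi h W ≤ Phi h W' := by
  unfold Phi
  have hc : 0 ≤ 4 / h - 1 := by
    have : 1 ≤ 4 / h := by rw [le_div_iff₀ h0]; linarith
    linarith
  have key : pos W - pos (W - 2 * h) ≤ pos W' - pos (W' - 2 * h) := by
    rcases le_total W 0 with a1 | a1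
    · rw [pos_of_nonpos a1, pos_of_nonpos (by linarith : W - 2 * h ≤ 0)]
      have : pos (W' - 2 * h) ≤ pos W' := by
        unfold pos; exact max_le_max (by linarith) le_rfl
      linarith
    · rw [pos_of_nonneg a1, pos_of_nonneg (by linarith : 0 ≤ W')]
      rcases le_total W (2 * h) with a2 | a2
      · rw [pos_of_nonpos (by linarith : W - 2 * h ≤ 0)]
        rcases le_total W' (2 * h) with a3 | a3
        · rw [pos_of_nonpos (by linarith : W' - 2 * h ≤ 0)]; linarith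
        · rw [pos_of_nonneg (by linarith : 0 ≤ W' - 2 * h)]; linarith
      · rw [pos_of_nonneg (by linarith : 0 ≤ W - 2 * h),
          pos_of_nonneg (by linarith : 0 ≤ W' - 2 * h)]
        linarith
  have := mul_le_mul_of_nonneg_left key hc
  linarith

lemma Phi_mul_nonneg {h W W' : ℝ} (h0 : 0 < h) (h1 : h ≤ 1) :
    0 ≤ (W' - W) * (Phi h W' - Phi h W) := by
  rcases le_total W W' with hW | hW
  · exact mul_nonneg (by linarith) (by linarith [Phi_mono h0 h1 hW])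
  · exact mul_nonneg_of_nonpos_of_nonpos (by linarith) (by linarith [Phi_mono h0 h1 hW])

lemma lin_identity (h u y Q k u' y' Q' k' : ℝ) :
    (u' - u) * ((k' + 4 * h * u' ^ 3 - 3 * h * u' ^ 2 * Q') - (k + 4 * h * u ^ 3 - 3 * h * u ^ 2 * Q))
      + (y' - y) * (Q' - Q)
      = (u' - u) * (k' - k) + 4 * h * ((u' - u) ^ 2 * (u ^ 2 + u * u' + u' ^ 2))
        + ((y' - h * u' ^ 3) - (y - h * u ^ 3)) * (Q' - Q)
        - h * ((u' - u) ^ 2 * (Q' * (u + 2 * u') + Q * (2 * u + u'))) := by ring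

lemma abs_two_mul_le (x y : ℝ) : |2 * x * y| ≤ x ^ 2 + y ^ 2 := by
  rw [abs_le]
  constructor
  · nlinarith [sq_nonneg (x + y)]
  · nlinarith [sq_nonneg (x - y)]

lemma quad_nonneg (u u' : ℝ) : 0 ≤ u ^ 2 + u * u' + u' ^ 2 := by
  nlinarith [sq_nonneg (u + u'), sq_nonneg u, sq_nonneg u']

theorem Ks_zero_lower {h K u y u' y' : ℝ} (hK : 10 ^ 15 ≤ K) (h0 : 0 < h)
    (hh : 10 ^ 60 * K ^ 40 * h ≤ 1)
    (hu : |u| ≤ 2 * K) (hy : |y| ≤ 2 * K) (hu' : |u'| ≤ 2 * K) (hy' : |y'| ≤ 2 * K) :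
    -(1 / 100) * ((u' - u) ^ 2 + (y' - y) ^ 2)
      ≤ Ks h 0 (u' - u) (y' - y) (Pf h u (pf h u y)) (4 * pf h u y)
          (Pf h u' (pf h u' y')) (4 * pf h u' y') := by
  have hK10 : 10 ^ 10 ≤ K := le_trans (by norm_num) hK
  have hK1 : 1 ≤ K := le_trans (by norm_num) hK
  have hK0 : 0 < K := by linarith
  have hKpow : K ^ 2 ≤ K ^ 40 := pow_le_pow_right₀ hK1 (by norm_num)
  have hK2 : 1 ≤ K ^ 2 := one_le_pow₀ hK1
  have hhK : 1000 * (h * K ^ 2) ≤ 1 / 100 := by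
    have e1 : h * K ^ 2 ≤ h * K ^ 40 := mul_le_mul_of_nonneg_left hKpow h0.le
    have e2 : 10 ^ 60 * (h * K ^ 40) ≤ 1 := by linarith
    have e3 : 0 ≤ h * K ^ 40 := by positivity
    norm_num at e2 ⊢
    linarith
  have h1 : h ≤ 1 := by
    have e1 : h * 1 ≤ h * K ^ 2 := mul_le_mul_of_nonneg_left hK2 h0.le
    linarith
  have hp := (pf_abs_le hK10 h0 hh hu hy).1
  have hp' := (pf_abs_le hK10 h0 hh hu' hy').1
  have hP := Pf_abs_le hK10 h0 hh hu hy
  have hP' := Pf_abs_le hK10 h0 hh hu' hy'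
  have hwk := wk_nonneg u u'
  have hPhi := Phi_mul_nonneg (W := y - h * u ^ 3) (W' := y' - h * u' ^ 3) h0 h1
  have eQ : 4 * pf h u y = Phi h (y - h * u ^ 3) := by unfold pf; ring
  have eQ' : 4 * pf h u' y' = Phi h (y' - h * u' ^ 3) := by unfold pf; ring
  rw [← eQ, ← eQ'] at hPhi
  have ePd : Pf h u (pf h u y) = kf u + 4 * h * u ^ 3 - 3 * h * u ^ 2 * (4 * pf h u y) := by
    unfold Pf; ring
  have ePd' : Pf h u' (pf h u' y') = kf u' + 4 * h * u' ^ 3 - 3 * h * u' ^ 2 * (4 * pf h u' y') := by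
    unfold Pf; ring
  have bQ : |4 * pf h u y| ≤ 4 * K := by
    rw [abs_mul]; have : |(4:ℝ)| = 4 := by norm_num
    rw [this]; linarith
  have bQ' : |4 * pf h u' y'| ≤ 4 * K := by
    rw [abs_mul]; have : |(4:ℝ)| = 4 := by norm_num
    rw [this]; linarith
  have bP : |Pf h u (pf h u y)| ≤ 4 * K := by
    have := abs_add_le (Pf h u (pf h u y) - u) u
    rw [sub_add_cancel] at this
    linarith
  have bP' : |Pf h u' (pf h u' y')| ≤ 4 * K := by
    have := abs_add_le (Pf h u' (pf h u' y') - u') u'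
    rw [sub_add_cancel] at this
    linarith
  generalize hPg : Pf h u (pf h u y) = P at *
  generalize hPg' : Pf h u' (pf h u' y') = P' at *
  generalize hQg : 4 * pf h u y = Q at *
  generalize hQg' : 4 * pf h u' y' = Q' at *
  have hlin := lin_identity h u y Q (kf u) u' y' Q' (kf u')
  rw [← ePd, ← ePd'] at hlin
  have mbb : ∀ {x y A B : ℝ}, |x| ≤ A → |y| ≤ B → |x * y| ≤ A * B := by
    intro x y A B hx hy
    rw [abs_mul]
    exact mul_le_mul hx hy (abs_nonneg _) ((abs_nonneg _).trans hx)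
  have t1 : 0 ≤ (u' - u) ^ 2 * (u ^ 2 + u * u' + u' ^ 2) :=
    mul_nonneg (sq_nonneg _) (quad_nonneg u u')
  have b1 : |Q' * (u + 2 * u')| ≤ 4 * K * (6 * K) := by
    apply mbb bQ'
    have := abs_add_le u (2 * u')
    rw [abs_mul, abs_two] at this
    linarith
  have b2 : |Q * (2 * u + u')| ≤ 4 * K * (6 * K) := by
    apply mbb bQ
    have := abs_add_le (2 * u) u'
    rw [abs_mul, abs_two] at this
    linarith
  have b3 : Q' * (u + 2 * u') + Q * (2 * u + u') ≤ 48 * K ^ 2 := by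
    have := (abs_le.1 b1).2
    have := (abs_le.1 b2).2
    linarith
  have b3' := mul_le_mul_of_nonneg_left b3 (sq_nonneg (u' - u))
  have b3'' := mul_le_mul_of_nonneg_left b3' h0.le
  have b4 : |P * P' + Q * Q'| ≤ 32 * K ^ 2 := by
    have := abs_add_le (P * P') (Q * Q')
    have := mbb bP bP'
    have := mbb bQ bQ'
    linarith
  have b5 : |P * Q' + Q * P'| ≤ 32 * K ^ 2 := by
    have := abs_add_le (P * Q') (Q * P')
    have := mbb bP bQ'
    have := mbb bQ bP'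
    linarith
  have c4 : -(32 * K ^ 2 * ((u' - u) ^ 2 + (y' - y) ^ 2))
      ≤ ((u' - u) ^ 2 + (y' - y) ^ 2) * (P * P' + Q * Q') := by
    have := mul_le_mul_of_nonneg_left (abs_le.1 b4).1
      (by positivity : 0 ≤ (u' - u) ^ 2 + (y' - y) ^ 2)
    linarith
  have c5 : -(32 * K ^ 2 * ((u' - u) ^ 2 + (y' - y) ^ 2))
      ≤ 2 * (u' - u) * (y' - y) * (P * Q' + Q * P') := by
    have e2 := mbb (abs_two_mul_le (u' - u) (y' - y)) b5
    have := (abs_le.1 e2).1
    linarith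
  have d4 := mul_le_mul_of_nonneg_left c4 h0.le
  have d5 := mul_le_mul_of_nonneg_left c5 h0.le
  have f1 : h * K ^ 2 * ((u' - u) ^ 2 + (y' - y) ^ 2)
      ≤ 1 / 100000 * ((u' - u) ^ 2 + (y' - y) ^ 2) :=
    mul_le_mul_of_nonneg_right (by linarith) (by positivity)
  have f2 : 0 ≤ h * K ^ 2 * (y' - y) ^ 2 := by positivity
  have f3 : 0 ≤ h * ((u' - u) ^ 2 * (u ^ 2 + u * u' + u' ^ 2)) := mul_nonneg h0.le t1
  have f4 : 0 ≤ (u' - u) ^ 2 + (y' - y) ^ 2 := by positivity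
  unfold Ks
  linarith

end EC
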