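import Mathlib
import Pool.Agent.Helper35.EC.Walls

/-!
# MP_0db605_an : estimates for the remainder of the slice kernel
-/

namespace EC

/-- The remainder, small `a`. -/
lemma restA {h B a d k k' x x' P P' Q Q' μ Dk Dx wk G : ℝ} (h0 : 0 ≤ h) (h1 : h ≤ 1)
    (hB : 1 ≤ B) (hP : P = k + h * x) (hP' : P' = k' + h * x') (hD : P' - P = Dk + h * Dx)
    (bP : |P| ≤ B) (bP' : |P'| ≤ B) (bQ : |Q| ≤ B) (bQ' : |Q'| ≤ B) (bx : |x| ≤ B)
    (bx' : |x'| ≤ B) (hμ0 : 0 ≤ μ) (hμ : μ ≤ B) (hwk : 0 ≤ wk) (hG : 0 ≤ G)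
    (hDk : Dk ^ 2 ≤ wk) (ak : |a * k| ≤ B * |Dk|) (ak' : |a * k'| ≤ B * |Dk|)
    (aak : |a ^ 2 * k| ≤ B * wk) (aak' : |a ^ 2 * k'| ≤ B * wk)
    (hxx : a ^ 2 * |x * x'| ≤ 24 * B ^ 2 * G) (hxQ : a ^ 2 * |x * Q'| ≤ 8 * B * G)
    (hxQ' : a ^ 2 * |x' * Q| ≤ 8 * B * G) (hQQ : a ^ 2 * |Q * Q'| ≤ 16 * G)
    (hDx : Dx ^ 2 ≤ 36 * B ^ 2 * G) :
    |(a ^ 2 + d ^ 2) * (P * P') + d ^ 2 * (Q * Q') + 2 * a * d * (P * Q' + Q * P')
      + μ * (d * (P' - P) + h * ((a ^ 2 + d ^ 2) * (P * Q' + Q * P')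
        + 2 * a * d * (P * P' + Q * Q')))| ≤ 20 * B ^ 3 * (wk + d ^ 2) + 120 * B ^ 3 * (h * G) := by
  have hB0 : 0 ≤ B := by linarith
  have hB2 : 1 ≤ B ^ 2 := one_le_pow₀ hB
  have hB12 : B ≤ B ^ 2 := by nlinarith
  have hB23 : B ^ 2 ≤ B ^ 3 := pow_le_pow_right₀ hB (by norm_num)
  have hB13 : B ≤ B ^ 3 := hB12.trans hB23
  have hB3 : 1 ≤ B ^ 3 := one_le_pow₀ hB
  have hh2 : h ^ 2 ≤ h := by nlinarith
  have hh21 : h ^ 2 ≤ 1 := hh2.trans h1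
  have hd2 := sq_nonneg d
  have hhG : 0 ≤ h * G := mul_nonneg h0 hG
  have hhG1 : h ^ 2 * G ≤ h * G := mul_le_mul_of_nonneg_right hh2 hG
  have hdDk : |d| * |Dk| ≤ (wk + d ^ 2) / 2 := by
    nlinarith [sq_nonneg (|d| - |Dk|), sq_abs d, sq_abs Dk]
  -- the terms
  have t1 : |a ^ 2 * k * P'| ≤ B * wk * B := mb aak bP'
  have t2 : |h * (a ^ 2 * k' * x)| ≤ B * wk * B := by
    rw [abs_mul, abs_of_nonneg h0]
    calc h * |a ^ 2 * k' * x| ≤ 1 * |a ^ 2 * k' * x| :=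
          mul_le_mul_of_nonneg_right h1 (abs_nonneg _)
      _ = |a ^ 2 * k' * x| := one_mul _
      _ ≤ B * wk * B := mb aak' bx
  have t3 : |h ^ 2 * (a ^ 2 * (x * x'))| ≤ h ^ 2 * (24 * B ^ 2 * G) := by
    rw [abs_mul, abs_of_nonneg (sq_nonneg h)]
    apply mul_le_mul_of_nonneg_left _ (sq_nonneg h)
    rw [abs_mul, abs_of_nonneg (sq_nonneg a)]
    exact hxx
  have t4 : |d ^ 2 * (P * P')| ≤ d ^ 2 * (B * B) := by
    rw [abs_mul, abs_of_nonneg hd2]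
    exact mul_le_mul_of_nonneg_left (mb bP bP') hd2
  have t5 : |d ^ 2 * (Q * Q')| ≤ d ^ 2 * (B * B) := by
    rw [abs_mul, abs_of_nonneg hd2]
    exact mul_le_mul_of_nonneg_left (mb bQ bQ') hd2
  have t6 : |2 * (d * ((a * k) * Q'))| ≤ 2 * (|d| * (B * |Dk| * B)) := by
    rw [abs_mul, abs_two, abs_mul]
    exact mul_le_mul_of_nonneg_left (mul_le_mul_of_nonneg_left (mb ak bQ') (abs_nonneg d))
      (by norm_num)
  have t6' : |2 * (d * ((a * k') * Q))| ≤ 2 * (|d| * (B * |Dk| * B)) := by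
    rw [abs_mul, abs_two, abs_mul]
    exact mul_le_mul_of_nonneg_left (mul_le_mul_of_nonneg_left (mb ak' bQ) (abs_nonneg d))
      (by norm_num)
  have sxQ : |x * Q' + x' * Q| ≤ |x * Q'| + |x' * Q| := abs_add_le _ _
  have dxQ : |x * Q' + x' * Q| ≤ 2 * (B * B) := by
    have := mb bx bQ'
    have := mb bx' bQ
    linarith
  have axQ : a ^ 2 * |x * Q' + x' * Q| ≤ 16 * B * G := by
    have := mul_le_mul_of_nonneg_left sxQ (sq_nonneg a)
    linarith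
  have adxQ : (a ^ 2 + d ^ 2) * |x * Q' + x' * Q| ≤ 16 * B * G + d ^ 2 * (2 * (B * B)) := by
    have := mul_le_mul_of_nonneg_left dxQ hd2
    linarith
  have t7 : |h * (2 * a * d * (x * Q' + x' * Q))|
      ≤ h * (16 * B * G + d ^ 2 * (2 * (B * B))) := by
    rw [abs_mul, abs_of_nonneg h0]
    exact mul_le_mul_of_nonneg_left (two_ad.trans adxQ) h0
  have t8 : |μ * (d * Dk)| ≤ B * (|d| * |Dk|) := by
    rw [abs_mul, abs_of_nonneg hμ0, abs_mul]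
    exact mul_le_mul_of_nonneg_right hμ (by positivity)
  have t9 : |μ * (d * (h * Dx))| ≤ B * ((d ^ 2 + h ^ 2 * (36 * B ^ 2 * G)) / 2) := by
    rw [abs_mul, abs_of_nonneg hμ0]
    apply mul_le_mul hμ _ (abs_nonneg _) hB0
    have h3 : h ^ 2 * Dx ^ 2 ≤ h ^ 2 * (36 * B ^ 2 * G) :=
      mul_le_mul_of_nonneg_left hDx (sq_nonneg h)
    have q1 := sq_nonneg (d + h * Dx)
    have q2 := sq_nonneg (d - h * Dx)
    rw [abs_le]
    constructor <;> linarith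
  have t10 : |μ * (h * (a ^ 2 * k * Q'))| ≤ B * (1 * (B * wk * B)) := by
    rw [abs_mul, abs_of_nonneg hμ0]
    apply mul_le_mul hμ _ (abs_nonneg _) hB0
    rw [abs_mul, abs_of_nonneg h0]
    exact mul_le_mul h1 (mb aak bQ') (abs_nonneg _) (by norm_num)
  have t10' : |μ * (h * (a ^ 2 * k' * Q))| ≤ B * (1 * (B * wk * B)) := by
    rw [abs_mul, abs_of_nonneg hμ0]
    apply mul_le_mul hμ _ (abs_nonneg _) hB0
    rw [abs_mul, abs_of_nonneg h0]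
    exact mul_le_mul h1 (mb aak' bQ) (abs_nonneg _) (by norm_num)
  have t11 : |μ * (h ^ 2 * (a ^ 2 * (x * Q' + x' * Q)))| ≤ B * (h ^ 2 * (16 * B * G)) := by
    rw [abs_mul, abs_of_nonneg hμ0]
    apply mul_le_mul hμ _ (abs_nonneg _) hB0
    rw [abs_mul, abs_of_nonneg (sq_nonneg h)]
    apply mul_le_mul_of_nonneg_left _ (sq_nonneg h)
    rw [abs_mul, abs_of_nonneg (sq_nonneg a)]
    exact axQ
  have t12 : |μ * (h * (d ^ 2 * (P * Q' + Q * P')))| ≤ B * (1 * (d ^ 2 * (2 * (B * B)))) := by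
    rw [abs_mul, abs_of_nonneg hμ0]
    apply mul_le_mul hμ _ (abs_nonneg _) hB0
    rw [abs_mul, abs_of_nonneg h0]
    apply mul_le_mul h1 _ (abs_nonneg _) (by norm_num)
    rw [abs_mul, abs_of_nonneg hd2]
    apply mul_le_mul_of_nonneg_left _ hd2
    have e1 := mb bP bQ'
    have e2 := mb bQ bP'
    have := abs_add_le (P * Q') (Q * P')
    linarith
  have t13 : |μ * (h * (2 * (d * ((a * k) * P'))))| ≤ B * (1 * (2 * (|d| * (B * |Dk| * B)))) := by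
    rw [abs_mul, abs_of_nonneg hμ0]
    apply mul_le_mul hμ _ (abs_nonneg _) hB0
    rw [abs_mul, abs_of_nonneg h0]
    apply mul_le_mul h1 _ (abs_nonneg _) (by norm_num)
    rw [abs_mul, abs_two, abs_mul]
    exact mul_le_mul_of_nonneg_left (mul_le_mul_of_nonneg_left (mb ak bP') (abs_nonneg d))
      (by norm_num)
  have t13' : |μ * (h * (2 * (h * (d * ((a * k') * x)))))|
      ≤ B * (1 * (2 * (1 * (|d| * (B * |Dk| * B))))) := by
    rw [abs_mul, abs_of_nonneg hμ0]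
    apply mul_le_mul hμ _ (abs_nonneg _) hB0
    rw [abs_mul, abs_of_nonneg h0]
    apply mul_le_mul h1 _ (abs_nonneg _) (by norm_num)
    rw [abs_mul, abs_two]
    apply mul_le_mul_of_nonneg_left _ (by norm_num)
    rw [abs_mul, abs_of_nonneg h0]
    apply mul_le_mul h1 _ (abs_nonneg _) (by norm_num)
    rw [abs_mul]
    exact mul_le_mul_of_nonneg_left (mb ak' bx) (abs_nonneg d)
  have dxx : |h ^ 2 * (x * x') + Q * Q'| ≤ 2 * (B * B) := by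
    have e1 : |h ^ 2 * (x * x')| ≤ 1 * (B * B) := by
      rw [abs_mul, abs_of_nonneg (sq_nonneg h)]
      exact mul_le_mul hh21 (mb bx bx') (abs_nonneg _) (by norm_num)
    have e2 := mb bQ bQ'
    have := abs_add_le (h ^ 2 * (x * x')) (Q * Q')
    linarith
  have axx : a ^ 2 * |h ^ 2 * (x * x') + Q * Q'| ≤ 24 * B ^ 2 * G + 16 * G := by
    have e0 : |h ^ 2 * (x * x') + Q * Q'| ≤ |x * x'| + |Q * Q'| := by
      refine (abs_add_le _ _).trans ?_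
      have e1 : |h ^ 2 * (x * x')| ≤ |x * x'| := by
        rw [abs_mul, abs_of_nonneg (sq_nonneg h)]
        exact mul_le_of_le_one_left (abs_nonneg _) hh21
      linarith
    have := mul_le_mul_of_nonneg_left e0 (sq_nonneg a)
    linarith
  have adxx : (a ^ 2 + d ^ 2) * |h ^ 2 * (x * x') + Q * Q'|
      ≤ 24 * B ^ 2 * G + 16 * G + d ^ 2 * (2 * (B * B)) := by
    have := mul_le_mul_of_nonneg_left dxx hd2
    linarith
  have t14 : |μ * (h * (2 * a * d * (h ^ 2 * (x * x') + Q * Q')))|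
      ≤ B * (h * (24 * B ^ 2 * G + 16 * G + d ^ 2 * (2 * (B * B)))) := by
    rw [abs_mul, abs_of_nonneg hμ0]
    apply mul_le_mul hμ _ (abs_nonneg _) hB0
    rw [abs_mul, abs_of_nonneg h0]
    exact mul_le_mul_of_nonneg_left (two_ad.trans adxx) h0
  have key : (a ^ 2 + d ^ 2) * (P * P') + d ^ 2 * (Q * Q') + 2 * a * d * (P * Q' + Q * P')
      + μ * (d * (P' - P) + h * ((a ^ 2 + d ^ 2) * (P * Q' + Q * P')
        + 2 * a * d * (P * P' + Q * Q')))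
      = a ^ 2 * k * P' + h * (a ^ 2 * k' * x) + h ^ 2 * (a ^ 2 * (x * x')) + d ^ 2 * (P * P')
        + d ^ 2 * (Q * Q') + 2 * (d * ((a * k) * Q')) + 2 * (d * ((a * k') * Q))
        + h * (2 * a * d * (x * Q' + x' * Q)) + μ * (d * Dk) + μ * (d * (h * Dx))
        + μ * (h * (a ^ 2 * k * Q')) + μ * (h * (a ^ 2 * k' * Q))
        + μ * (h ^ 2 * (a ^ 2 * (x * Q' + x' * Q))) + μ * (h * (d ^ 2 * (P * Q' + Q * P')))
        + μ * (h * (2 * (d * ((a * k) * P')))) + μ * (h * (2 * (h * (d * ((a * k') * x)))))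
        + μ * (h * (2 * a * d * (h ^ 2 * (x * x') + Q * Q'))) := by
    rw [hD]
    rw [hP, hP']
    ring
  rw [key]
  -- collect
  obtain ⟨l1, r1⟩ := abs_le.1 t1
  obtain ⟨l2, r2⟩ := abs_le.1 t2
  obtain ⟨l3, r3⟩ := abs_le.1 t3
  obtain ⟨l4, r4⟩ := abs_le.1 t4
  obtain ⟨l5, r5⟩ := abs_le.1 t5
  obtain ⟨l6, r6⟩ := abs_le.1 t6
  obtain ⟨l6', r6'⟩ := abs_le.1 t6'
  obtain ⟨l7, r7⟩ := abs_le.1 t7
  obtain ⟨l8, r8⟩ := abs_le.1 t8
  obtain ⟨l9, r9⟩ := abs_le.1 t9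
  obtain ⟨l10, r10⟩ := abs_le.1 t10
  obtain ⟨l10', r10'⟩ := abs_le.1 t10'
  obtain ⟨l11, r11⟩ := abs_le.1 t11
  obtain ⟨l12, r12⟩ := abs_le.1 t12
  obtain ⟨l13, r13⟩ := abs_le.1 t13
  obtain ⟨l13', r13'⟩ := abs_le.1 t13'
  obtain ⟨l14, r14⟩ := abs_le.1 t14
  have hsum : B * wk * B + B * wk * B + h ^ 2 * (24 * B ^ 2 * G) + d ^ 2 * (B * B)
        + d ^ 2 * (B * B) + 2 * (|d| * (B * |Dk| * B)) + 2 * (|d| * (B * |Dk| * B))
        + h * (16 * B * G + d ^ 2 * (2 * (B * B))) + B * (|d| * |Dk|)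
        + B * ((d ^ 2 + h ^ 2 * (36 * B ^ 2 * G)) / 2)
        + B * (1 * (B * wk * B)) + B * (1 * (B * wk * B))
        + B * (h ^ 2 * (16 * B * G)) + B * (1 * (d ^ 2 * (2 * (B * B))))
        + B * (1 * (2 * (|d| * (B * |Dk| * B)))) + B * (1 * (2 * (1 * (|d| * (B * |Dk| * B)))))
        + B * (h * (24 * B ^ 2 * G + 16 * G + d ^ 2 * (2 * (B * B))))
      ≤ 20 * B ^ 3 * (wk + d ^ 2) + 120 * B ^ 3 * (h * G) := by
    have e1 : B ^ 2 * wk ≤ B ^ 3 * wk := mul_le_mul_of_nonneg_right hB23 hwk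
    have e2 : B ^ 2 * d ^ 2 ≤ B ^ 3 * d ^ 2 := mul_le_mul_of_nonneg_right hB23 hd2
    have e3 : B * d ^ 2 ≤ B ^ 3 * d ^ 2 := mul_le_mul_of_nonneg_right hB13 hd2
    have e4 : B ^ 2 * (|d| * |Dk|) ≤ B ^ 3 * ((wk + d ^ 2) / 2) :=
      mul_le_mul hB23 hdDk (by positivity) (by positivity)
    have e5 : B * (|d| * |Dk|) ≤ B ^ 3 * ((wk + d ^ 2) / 2) :=
      mul_le_mul hB13 hdDk (by positivity) (by positivity)
    have e6 : B ^ 3 * (|d| * |Dk|) ≤ B ^ 3 * ((wk + d ^ 2) / 2) :=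
      mul_le_mul_of_nonneg_left hdDk (by positivity)
    have e7 : B ^ 2 * (h ^ 2 * G) ≤ B ^ 3 * (h * G) :=
      mul_le_mul hB23 hhG1 (by positivity) (by positivity)
    have e8 : B * (h * G) ≤ B ^ 3 * (h * G) := mul_le_mul_of_nonneg_right hB13 hhG
    have e9 : B ^ 3 * (h ^ 2 * G) ≤ B ^ 3 * (h * G) :=
      mul_le_mul_of_nonneg_left hhG1 (by positivity)
    have e10 : h * (B ^ 2 * d ^ 2) ≤ 1 * (B ^ 2 * d ^ 2) :=
      mul_le_mul_of_nonneg_right h1 (by positivity)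
    have e11 : h * (B ^ 3 * d ^ 2) ≤ 1 * (B ^ 3 * d ^ 2) :=
      mul_le_mul_of_nonneg_right h1 (by positivity)
    have e12 : 0 ≤ B ^ 3 * wk := by positivity
    have e13 : 0 ≤ B ^ 3 * d ^ 2 := by positivity
    have e14 : 0 ≤ B ^ 3 * (h * G) := by positivity
    linarith
  rw [abs_le]
  constructor
  · linarith
  · linarith

end EC
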