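import Mathlib
import Pool.Agent.Helper35.EC.Walls

/-!
# MP_0db605_an : estimates for the remainder of the slice kernel, large differences
-/

namespace EC

lemma mb3 {x y z A B C : ℝ} (hx : |x| ≤ A) (hy : |y| ≤ B) (hz : |z| ≤ C) :
    |x * (y * z)| ≤ A * (B * C) := mb hx (mb hy hz)

/-- The remainder, `|a| > 1/2`. -/
lemma restB {h B a d k k' x x' P P' Q Q' μ Dk Dx s Dom wk wo Z : ℝ} (h0 : 0 ≤ h) (h1 : h ≤ 1)
    (hB : 1 ≤ B) (hP : P = k + h * x) (hP' : P' = k' + h * x') (hD : P' - P = Dk + h * Dx)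
    (hdd : d = h * s + (4 - h) * Dom)
    (ba : |a| ≤ B) (bd : |d| ≤ B)
    (bP' : |P'| ≤ B) (bQ : |Q| ≤ B) (bQ' : |Q'| ≤ B) (bx : |x| ≤ B)
    (hμ0 : 0 ≤ μ) (hμ : μ ≤ B) (hwk : 0 ≤ wk) (hwo : 0 ≤ wo) (hZ : 0 ≤ Z)
    (bk : |k| ≤ B * wk) (bk' : |k'| ≤ B * wk) (bDk : |Dk| ≤ B * wk)
    (hDom : Dom ^ 2 ≤ wo) (bs : |s| ≤ B) (bDx : |Dx| ≤ 2 * B)
    (hxx : |x * x'| ≤ 24 * B ^ 2 * Z) (hxQ : |x * Q'| ≤ 8 * B * Z)
    (hxQ' : |x' * Q| ≤ 8 * B * Z) (hQQ : |Q * Q'| ≤ 16 * Z)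
    (hμ2 : μ ^ 2 ≤ 72 * Z) (hμs : μ * |s| ≤ 6 * B ^ 2 * Z) :
    |(a ^ 2 + d ^ 2) * (P * P') + d ^ 2 * (Q * Q') + 2 * a * d * (P * Q' + Q * P')
      + μ * (d * (P' - P) + h * ((a ^ 2 + d ^ 2) * (P * Q' + Q * P')
        + 2 * a * d * (P * P' + Q * Q')))|
      ≤ 17 * B ^ 5 * wk + 40 * B ^ 2 * wo + 1500 * B ^ 5 * (h * Z) := by
  have hB0 : 0 ≤ B := by linarith
  have hh2 : h ^ 2 ≤ h := by nlinarith
  have hh21 : h ^ 2 ≤ 1 := hh2.trans h1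
  have ha2 : a ^ 2 ≤ B ^ 2 := by rw [← sq_abs]; exact pow_le_pow_left₀ (abs_nonneg _) ba 2
  have hd2 : d ^ 2 ≤ B ^ 2 := by rw [← sq_abs]; exact pow_le_pow_left₀ (abs_nonneg _) bd 2
  have had : |a ^ 2 + d ^ 2| ≤ 2 * B ^ 2 := by
    rw [abs_of_nonneg (by positivity)]; linarith
  have h2ad : |2 * a * d| ≤ 2 * B ^ 2 := by
    have := mb ba bd
    rw [mul_assoc, abs_mul, abs_two]
    linarith [(by ring : 2 * B ^ 2 = 2 * (B * B))]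
  have hs2 : s ^ 2 ≤ B ^ 2 := by rw [← sq_abs]; exact pow_le_pow_left₀ (abs_nonneg _) bs 2
  have hDx2 : Dx ^ 2 ≤ (2 * B) ^ 2 := by
    rw [← sq_abs]; exact pow_le_pow_left₀ (abs_nonneg _) bDx 2
  have abh : |h| ≤ 1 := by rw [abs_of_nonneg h0]; exact h1
  have hhZ : 0 ≤ h * Z := mul_nonneg h0 hZ
  have hhZ1 : h ^ 2 * Z ≤ h * Z := mul_le_mul_of_nonneg_right hh2 hZ
  have abμ : |μ| ≤ B := by rw [abs_of_nonneg hμ0]; exact hμ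
  -- sub-blocks
  have bkP : |k * P' + h * (x * k')| ≤ 2 * (B * wk * B) := by
    have e1 := mb bk bP'
    have e2 : |h * (x * k')| ≤ 1 * (B * (B * wk)) := mb abh (mb bx bk')
    have := abs_add_le (k * P') (h * (x * k'))
    linarith
  have bkQ : |k * Q' + k' * Q| ≤ 2 * (B * wk * B) := by
    have e1 := mb bk bQ'
    have e2 := mb bk' bQ
    have := abs_add_le (k * Q') (k' * Q)
    linarith
  have bxQ : |x * Q' + x' * Q| ≤ 16 * B * Z := by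
    have := abs_add_le (x * Q') (x' * Q)
    linarith
  have bxx : |h ^ 2 * (x * x') + Q * Q'| ≤ 24 * B ^ 2 * Z + 16 * Z := by
    refine (abs_add_le _ _).trans ?_
    have e1 : |h ^ 2 * (x * x')| ≤ |x * x'| := by
      rw [abs_mul, abs_of_nonneg (sq_nonneg h)]
      exact mul_le_of_le_one_left (abs_nonneg _) hh21
    linarith
  have T1 := mb had bkP
  have T2 : |(a ^ 2 + d ^ 2) * (h ^ 2 * (x * x'))| ≤ 2 * B ^ 2 * (h ^ 2 * (24 * B ^ 2 * Z)) := by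
    apply mb had
    rw [abs_mul, abs_of_nonneg (sq_nonneg h)]
    exact mul_le_mul_of_nonneg_left hxx (sq_nonneg h)
  have hd2' : d ^ 2 ≤ 2 * h ^ 2 * s ^ 2 + 32 * wo := by
    have e1 : d ^ 2 ≤ 2 * (h * s) ^ 2 + 2 * ((4 - h) * Dom) ^ 2 := by
      rw [hdd]; linarith [sq_nonneg (h * s - (4 - h) * Dom),
        (by ring : (h * s - (4 - h) * Dom) ^ 2 = (h * s) ^ 2 + ((4 - h) * Dom) ^ 2
          - 2 * ((h * s) * ((4 - h) * Dom))),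
        (by ring : (h * s + (4 - h) * Dom) ^ 2 = (h * s) ^ 2 + ((4 - h) * Dom) ^ 2
          + 2 * ((h * s) * ((4 - h) * Dom)))]
    have e2 : ((4 - h) * Dom) ^ 2 ≤ 16 * wo := by
      have e3 : (4 - h) ^ 2 ≤ 16 := by nlinarith
      calc ((4 - h) * Dom) ^ 2 = (4 - h) ^ 2 * Dom ^ 2 := by ring
        _ ≤ 16 * wo := mul_le_mul e3 hDom (sq_nonneg _) (by norm_num)
    linarith [(by ring : 2 * (h * s) ^ 2 = 2 * h ^ 2 * s ^ 2)]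
  have T3 : |d ^ 2 * (Q * Q')| ≤ 2 * h ^ 2 * (B ^ 2 * (16 * Z)) + 32 * (wo * (B * B)) := by
    rw [abs_mul, abs_of_nonneg (sq_nonneg d)]
    have e0 := abs_nonneg (Q * Q')
    have e1 : d ^ 2 * |Q * Q'| ≤ (2 * h ^ 2 * s ^ 2 + 32 * wo) * |Q * Q'| :=
      mul_le_mul_of_nonneg_right hd2' e0
    have e2 : s ^ 2 * |Q * Q'| ≤ B ^ 2 * (16 * Z) := mul_le_mul hs2 hQQ e0 (by positivity)
    have e3 : h ^ 2 * (s ^ 2 * |Q * Q'|) ≤ h ^ 2 * (B ^ 2 * (16 * Z)) :=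
      mul_le_mul_of_nonneg_left e2 (sq_nonneg h)
    have e4 : wo * |Q * Q'| ≤ wo * (B * B) := mul_le_mul_of_nonneg_left (mb bQ bQ') hwo
    linarith
  have T4 := mb h2ad bkQ
  have T5 : |2 * a * d * (h * (x * Q' + x' * Q))| ≤ 2 * B ^ 2 * (h * (16 * B * Z)) := by
    apply mb h2ad
    rw [abs_mul, abs_of_nonneg h0]
    exact mul_le_mul_of_nonneg_left bxQ h0
  have T6 : |μ * (d * Dk)| ≤ B * (B * (B * wk)) := mb abμ (mb bd bDk)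
  have T7 : |μ * (d * (h * Dx))| ≤ h ^ 2 * (2 * B * (6 * B ^ 2 * Z))
      + (wo + 4 * h ^ 2 * (72 * Z * (2 * B) ^ 2)) := by
    have e1 : μ * (d * (h * Dx)) = h ^ 2 * (Dx * (μ * s)) + (4 - h) * (h * (μ * Dx)) * Dom := by
      rw [hdd]; ring
    rw [e1]
    have e2 : |h ^ 2 * (Dx * (μ * s))| ≤ h ^ 2 * (2 * B * (6 * B ^ 2 * Z)) := by
      rw [abs_mul, abs_of_nonneg (sq_nonneg h)]
      apply mul_le_mul_of_nonneg_left _ (sq_nonneg h)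
      apply mb bDx
      rw [abs_mul, abs_of_nonneg hμ0]
      exact hμs
    have e3 : |(4 - h) * (h * (μ * Dx)) * Dom| ≤ wo + 4 * h ^ 2 * (72 * Z * (2 * B) ^ 2) := by
      have f1 : |(4 - h) * (h * (μ * Dx)) * Dom| ≤ ((4 - h) * (h * (μ * Dx))) ^ 2 / 4 + Dom ^ 2 := by
        have q1 := sq_nonneg ((4 - h) * (h * (μ * Dx)) / 2 - Dom)
        have q2 := sq_nonneg ((4 - h) * (h * (μ * Dx)) / 2 + Dom)
        rw [abs_le]
        constructor <;> linarith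
      have f2 : ((4 - h) * (h * (μ * Dx))) ^ 2 = (4 - h) ^ 2 * (h ^ 2 * (μ ^ 2 * Dx ^ 2)) := by ring
      have f3 : μ ^ 2 * Dx ^ 2 ≤ 72 * Z * (2 * B) ^ 2 :=
        mul_le_mul hμ2 hDx2 (sq_nonneg _) (by positivity)
      have f4 : h ^ 2 * (μ ^ 2 * Dx ^ 2) ≤ h ^ 2 * (72 * Z * (2 * B) ^ 2) :=
        mul_le_mul_of_nonneg_left f3 (sq_nonneg h)
      have f5 : (4 - h) ^ 2 ≤ 16 := by nlinarith
      have f6 : (4 - h) ^ 2 * (h ^ 2 * (μ ^ 2 * Dx ^ 2)) ≤ 16 * (h ^ 2 * (72 * Z * (2 * B) ^ 2)) :=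
        mul_le_mul f5 f4 (by positivity) (by norm_num)
      rw [f2] at f1
      linarith
    exact (abs_add_le _ _).trans (add_le_add e2 e3)
  have T8 : |μ * (h * ((a ^ 2 + d ^ 2) * (k * Q' + k' * Q)))|
      ≤ B * (1 * (2 * B ^ 2 * (2 * (B * wk * B)))) := mb abμ (mb abh (mb had bkQ))
  have T9 : |μ * (h ^ 2 * ((a ^ 2 + d ^ 2) * (x * Q' + x' * Q)))|
      ≤ B * (h ^ 2 * (2 * B ^ 2 * (16 * B * Z))) := by
    apply mb abμ
    rw [abs_mul, abs_of_nonneg (sq_nonneg h)]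
    exact mul_le_mul_of_nonneg_left (mb had bxQ) (sq_nonneg h)
  have T10 : |μ * (h * (2 * a * d * (k * P' + h * (x * k'))))|
      ≤ B * (1 * (2 * B ^ 2 * (2 * (B * wk * B)))) := mb abμ (mb abh (mb h2ad bkP))
  have T11 : |μ * (h * (2 * a * d * (h ^ 2 * (x * x') + Q * Q')))|
      ≤ B * (h * (2 * B ^ 2 * (24 * B ^ 2 * Z + 16 * Z))) := by
    apply mb abμ
    rw [abs_mul, abs_of_nonneg h0]
    exact mul_le_mul_of_nonneg_left (mb h2ad bxx) h0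
  have key : (a ^ 2 + d ^ 2) * (P * P') + d ^ 2 * (Q * Q') + 2 * a * d * (P * Q' + Q * P')
      + μ * (d * (P' - P) + h * ((a ^ 2 + d ^ 2) * (P * Q' + Q * P')
        + 2 * a * d * (P * P' + Q * Q')))
      = (a ^ 2 + d ^ 2) * (k * P' + h * (x * k')) + (a ^ 2 + d ^ 2) * (h ^ 2 * (x * x'))
        + d ^ 2 * (Q * Q') + 2 * a * d * (k * Q' + k' * Q)
        + 2 * a * d * (h * (x * Q' + x' * Q)) + μ * (d * Dk) + μ * (d * (h * Dx))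
        + μ * (h * ((a ^ 2 + d ^ 2) * (k * Q' + k' * Q)))
        + μ * (h ^ 2 * ((a ^ 2 + d ^ 2) * (x * Q' + x' * Q)))
        + μ * (h * (2 * a * d * (k * P' + h * (x * k'))))
        + μ * (h * (2 * a * d * (h ^ 2 * (x * x') + Q * Q'))) := by
    rw [hD, hP, hP']
    ring
  rw [key]
  obtain ⟨l1, r1⟩ := abs_le.1 T1
  obtain ⟨l2, r2⟩ := abs_le.1 T2
  obtain ⟨l3, r3⟩ := abs_le.1 T3
  obtain ⟨l4, r4⟩ := abs_le.1 T4
  obtain ⟨l5, r5⟩ := abs_le.1 T5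
  obtain ⟨l6, r6⟩ := abs_le.1 T6
  obtain ⟨l7, r7⟩ := abs_le.1 T7
  obtain ⟨l8, r8⟩ := abs_le.1 T8
  obtain ⟨l9, r9⟩ := abs_le.1 T9
  obtain ⟨l10, r10⟩ := abs_le.1 T10
  obtain ⟨l11, r11⟩ := abs_le.1 T11
  have p25 : B ^ 2 ≤ B ^ 5 := pow_le_pow_right₀ hB (by norm_num)
  have p35 : B ^ 3 ≤ B ^ 5 := pow_le_pow_right₀ hB (by norm_num)
  have p45 : B ^ 4 ≤ B ^ 5 := pow_le_pow_right₀ hB (by norm_num)
  have p2 : 1 ≤ B ^ 2 := one_le_pow₀ hB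
  have hsum : 2 * B ^ 2 * (2 * (B * wk * B)) + 2 * B ^ 2 * (h ^ 2 * (24 * B ^ 2 * Z))
        + (2 * h ^ 2 * (B ^ 2 * (16 * Z)) + 32 * (wo * (B * B)))
        + 2 * B ^ 2 * (2 * (B * wk * B)) + 2 * B ^ 2 * (h * (16 * B * Z))
        + B * (B * (B * wk)) + (h ^ 2 * (2 * B * (6 * B ^ 2 * Z))
          + (wo + 4 * h ^ 2 * (72 * Z * (2 * B) ^ 2)))
        + B * (1 * (2 * B ^ 2 * (2 * (B * wk * B)))) + B * (h ^ 2 * (2 * B ^ 2 * (16 * B * Z)))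
        + B * (1 * (2 * B ^ 2 * (2 * (B * wk * B))))
        + B * (h * (2 * B ^ 2 * (24 * B ^ 2 * Z + 16 * Z)))
      ≤ 17 * B ^ 5 * wk + 40 * B ^ 2 * wo + 1500 * B ^ 5 * (h * Z) := by
    have e1 : B ^ 4 * wk ≤ B ^ 5 * wk := mul_le_mul_of_nonneg_right p45 hwk
    have e2 : B ^ 3 * wk ≤ B ^ 5 * wk := mul_le_mul_of_nonneg_right p35 hwk
    have e3 : 1 * wo ≤ B ^ 2 * wo := mul_le_mul_of_nonneg_right p2 hwo
    have e4 : B ^ 4 * (h ^ 2 * Z) ≤ B ^ 5 * (h * Z) :=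
      mul_le_mul p45 hhZ1 (by positivity) (by positivity)
    have e5 : B ^ 2 * (h ^ 2 * Z) ≤ B ^ 5 * (h * Z) :=
      mul_le_mul p25 hhZ1 (by positivity) (by positivity)
    have e6 : B ^ 3 * (h ^ 2 * Z) ≤ B ^ 5 * (h * Z) :=
      mul_le_mul p35 hhZ1 (by positivity) (by positivity)
    have e7 : B ^ 3 * (h * Z) ≤ B ^ 5 * (h * Z) := mul_le_mul_of_nonneg_right p35 hhZ
    have e8 : 0 ≤ B ^ 5 * (h * Z) := by positivity
    have e9 : 0 ≤ B ^ 2 * wo := by positivity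
    linarith
  rw [abs_le]
  constructor
  · linarith
  · linarith

end EC
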