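import Mathlib
import Pool.Agent.Helper35.EC.Walls

/-!
# MP_0db605_an : auxiliary estimates for the slice kernel
-/

namespace EC

lemma kf_F1 {R s t : ℝ} (hR : 1 ≤ R) (hs : |s| ≤ R) (ht : |t| ≤ R) (h : s ≤ t) :
    (t - s) * |kf s| ≤ 2 * R * (kf t - kf s) ∧ (t - s) * |kf t| ≤ 2 * R * (kf t - kf s) := by
  obtain ⟨hs1, hs2⟩ := abs_le.1 hs
  obtain ⟨ht1, ht2⟩ := abs_le.1 ht
  have hts : 0 ≤ t - s := by linarith
  have hts2 : t - s ≤ 2 * R := by linarith
  rcases kf_cases s with ⟨h1, e1⟩ | ⟨h1, h1', e1⟩ | ⟨h1, h1', e1⟩ | ⟨h1, e1⟩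
  · -- s ≤ -1/2
    have a1 : |kf s| = -s - 1 / 4 := by rw [e1, abs_of_nonpos (by linarith)]; ring
    rcases kf_cases t with ⟨h2, e2⟩ | ⟨h2, h2', e2⟩ | ⟨h2, h2', e2⟩ | ⟨h2, e2⟩
    · have a2 : |kf t| = -t - 1 / 4 := by rw [e2, abs_of_nonpos (by linarith)]; ring
      rw [a1, a2, e1, e2]
      constructor <;> nlinarith
    · have a2 : |kf t| = t ^ 2 := by rw [e2, abs_of_nonpos (by nlinarith)]; ring
      rw [a1, a2, e1, e2]
      have hd : (t - s) / 2 ≤ -t ^ 2 - (s + 1 / 4) := by nlinarith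
      constructor
      · have := mul_le_mul_of_nonneg_left hd (by linarith : 0 ≤ 2 * R)
        nlinarith
      · have := mul_le_mul_of_nonneg_left hd (by linarith : 0 ≤ 2 * R)
        have h3 : t ^ 2 ≤ 1 / 4 := by nlinarith
        nlinarith
    · have a2 : |kf t| = 0 := by rw [e2, abs_zero]
      rw [a1, a2, e1, e2]
      constructor
      · nlinarith
      · nlinarith
    · have a2 : |kf t| = t - 1 := by rw [e2, abs_of_nonneg (by linarith)]
      rw [a1, a2, e1, e2]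
      constructor
      · nlinarith
      · nlinarith
  · -- -1/2 ≤ s ≤ 0
    have a1 : |kf s| = s ^ 2 := by rw [e1, abs_of_nonpos (by nlinarith)]; ring
    have hs3 : s ^ 2 ≤ -s := by nlinarith
    rcases kf_cases t with ⟨h2, e2⟩ | ⟨h2, h2', e2⟩ | ⟨h2, h2', e2⟩ | ⟨h2, e2⟩
    · have : t = s := by linarith
      subst this
      simp
    · have a2 : |kf t| = t ^ 2 := by rw [e2, abs_of_nonpos (by nlinarith)]; ring
      rw [a1, a2, e1, e2]
      have ht3 : t ^ 2 ≤ -t := by nlinarith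
      have e3 : -t ^ 2 - -s ^ 2 = (t - s) * (-s - t) := by ring
      rw [e3]
      constructor
      · have h4 : s ^ 2 ≤ 2 * R * (-s - t) := by nlinarith
        nlinarith [mul_le_mul_of_nonneg_left h4 hts]
      · have h4 : t ^ 2 ≤ 2 * R * (-s - t) := by nlinarith
        nlinarith [mul_le_mul_of_nonneg_left h4 hts]
    · have a2 : |kf t| = 0 := by rw [e2, abs_zero]
      rw [a1, a2, e1, e2]
      constructor
      · nlinarith [sq_nonneg s]
      · nlinarith [sq_nonneg s]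
    · have a2 : |kf t| = t - 1 := by rw [e2, abs_of_nonneg (by linarith)]
      rw [a1, a2, e1, e2]
      constructor
      · nlinarith [sq_nonneg s, mul_le_mul_of_nonneg_right hts2 (sq_nonneg s)]
      · nlinarith [sq_nonneg s, mul_le_mul_of_nonneg_right hts2 (by linarith : 0 ≤ t - 1)]
  · -- 0 ≤ s ≤ 1
    have a1 : |kf s| = 0 := by rw [e1, abs_zero]
    rcases kf_cases t with ⟨h2, e2⟩ | ⟨h2, h2', e2⟩ | ⟨h2, h2', e2⟩ | ⟨h2, e2⟩
    · exfalso; linarith
    · have : t = s := by linarith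
      subst this
      simp
    · have a2 : |kf t| = 0 := by rw [e2, abs_zero]
      rw [a1, a2, e1, e2]; simp
    · have a2 : |kf t| = t - 1 := by rw [e2, abs_of_nonneg (by linarith)]
      rw [a1, a2, e1, e2]
      constructor
      · nlinarith
      · nlinarith [mul_le_mul_of_nonneg_right hts2 (by linarith : 0 ≤ t - 1)]
  · -- 1 ≤ s
    have a1 : |kf s| = s - 1 := by rw [e1, abs_of_nonneg (by linarith)]
    have h2 : 1 ≤ t := by linarith
    have e2 := kf_of_one_le h2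
    have a2 : |kf t| = t - 1 := by rw [e2, abs_of_nonneg (by linarith)]
    rw [a1, a2, e1, e2]
    constructor <;> nlinarith

lemma kf_F1' {R u u' : ℝ} (hR : 1 ≤ R) (hu : |u| ≤ R) (hu' : |u'| ≤ R) :
    |(u' - u) * kf u| ≤ 2 * R * |kf u' - kf u| ∧ |(u' - u) * kf u'| ≤ 2 * R * |kf u' - kf u| := by
  rcases le_total u u' with h | h
  · obtain ⟨h1, h2⟩ := kf_F1 hR hu hu' h
    rw [abs_mul, abs_mul, abs_of_nonneg (by linarith : 0 ≤ u' - u),
      abs_of_nonneg (by linarith [kf_mono h] : 0 ≤ kf u' - kf u)]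
    exact ⟨h1, h2⟩
  · obtain ⟨h1, h2⟩ := kf_F1 hR hu' hu h
    rw [abs_mul, abs_mul, abs_of_nonpos (by linarith : u' - u ≤ 0),
      abs_of_nonpos (by linarith [kf_mono h] : kf u' - kf u ≤ 0)]
    constructor
    · calc -(u' - u) * |kf u| = (u - u') * |kf u| := by ring
        _ ≤ 2 * R * (kf u - kf u') := h2
        _ = _ := by ring
    · calc -(u' - u) * |kf u'| = (u - u') * |kf u'| := by ring
        _ ≤ 2 * R * (kf u - kf u') := h1
        _ = _ := by ring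

lemma kf_abs_le (u : ℝ) : |kf u| ≤ |u| := by
  rcases kf_cases u with ⟨h1, e1⟩ | ⟨h1, h1', e1⟩ | ⟨h1, h1', e1⟩ | ⟨h1, e1⟩
  · rw [e1, abs_of_nonpos (by linarith), abs_of_nonpos (by linarith : u ≤ 0)]; linarith
  · rw [e1, abs_of_nonpos (by nlinarith), abs_of_nonpos (by linarith : u ≤ 0)]; nlinarith
  · rw [e1, abs_zero]; exact abs_nonneg _
  · rw [e1, abs_of_nonneg (by linarith), abs_of_nonneg (by linarith : 0 ≤ u)]; linarith

/-- size of `x = 4u²(u-3p)` -/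
lemma x_le {R u p : ℝ} (hR : 1 ≤ R) (hu : |u| ≤ R) (hp : |p| ≤ R) :
    |4 * u ^ 2 * (u - 3 * p)| ≤ 16 * R ^ 3 ∧
    |4 * u ^ 2 * (u - 3 * p)| ≤ 32 * R ^ 2 * ((u - p) ^ 2 + |p|) := by
  have h1 : |u - 3 * p| ≤ |u - p| + 2 * |p| := by
    calc |u - 3 * p| = |(u - p) + (-2) * p| := by ring_nf
      _ ≤ |u - p| + |(-2) * p| := abs_add_le _ _
      _ = |u - p| + 2 * |p| := by rw [abs_mul]; norm_num
  have h2 : |u - 3 * p| ≤ 4 * R := by
    obtain ⟨a1, a2⟩ := abs_le.1 hu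
    obtain ⟨b1, b2⟩ := abs_le.1 hp
    rw [abs_le]; constructor <;> linarith
  have h3 : u ^ 2 ≤ R ^ 2 := by rw [← sq_abs]; exact pow_le_pow_left₀ (abs_nonneg _) hu 2
  have e0 : |4 * u ^ 2 * (u - 3 * p)| = 4 * u ^ 2 * |u - 3 * p| := by
    rw [abs_mul, abs_of_nonneg (by positivity)]
  rw [e0]
  constructor
  · calc 4 * u ^ 2 * |u - 3 * p| ≤ 4 * R ^ 2 * (4 * R) := by
          apply mul_le_mul (by linarith) h2 (abs_nonneg _) (by positivity)
      _ = 16 * R ^ 3 := by ring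
  · have h4 : u ^ 2 ≤ 2 * (u - p) ^ 2 + 2 * p ^ 2 := by nlinarith [sq_nonneg (u - 2 * p)]
    have hqR : |u - p| + 2 * |p| ≤ 4 * R := by
      have : |u - p| ≤ |u| + |p| := by
        calc |u - p| = |u + -p| := by ring_nf
          _ ≤ |u| + |-p| := abs_add_le _ _
          _ = |u| + |p| := by rw [abs_neg]
      linarith
    have h5 : p ^ 2 ≤ R * |p| := by
      rw [← sq_abs, sq]; exact mul_le_mul_of_nonneg_right hp (abs_nonneg _)
    have hq0 := sq_nonneg (u - p)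
    have hp0 := abs_nonneg p
    have h6 : 4 * u ^ 2 * |u - 3 * p| ≤ 4 * (2 * (u - p) ^ 2 + 2 * p ^ 2) * (4 * R) :=
      mul_le_mul (by linarith) (h1.trans hqR) (abs_nonneg _) (by positivity)
    have h7 : (u - p) ^ 2 * R ≤ (u - p) ^ 2 * R ^ 2 :=
      mul_le_mul_of_nonneg_left (by nlinarith) hq0
    have h8 : p ^ 2 * R ≤ R * |p| * R := mul_le_mul_of_nonneg_right h5 (by linarith)
    nlinarith

/-- products -/
lemma xx_le {R u p u' p' : ℝ} (hR : 1 ≤ R) (hu : |u| ≤ R) (hp : |p| ≤ R) (hu' : |u'| ≤ R)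
    (hp' : |p'| ≤ R) :
    |4 * u ^ 2 * (u - 3 * p) * (4 * u' ^ 2 * (u' - 3 * p'))|
      ≤ 24 * (16 * R ^ 3) ^ 2 * ((u - p) ^ 2 + (u' - p') ^ 2 + |p * p'|) := by
  have h1 := (x_le hR hu hp).2
  have h2 := (x_le hR hu' hp').2
  have h3 := mb h1 h2
  refine h3.trans ?_
  have hq : (u - p) ^ 2 ≤ 4 * R ^ 2 := by
    obtain ⟨a1, a2⟩ := abs_le.1 hu
    obtain ⟨b1, b2⟩ := abs_le.1 hp
    rw [show 4 * R ^ 2 = (2 * R) ^ 2 by ring]
    exact sq_le_sq' (by linarith) (by linarith)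
  have hq0 := sq_nonneg (u - p)
  have hq0' := sq_nonneg (u' - p')
  have hpa := abs_nonneg p
  have hpa' := abs_nonneg p'
  rw [abs_mul]
  have e1 : (u - p) ^ 2 * (u' - p') ^ 2 ≤ 4 * R ^ 2 * (u' - p') ^ 2 :=
    mul_le_mul_of_nonneg_right hq hq0'
  have e2 : (u - p) ^ 2 * |p'| ≤ (u - p) ^ 2 * R := mul_le_mul_of_nonneg_left hp' hq0
  have e3 : |p| * (u' - p') ^ 2 ≤ R * (u' - p') ^ 2 := mul_le_mul_of_nonneg_right hp hq0'
  have r12 : R ≤ R ^ 2 := by nlinarith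
  have r02 : 1 ≤ R ^ 2 := one_le_pow₀ hR
  have e4 : R * (u' - p') ^ 2 ≤ R ^ 2 * (u' - p') ^ 2 := mul_le_mul_of_nonneg_right r12 hq0'
  have e5 : (u - p) ^ 2 * R ≤ (u - p) ^ 2 * R ^ 2 := mul_le_mul_of_nonneg_left r12 hq0
  have e6 : 1 * (|p| * |p'|) ≤ R ^ 2 * (|p| * |p'|) :=
    mul_le_mul_of_nonneg_right r02 (by positivity)
  have e7 : ((u - p) ^ 2 + |p|) * ((u' - p') ^ 2 + |p'|)
      ≤ 6 * R ^ 2 * ((u - p) ^ 2 + (u' - p') ^ 2 + |p| * |p'|) := by
    have e8 : ((u - p) ^ 2 + |p|) * ((u' - p') ^ 2 + |p'|)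
      = (u - p) ^ 2 * (u' - p') ^ 2 + (u - p) ^ 2 * |p'| + |p| * (u' - p') ^ 2
        + |p| * |p'| := by ring
    rw [e8]
    have : 0 ≤ R ^ 2 * (u - p) ^ 2 := by positivity
    have : 0 ≤ R ^ 2 * (u' - p') ^ 2 := by positivity
    have : 0 ≤ R ^ 2 * (|p| * |p'|) := by positivity
    linarith
  calc 32 * R ^ 2 * ((u - p) ^ 2 + |p|) * (32 * R ^ 2 * ((u' - p') ^ 2 + |p'|))
      = 1024 * R ^ 4 * (((u - p) ^ 2 + |p|) * ((u' - p') ^ 2 + |p'|)) := by ring
    _ ≤ 1024 * R ^ 4 * (6 * R ^ 2 * ((u - p) ^ 2 + (u' - p') ^ 2 + |p| * |p'|)) :=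
        mul_le_mul_of_nonneg_left e7 (by positivity)
    _ = 24 * (16 * R ^ 3) ^ 2 * ((u - p) ^ 2 + (u' - p') ^ 2 + |p| * |p'|) := by ring

lemma xQ_le {R u p u' p' : ℝ} (hR : 1 ≤ R) (hu : |u| ≤ R) (hp : |p| ≤ R) (hp' : |p'| ≤ R) :
    |4 * u ^ 2 * (u - 3 * p) * (4 * p')|
      ≤ 8 * (16 * R ^ 3) * ((u - p) ^ 2 + (u' - p') ^ 2 + |p * p'|) := by
  have h1 := (x_le hR hu hp).2
  have h2 : |4 * p'| ≤ 4 * |p'| := by rw [abs_mul]; norm_num
  have h3 := mb h1 h2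
  refine h3.trans ?_
  have hq0 := sq_nonneg (u - p)
  have hq0' := sq_nonneg (u' - p')
  have hpa := abs_nonneg p
  have hpa' := abs_nonneg p'
  rw [abs_mul]
  have e2 : (u - p) ^ 2 * |p'| ≤ (u - p) ^ 2 * R := mul_le_mul_of_nonneg_left hp' hq0
  have e6 : 1 * (|p| * |p'|) ≤ R * (|p| * |p'|) :=
    mul_le_mul_of_nonneg_right hR (by positivity)
  have e7 : ((u - p) ^ 2 + |p|) * |p'| ≤ R * ((u - p) ^ 2 + (u' - p') ^ 2 + |p| * |p'|) := by
    have : 0 ≤ R * (u' - p') ^ 2 := by positivity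
    nlinarith
  calc 32 * R ^ 2 * ((u - p) ^ 2 + |p|) * (4 * |p'|)
      = 128 * R ^ 2 * (((u - p) ^ 2 + |p|) * |p'|) := by ring
    _ ≤ 128 * R ^ 2 * (R * ((u - p) ^ 2 + (u' - p') ^ 2 + |p| * |p'|)) :=
        mul_le_mul_of_nonneg_left e7 (by positivity)
    _ = 8 * (16 * R ^ 3) * ((u - p) ^ 2 + (u' - p') ^ 2 + |p| * |p'|) := by ring

/-- `u² + u'² ≤ 4Π + 2e²` -/
lemma uu_le (u p u' p' : ℝ) : u ^ 2 + u' ^ 2
    ≤ 4 * ((u - p) ^ 2 + (u' - p') ^ 2 + |p * p'|) + 2 * (p' - p) ^ 2 := by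
  have h1 := le_abs_self (p * p')
  nlinarith [sq_nonneg (u - 2 * p), sq_nonneg (u' - 2 * p')]

/-- `μ² ≤ 72 (Π + μ|e|)` -/
lemma mu_sq_le (u p u' p' : ℝ) : mu u p ^ 2
    ≤ 72 * ((u - p) ^ 2 + (u' - p') ^ 2 + |p * p'| + mu u p * |p' - p|) := by
  have hmu0 := mu_nonneg u p
  have hPi1 := sq_nonneg (u - p)
  have hPi2 := sq_nonneg (u' - p')
  have hPi3 := abs_nonneg (p * p')
  have hme : 0 ≤ mu u p * |p' - p| := mul_nonneg hmu0 (abs_nonneg _)
  -- the alternative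
  have halt : p ^ 2 ≤ 2 * |p * p'| ∨ |p| ≤ 2 * |p' - p| := by
    rcases le_or_gt (|p|) (2 * |p' - p|) with h | h
    · exact Or.inr h
    · left
      have h1 : p * p' = p ^ 2 + p * (p' - p) := by ring
      have h2 : |p * (p' - p)| ≤ p ^ 2 / 2 := by
        rw [abs_mul]
        have h3 := sq_abs p
        nlinarith [abs_nonneg p, abs_nonneg (p' - p)]
      have h3 := le_abs_self (p * p')
      have h4 := neg_abs_le (p * (p' - p))
      linarith
  have m2 : min (pos (-u)) 1 ≤ pos (-u) := min_le_left _ _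
  have m2' : 0 ≤ min (pos (-u)) 1 := le_min (pos_nonneg _) (by norm_num)
  have m1 : min (pos p) 2 ≤ pos p := min_le_left _ _
  have m1' : 0 ≤ min (pos p) 2 := le_min (pos_nonneg _) (by norm_num)
  rcases le_total 0 p with hp | hp
  · rw [pos_of_nonneg hp] at m1
    rcases le_total u 0 with hu | hu
    · rw [pos_of_nonneg (by linarith : 0 ≤ -u)] at m2
      have h1 : mu u p ≤ 3 * (p - u) := by
        unfold mu
        rw [pos_of_nonneg (by linarith : 0 ≤ -u), pos_of_nonneg hp]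
        rw [pos_of_nonneg (by linarith : 0 ≤ -u)] at m2'
        rw [pos_of_nonneg hp] at m1'
        have := min_le_left p (2:ℝ)
        have := min_le_left (-u) (1:ℝ)
        linarith
      have h2 : mu u p ^ 2 ≤ (3 * (p - u)) ^ 2 := pow_le_pow_left₀ hmu0 h1 2
      nlinarith
    · have hmu : mu u p ≤ p / 4 := by
        unfold mu
        rw [pos_of_nonpos (by linarith : -u ≤ 0), min_eq_left (zero_le_one), pos_of_nonneg hp]
        have := min_le_left p (2:ℝ)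
        linarith
      rcases halt with h | h
      · have h2 : mu u p ^ 2 ≤ (p / 4) ^ 2 := pow_le_pow_left₀ hmu0 hmu 2
        nlinarith
      · rw [abs_of_nonneg hp] at h
        have h2 : mu u p ≤ |p' - p| := by linarith
        nlinarith
  · have hmu : mu u p ≤ 3 * pos (-u) := by
      unfold mu
      rw [pos_of_nonpos hp, min_eq_left (by norm_num : (0:ℝ) ≤ 2)]
      linarith
    rcases le_total u 0 with hu | hu
    · rw [pos_of_nonneg (by linarith : 0 ≤ -u)] at hmu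
      -- -u = (p - u) - p ≤ |q| + |p|
      have h1 : mu u p ≤ 3 * |u - p| + 3 * |p| := by
        have e1 : -u = -(u - p) - p := by ring
        have e2 := neg_abs_le (u - p)
        have e3 := neg_abs_le p
        linarith
      have h2 : mu u p ^ 2 ≤ mu u p * (3 * |u - p|) + mu u p * (3 * |p|) := by nlinarith
      have h3 : mu u p * (3 * |u - p|) ≤ mu u p ^ 2 / 2 + 9 / 2 * (u - p) ^ 2 := by
        have := sq_abs (u - p)
        nlinarith [sq_nonneg (mu u p - 3 * |u - p|)]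
      rcases halt with h | h
      · have h4 : mu u p * (3 * |p|) ≤ mu u p ^ 2 / 4 + 9 * p ^ 2 := by
          have := sq_abs p
          nlinarith [sq_nonneg (mu u p - 6 * |p|)]
        linarith
      · have h4 : mu u p * (3 * |p|) ≤ mu u p * (3 * (2 * |p' - p|)) :=
          mul_le_mul_of_nonneg_left (by linarith) hmu0
        linarith
    · rw [pos_of_nonpos (by linarith : -u ≤ 0)] at hmu
      have : mu u p = 0 := le_antisymm (by linarith) hmu0
      rw [this]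
      rw [this] at hme
      nlinarith

end EC
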