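import Mathlib
import Pool.Agent.Helper35.EC.SliceFacts
import Pool.Agent.Helper35.EC.RestA
import Pool.Agent.Helper35.EC.RestB
import Pool.Agent.Helper35.EC.CoreMain

/-!
# MP_0db605_an : lower bound for the slice kernel
-/

namespace EC

/-- The main part of the slice kernel. -/
lemma Fs_identity (h u p u' p' : ℝ) :
    Fs h u p u' p' = ((u' - u) * (kf u' - kf u) + 4 * (4 - h) * ((p' - p) * (om p' - om p))
      + 4 * h * ((u' - u) ^ 2 * ((u - p) ^ 2 + (u - p) * (u' - p') + (u' - p') ^ 2)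
        + (1 - (u' - u) ^ 2) * (p' - p) ^ 2 + (u' - u) ^ 2 * (p * p')
        + mu u p * ((u' - u) * (p' - p))))
      + h * (((u' - u) ^ 2 + (yf h u' p' - yf h u p) ^ 2) * (Pf h u p * Pf h u' p')
        + (yf h u' p' - yf h u p) ^ 2 * ((4 * p) * (4 * p'))
        + 2 * (u' - u) * (yf h u' p' - yf h u p) * (Pf h u p * (4 * p') + (4 * p) * Pf h u' p')
        + mu u p * ((yf h u' p' - yf h u p) * (Pf h u' p' - Pf h u p)
          + h * (((u' - u) ^ 2 + (yf h u' p' - yf h u p) ^ 2)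
              * (Pf h u p * (4 * p') + (4 * p) * Pf h u' p')
            + 2 * (u' - u) * (yf h u' p' - yf h u p)
              * (Pf h u p * Pf h u' p' + (4 * p) * (4 * p'))))) := by
  have h1 : (u' - u) * (Pf h u' p' - Pf h u p) + (yf h u' p' - yf h u p) * (4 * p' - 4 * p)
      + h * (u' - u) ^ 2 * ((4 * p) * (4 * p')) + h * mu u p * ((u' - u) * (4 * p' - 4 * p))
      = (u' - u) * (kf u' - kf u) + 4 * (4 - h) * ((p' - p) * (om p' - om p))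
      + 4 * h * ((u' - u) ^ 2 * ((u - p) ^ 2 + (u - p) * (u' - p') + (u' - p') ^ 2)
        + (1 - (u' - u) ^ 2) * (p' - p) ^ 2 + (u' - u) ^ 2 * (p * p')
        + mu u p * ((u' - u) * (p' - p))) := by
    unfold Pf yf
    ring
  rw [← h1]
  unfold Fs Ks
  ring

lemma cube_sq_le {R u p u' p' : ℝ} (hR : 1 ≤ R) (hu : |u| ≤ R) (hu' : |u'| ≤ R) :
    (u' - u) ^ 2 * (u ^ 2 + u * u' + u' ^ 2) ^ 2
      ≤ 18 * R ^ 2 * ((u' - u) ^ 2 * ((u - p) ^ 2 + (u' - p') ^ 2 + |p * p'|))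
        + 36 * R ^ 4 * (p' - p) ^ 2 := by
  have h1 := uu_le u p u' p'
  have hu2 : u ^ 2 ≤ R ^ 2 := by rw [← sq_abs]; exact pow_le_pow_left₀ (abs_nonneg _) hu 2
  have hu2' : u' ^ 2 ≤ R ^ 2 := by rw [← sq_abs]; exact pow_le_pow_left₀ (abs_nonneg _) hu' 2
  have h0 : 0 ≤ u ^ 2 + u * u' + u' ^ 2 := by
    linarith only [sq_nonneg (u + u'), sq_nonneg u, sq_nonneg u']
  have h2 : u ^ 2 + u * u' + u' ^ 2 ≤ 3 / 2 * (u ^ 2 + u' ^ 2) := by
    linarith only [sq_nonneg (u - u')]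
  have h3 : (u ^ 2 + u * u' + u' ^ 2) ^ 2 ≤ (3 / 2 * (u ^ 2 + u' ^ 2)) ^ 2 :=
    pow_le_pow_left₀ h0 h2 2
  have h4 : (u ^ 2 + u' ^ 2) * (u ^ 2 + u' ^ 2) ≤ 2 * R ^ 2 * (u ^ 2 + u' ^ 2) :=
    mul_le_mul_of_nonneg_right (by linarith only [hu2, hu2']) (by positivity)
  generalize hPi : (u - p) ^ 2 + (u' - p') ^ 2 + |p * p'| = Pi at *
  have h5 : (u ^ 2 + u * u' + u' ^ 2) ^ 2 ≤ 9 / 2 * R ^ 2 * (4 * Pi + 2 * (p' - p) ^ 2) := by
    have h6 : 9 / 2 * R ^ 2 * (u ^ 2 + u' ^ 2) ≤ 9 / 2 * R ^ 2 * (4 * Pi + 2 * (p' - p) ^ 2) :=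
      mul_le_mul_of_nonneg_left h1 (by positivity)
    linarith only [h3, h4, h6]
  have h7 := mul_le_mul_of_nonneg_left h5 (sq_nonneg (u' - u))
  have h8 : (u' - u) ^ 2 ≤ 4 * R ^ 2 := by
    obtain ⟨a1, a2⟩ := abs_le.1 hu
    obtain ⟨b1, b2⟩ := abs_le.1 hu'
    rw [show 4 * R ^ 2 = (2 * R) ^ 2 by ring]
    exact sq_le_sq' (by linarith only [a2, b1]) (by linarith only [a1, b2])
  have h9 : (u' - u) ^ 2 * (9 * R ^ 2 * (p' - p) ^ 2) ≤ 4 * R ^ 2 * (9 * R ^ 2 * (p' - p) ^ 2) :=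
    mul_le_mul_of_nonneg_right h8 (by positivity)
  linarith only [h7, h9]

lemma s_sq_le {R u p u' p' : ℝ} (hR : 1 ≤ R) (hu : |u| ≤ R) (hu' : |u'| ≤ R) :
    (p' - p + (u' ^ 3 - u ^ 3)) ^ 2
      ≤ (16 * R ^ 3) ^ 2 * ((u' - u) ^ 2 * ((u - p) ^ 2 + (u' - p') ^ 2 + |p * p'|)
        + (p' - p) ^ 2) := by
  have h1 := cube_sq_le (p := p) (p' := p') hR hu hu'
  have h2 : (p' - p + (u' ^ 3 - u ^ 3)) ^ 2
      ≤ 2 * (p' - p) ^ 2 + 2 * ((u' - u) ^ 2 * (u ^ 2 + u * u' + u' ^ 2) ^ 2) := by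
    have e1 : u' ^ 3 - u ^ 3 = (u' - u) * (u ^ 2 + u * u' + u' ^ 2) := by ring
    rw [e1]
    linarith [sq_nonneg (p' - p - (u' - u) * (u ^ 2 + u * u' + u' ^ 2)),
      (by ring : (p' - p - (u' - u) * (u ^ 2 + u * u' + u' ^ 2)) ^ 2
        + (p' - p + (u' - u) * (u ^ 2 + u * u' + u' ^ 2)) ^ 2
        = 2 * (p' - p) ^ 2 + 2 * ((u' - u) ^ 2 * (u ^ 2 + u * u' + u' ^ 2) ^ 2))]
  have hA : 0 ≤ (u' - u) ^ 2 * ((u - p) ^ 2 + (u' - p') ^ 2 + |p * p'|) := by positivity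
  have hE := sq_nonneg (p' - p)
  generalize (u' - u) ^ 2 * ((u - p) ^ 2 + (u' - p') ^ 2 + |p * p'|) = X at *
  have r26 : R ^ 2 ≤ R ^ 6 := pow_le_pow_right₀ hR (by norm_num)
  have r46 : R ^ 4 ≤ R ^ 6 := pow_le_pow_right₀ hR (by norm_num)
  have r6 : 1 ≤ R ^ 6 := one_le_pow₀ hR
  have e1 : R ^ 2 * X ≤ R ^ 6 * X := mul_le_mul_of_nonneg_right r26 hA
  have e2 : R ^ 4 * (p' - p) ^ 2 ≤ R ^ 6 * (p' - p) ^ 2 := mul_le_mul_of_nonneg_right r46 hE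
  have e3 : 1 * (p' - p) ^ 2 ≤ R ^ 6 * (p' - p) ^ 2 := mul_le_mul_of_nonneg_right r6 hE
  have e4 : 0 ≤ R ^ 6 * X := by positivity
  have e5 : (16 * R ^ 3) ^ 2 * (X + (p' - p) ^ 2)
      = 256 * (R ^ 6 * X) + 256 * (R ^ 6 * (p' - p) ^ 2) := by ring
  rw [e5]
  have e6 : 0 ≤ R ^ 6 * (p' - p) ^ 2 := by positivity
  linarith

lemma Dx_sq_le {R u p u' p' : ℝ} (hR : 1 ≤ R) (hu : |u| ≤ R) (hp : |p| ≤ R) (hu' : |u'| ≤ R) :
    (4 * u' ^ 2 * (u' - 3 * p') - 4 * u ^ 2 * (u - 3 * p)) ^ 2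
      ≤ 36 * (16 * R ^ 3) ^ 2 * ((u' - u) ^ 2 * ((u - p) ^ 2 + (u' - p') ^ 2 + |p * p'|)
        + (p' - p) ^ 2) := by
  have h1 := cube_sq_le (p := p) (p' := p') hR hu hu'
  have hu2' : u' ^ 2 ≤ R ^ 2 := by rw [← sq_abs]; exact pow_le_pow_left₀ (abs_nonneg _) hu' 2
  have hp2 : p ^ 2 ≤ R ^ 2 := by rw [← sq_abs]; exact pow_le_pow_left₀ (abs_nonneg _) hp 2
  have e0 : 4 * u' ^ 2 * (u' - 3 * p') - 4 * u ^ 2 * (u - 3 * p)
      = 4 * ((u' - u) * (u ^ 2 + u * u' + u' ^ 2) + (-(3 * (u' ^ 2 * (p' - p))))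
        + (-(3 * ((u' - u) * ((u + u') * p))))) := by ring
  have sq3 : ∀ X Y Z : ℝ, (4 * (X + Y + Z)) ^ 2 ≤ 48 * (X ^ 2 + Y ^ 2 + Z ^ 2) := by
    intro X Y Z
    linarith only [sq_nonneg (X - Y), sq_nonneg (X - Z), sq_nonneg (Y - Z)]
  rw [e0]
  refine (sq3 _ _ _).trans ?_
  have f1 : ((u' - u) * (u ^ 2 + u * u' + u' ^ 2)) ^ 2
      = (u' - u) ^ 2 * (u ^ 2 + u * u' + u' ^ 2) ^ 2 := by ring
  have f2 : (-(3 * (u' ^ 2 * (p' - p)))) ^ 2 ≤ 9 * R ^ 4 * (p' - p) ^ 2 := by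
    have : (u' ^ 2) ^ 2 ≤ (R ^ 2) ^ 2 := pow_le_pow_left₀ (sq_nonneg _) hu2' 2
    calc (-(3 * (u' ^ 2 * (p' - p)))) ^ 2 = 9 * (u' ^ 2) ^ 2 * (p' - p) ^ 2 := by ring
      _ ≤ 9 * (R ^ 2) ^ 2 * (p' - p) ^ 2 :=
          mul_le_mul_of_nonneg_right (by linarith) (sq_nonneg _)
      _ = _ := by ring
  have f3 : (-(3 * ((u' - u) * ((u + u') * p)))) ^ 2
      ≤ 72 * R ^ 2 * ((u' - u) ^ 2 * ((u - p) ^ 2 + (u' - p') ^ 2 + |p * p'|))
        + 144 * R ^ 4 * (p' - p) ^ 2 := by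
    have g1 := uu_le u p u' p'
    have g2 : (u + u') ^ 2 ≤ 2 * (u ^ 2 + u' ^ 2) := by linarith only [sq_nonneg (u - u')]
    have g3 : (u + u') ^ 2 * p ^ 2 ≤ 2 * (4 * ((u - p) ^ 2 + (u' - p') ^ 2 + |p * p'|)
        + 2 * (p' - p) ^ 2) * R ^ 2 :=
      mul_le_mul (by linarith) hp2 (sq_nonneg _) (by positivity)
    have g4 := mul_le_mul_of_nonneg_left g3 (sq_nonneg (u' - u))
    have h8 : (u' - u) ^ 2 ≤ 4 * R ^ 2 := by
      obtain ⟨a1, a2⟩ := abs_le.1 hu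
      obtain ⟨b1, b2⟩ := abs_le.1 hu'
      rw [show 4 * R ^ 2 = (2 * R) ^ 2 by ring]
      exact sq_le_sq' (by linarith) (by linarith)
    have h9 : (u' - u) ^ 2 * (R ^ 2 * (p' - p) ^ 2) ≤ 4 * R ^ 2 * (R ^ 2 * (p' - p) ^ 2) :=
      mul_le_mul_of_nonneg_right h8 (by positivity)
    have e5 : (-(3 * ((u' - u) * ((u + u') * p)))) ^ 2
        = 9 * ((u' - u) ^ 2 * ((u + u') ^ 2 * p ^ 2)) := by ring
    rw [e5]
    generalize (u - p) ^ 2 + (u' - p') ^ 2 + |p * p'| = X at *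
    linarith only [h9, g4]
  have hA : 0 ≤ (u' - u) ^ 2 * ((u - p) ^ 2 + (u' - p') ^ 2 + |p * p'|) := by positivity
  have hE := sq_nonneg (p' - p)
  rw [f1]
  generalize (u' - u) ^ 2 * ((u - p) ^ 2 + (u' - p') ^ 2 + |p * p'|) = X at *
  generalize (p' - p) ^ 2 = E at *
  have r26 : R ^ 2 ≤ R ^ 6 := pow_le_pow_right₀ hR (by norm_num)
  have r46 : R ^ 4 ≤ R ^ 6 := pow_le_pow_right₀ hR (by norm_num)
  have e1 : R ^ 2 * X ≤ R ^ 6 * X := mul_le_mul_of_nonneg_right r26 hA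
  have e2 : R ^ 4 * E ≤ R ^ 6 * E := mul_le_mul_of_nonneg_right r46 hE
  have e4 : 0 ≤ R ^ 6 * X := by positivity
  have e5 : 36 * (16 * R ^ 3) ^ 2 * (X + E) = 9216 * (R ^ 6 * X) + 9216 * (R ^ 6 * E) := by ring
  rw [e5]
  have e6 : 0 ≤ R ^ 6 * E := by positivity
  linarith

/-- basic size bounds -/
lemma base_bounds {R h u p u' p' : ℝ} (hR : 1 ≤ R) (h0 : 0 ≤ h)
    (hhB : h * (16 * R ^ 3) ≤ 1)
    (hu : |u| ≤ R) (hp : |p| ≤ R) (hu' : |u'| ≤ R) (hp' : |p'| ≤ R) :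
    |Pf h u p| ≤ 16 * R ^ 3 ∧ |4 * p| ≤ 16 * R ^ 3 ∧ |u' - u| ≤ 16 * R ^ 3 ∧
    |yf h u' p' - yf h u p| ≤ 16 * R ^ 3 ∧ |p' - p + (u' ^ 3 - u ^ 3)| ≤ 16 * R ^ 3 := by
  have r13 : R ≤ R ^ 3 := by
    calc R = R ^ 1 := (pow_one R).symm
      _ ≤ R ^ 3 := pow_le_pow_right₀ hR (by norm_num)
  have r3 : 1 ≤ R ^ 3 := one_le_pow₀ hR
  obtain ⟨a1, a2⟩ := abs_le.1 hu
  obtain ⟨b1, b2⟩ := abs_le.1 hu'
  obtain ⟨c1, c2⟩ := abs_le.1 hp
  obtain ⟨d1, d2⟩ := abs_le.1 hp'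
  have hx := (x_le hR hu hp).1
  have hcu : |u ^ 3| ≤ R ^ 3 := by rw [abs_pow]; exact pow_le_pow_left₀ (abs_nonneg _) hu 3
  have hcu' : |u' ^ 3| ≤ R ^ 3 := by rw [abs_pow]; exact pow_le_pow_left₀ (abs_nonneg _) hu' 3
  obtain ⟨e1, e2⟩ := abs_le.1 hcu
  obtain ⟨f1, f2⟩ := abs_le.1 hcu'
  have hs : |p' - p + (u' ^ 3 - u ^ 3)| ≤ 4 * R ^ 3 := by
    rw [abs_le]; constructor <;> linarith only [r13, c2, d1, e2, f1, c1, d2, e1, f2]
  refine ⟨?_, ?_, ?_, ?_, ?_⟩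
  · have e3 : Pf h u p = kf u + h * (4 * u ^ 2 * (u - 3 * p)) := by unfold Pf; ring
    rw [e3]
    have h1 := kf_abs_le u
    have h2 : |h * (4 * u ^ 2 * (u - 3 * p))| ≤ 1 := by
      rw [abs_mul, abs_of_nonneg h0]
      exact (mul_le_mul_of_nonneg_left hx h0).trans hhB
    have h3 := abs_add_le (kf u) (h * (4 * u ^ 2 * (u - 3 * p)))
    linarith only [hR, hu, r13, h1, h2, h3]
  · rw [abs_mul]
    have : |(4:ℝ)| = 4 := by norm_num
    rw [this]; linarith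
  · rw [abs_le]; constructor <;> linarith only [hR, r13, a2, b1, a1, b2]
  · have e3 : yf h u' p' - yf h u p
        = h * (p' - p + (u' ^ 3 - u ^ 3)) + (4 - h) * (om p' - om p) := by unfold yf; ring
    rw [e3]
    have h1 : |h * (p' - p + (u' ^ 3 - u ^ 3))| ≤ 1 := by
      rw [abs_mul, abs_of_nonneg h0]
      calc h * |p' - p + (u' ^ 3 - u ^ 3)| ≤ h * (16 * R ^ 3) :=
            mul_le_mul_of_nonneg_left (by linarith) h0
        _ ≤ 1 := hhB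
    have h2 : |om p' - om p| ≤ 2 * R := by
      rcases le_total p p' with h | h
      · have := om_mono_aux h
        rw [abs_of_nonneg (by linarith)]; linarith only [c1, d2, this]
      · have := om_mono_aux h
        rw [abs_of_nonpos (by linarith)]; linarith only [c2, d1, this]
    have hh : h ≤ 4 := by nlinarith only [hhB, hR, h0, r13]
    have h3 : |(4 - h) * (om p' - om p)| ≤ 4 * (2 * R) := by
      apply mb _ h2
      rw [abs_of_nonneg (by linarith)]; linarith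
    have h4 := abs_add_le (h * (p' - p + (u' ^ 3 - u ^ 3))) ((4 - h) * (om p' - om p))
    linarith only [hR, r13, h1, h3, h4]
  · linarith

lemma d_sq_le {h s Dom wo d : ℝ} (h0 : 0 ≤ h) (h1 : h ≤ 1) (hd : d = h * s + (4 - h) * Dom)
    (hDom : Dom ^ 2 ≤ wo) : d ^ 2 ≤ 2 * (h ^ 2 * s ^ 2) + 32 * wo := by
  have e1 : d ^ 2 ≤ 2 * (h * s) ^ 2 + 2 * ((4 - h) * Dom) ^ 2 := by
    rw [hd]; linarith [sq_nonneg (h * s - (4 - h) * Dom),
      (by ring : (h * s - (4 - h) * Dom) ^ 2 = (h * s) ^ 2 + ((4 - h) * Dom) ^ 2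
        - 2 * ((h * s) * ((4 - h) * Dom))),
      (by ring : (h * s + (4 - h) * Dom) ^ 2 = (h * s) ^ 2 + ((4 - h) * Dom) ^ 2
        + 2 * ((h * s) * ((4 - h) * Dom)))]
  have e2 : ((4 - h) * Dom) ^ 2 ≤ 16 * wo := by
    have e3 : (4 - h) ^ 2 ≤ 16 := by nlinarith only [h0, h1]
    calc ((4 - h) * Dom) ^ 2 = (4 - h) ^ 2 * Dom ^ 2 := by ring
      _ ≤ 16 * wo := mul_le_mul e3 hDom (sq_nonneg _) (by norm_num)
  linarith only [e1, e2, (by ring : 2 * (h * s) ^ 2 = 2 * (h ^ 2 * s ^ 2))]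

/-- small parameters -/
lemma hB_small {R h : ℝ} (hR : 1 ≤ R) (h0 : 0 < h) (hh : 10 ^ 30 * R ^ 20 * h ≤ 1) :
    h * (16 * R ^ 3) ^ 5 ≤ 1 / 10 ^ 20 ∧ 10 ^ 9 * R ^ 4 ≤ 1 / (8 * h) ∧ h ≤ 1 / 10 ^ 20 := by
  have r15 : R ^ 15 ≤ R ^ 20 := pow_le_pow_right₀ hR (by norm_num)
  have r4 : R ^ 4 ≤ R ^ 20 := pow_le_pow_right₀ hR (by norm_num)
  have r0 : 1 ≤ R ^ 20 := one_le_pow₀ hR
  have e1 : h * R ^ 15 ≤ h * R ^ 20 := mul_le_mul_of_nonneg_left r15 h0.le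
  have e2 : h * R ^ 4 ≤ h * R ^ 20 := mul_le_mul_of_nonneg_left r4 h0.le
  have e3 : h * 1 ≤ h * R ^ 20 := mul_le_mul_of_nonneg_left r0 h0.le
  have e4 : 10 ^ 30 * (h * R ^ 20) ≤ 1 := by linarith
  have e5 : 0 ≤ h * R ^ 20 := by positivity
  refine ⟨?_, ?_, ?_⟩
  · have : h * (16 * R ^ 3) ^ 5 = 1048576 * (h * R ^ 15) := by ring
    rw [this]
    norm_num at e4 ⊢
    linarith
  · rw [le_div_iff₀ (by positivity)]
    norm_num at e4 ⊢
    linarith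
  · norm_num at e4 ⊢
    linarith

/-- abstract form of the absorption of the remainder -/
lemma absorb {h ν wk wo S0 X Y Rst c : ℝ} (h0 : 0 < h) (h1 : h ≤ 1) (hν : ν = 1 / (8 * h))
    (hwk : 0 ≤ wk) (hwo : 0 ≤ wo) (hX : 0 ≤ X) (hY : 0 ≤ Y)
    (hcore : 1 / 100 * (X + Y) ≤ S0 + ν * (wk + wo))
    (hR : h * |Rst| ≤ 1 / 4 * (wk + wo) + h / 50 * (c * X)) (hc : c ≤ 1) :
    1 / 4 * (wk + wo) + h / 50 * (X + Y) ≤ (wk + 4 * (4 - h) * wo + 4 * h * S0) + h * Rst := by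
  have e1 : 4 * h * (S0 + ν * (wk + wo)) = 4 * h * S0 + 1 / 2 * (wk + wo) := by
    rw [hν]; field_simp; ring
  have e2 : 4 * h * (1 / 100 * (X + Y)) ≤ 4 * h * (S0 + ν * (wk + wo)) :=
    mul_le_mul_of_nonneg_left hcore (by positivity)
  have e3 : -(h * |Rst|) ≤ h * Rst := by
    rw [← mul_neg]; exact mul_le_mul_of_nonneg_left (neg_abs_le _) h0.le
  have e4 : h * wo ≤ 1 * wo := mul_le_mul_of_nonneg_right h1 hwo
  have e5 : h * (c * X) ≤ h * (1 * X) :=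
    mul_le_mul_of_nonneg_left (mul_le_mul_of_nonneg_right hc hX) h0.le
  have e6 : 0 ≤ h * Y := by positivity
  have e7 : 0 ≤ h * X := by positivity
  linarith only [hwo, hR, e1, e2, e3, e4, e5, e6]

theorem Fs_lower_small {R h u p u' p' : ℝ} (hR : 1 ≤ R) (h0 : 0 < h)
    (hh : 10 ^ 30 * R ^ 20 * h ≤ 1)
    (hu : |u| ≤ R) (hp : |p| ≤ R) (hu' : |u'| ≤ R) (hp' : |p'| ≤ R) (hA : |u' - u| ≤ 1 / 2) :
    1 / 4 * ((u' - u) * (kf u' - kf u) + (p' - p) * (om p' - om p))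
      + h / 50 * ((u' - u) ^ 2 * ((u - p) ^ 2 + (u' - p') ^ 2 + |p * p'|)
        + mu u p * |(u' - u) * (p' - p)| + (p' - p) ^ 2) ≤ Fs h u p u' p' := by
  obtain ⟨hB5, hν, hh20⟩ := hB_small hR h0 hh
  have hh1 : h ≤ 1 := hh20.trans (by norm_num)
  have r3 : 1 ≤ R ^ 3 := one_le_pow₀ hR
  have hB1 : 1 ≤ 16 * R ^ 3 := by linarith only [h0, hh20, r3]
  have hhB : h * (16 * R ^ 3) ≤ 1 := by
    have : 16 * R ^ 3 ≤ (16 * R ^ 3) ^ 5 := by
      calc 16 * R ^ 3 = (16 * R ^ 3) ^ 1 := (pow_one _).symm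
        _ ≤ (16 * R ^ 3) ^ 5 := pow_le_pow_right₀ hB1 (by norm_num)
    have := mul_le_mul_of_nonneg_left this h0.le
    linarith only [h0, hB5, hh20, this]
  have hcore := (core_lower hR hν hu hp hu' hp').2 hA
  rw [Fs_identity]
  obtain ⟨bP, bQ, ba, bd, bs⟩ := base_bounds hR h0.le hhB hu hp hu' hp'
  obtain ⟨bP', bQ', -, -, -⟩ := base_bounds hR h0.le hhB hu' hp' hu hp
  have hmu0 := mu_nonneg u p
  have hmuB : mu u p ≤ 16 * R ^ 3 := by linarith only [h0, hh20, r3, mu_le u p]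
  have hwk := wk_nonneg u u'
  have hwo := wo_nonneg p p'
  have hxx := xx_le hR hu hp hu' hp'
  have hxQ := xQ_le (u' := u') hR hu hp hp'
  have hxQ' := xQ_le (u' := u) hR hu' hp' hp
  have hF := kf_F1' hR hu hu'
  have hs := s_sq_le (p := p) (p' := p') hR hu hu'
  have hDx := Dx_sq_le (p' := p') hR hu hp hu'
  have hpi : (u' - p') ^ 2 + (u - p) ^ 2 + |p' * p| = (u - p) ^ 2 + (u' - p') ^ 2 + |p * p'| := by
    rw [mul_comm p' p]; ring
  rw [hpi] at hxQ'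
  have hPi0 : 0 ≤ (u - p) ^ 2 + (u' - p') ^ 2 + |p * p'| := by positivity
  have hppP : |p * p'| ≤ (u - p) ^ 2 + (u' - p') ^ 2 + |p * p'| := by
    linarith only [sq_nonneg (u - p), sq_nonneg (u' - p')]
  set Pi := (u - p) ^ 2 + (u' - p') ^ 2 + |p * p'| with hPidef
  have ha0 := sq_nonneg (u' - u)
  have hE0 := sq_nonneg (p' - p)
  have hG0 : 0 ≤ (u' - u) ^ 2 * Pi + (p' - p) ^ 2 := by positivity
  have hPG : (u' - u) ^ 2 * Pi ≤ (u' - u) ^ 2 * Pi + (p' - p) ^ 2 := by linarith only [hE0]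
  have hRB : 2 * R ≤ 16 * R ^ 3 := by
    have : R ≤ R ^ 3 := by
      calc R = R ^ 1 := (pow_one R).symm
        _ ≤ R ^ 3 := pow_le_pow_right₀ hR (by norm_num)
    linarith only [h0, hh20, r3, this]
  have hwkabs : |u' - u| * |kf u' - kf u| = (u' - u) * (kf u' - kf u) := by
    rw [← abs_mul, abs_of_nonneg hwk]
  have F1 : |(u' - u) * kf u| ≤ 16 * R ^ 3 * |kf u' - kf u| :=
    hF.1.trans (mul_le_mul_of_nonneg_right hRB (abs_nonneg _))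
  have F2 : |(u' - u) * kf u'| ≤ 16 * R ^ 3 * |kf u' - kf u| :=
    hF.2.trans (mul_le_mul_of_nonneg_right hRB (abs_nonneg _))
  have F3 : |(u' - u) ^ 2 * kf u| ≤ 16 * R ^ 3 * ((u' - u) * (kf u' - kf u)) := by
    rw [← hwkabs, show (u' - u) ^ 2 * kf u = (u' - u) * ((u' - u) * kf u) by ring, abs_mul]
    calc |u' - u| * |(u' - u) * kf u| ≤ |u' - u| * (16 * R ^ 3 * |kf u' - kf u|) :=
          mul_le_mul_of_nonneg_left F1 (abs_nonneg _)
      _ = _ := by ring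
  have F4 : |(u' - u) ^ 2 * kf u'| ≤ 16 * R ^ 3 * ((u' - u) * (kf u' - kf u)) := by
    rw [← hwkabs, show (u' - u) ^ 2 * kf u' = (u' - u) * ((u' - u) * kf u') by ring, abs_mul]
    calc |u' - u| * |(u' - u) * kf u'| ≤ |u' - u| * (16 * R ^ 3 * |kf u' - kf u|) :=
          mul_le_mul_of_nonneg_left F2 (abs_nonneg _)
      _ = _ := by ring
  have bx := (x_le hR hu hp).1
  have bx' := (x_le hR hu' hp').1
  have hB0 : 0 ≤ 16 * R ^ 3 := by linarith only [h0, hh20, r3]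
  have hB20 : 0 ≤ (16 * R ^ 3) ^ 2 := by positivity
  have G1 : (u' - u) ^ 2 * |4 * u ^ 2 * (u - 3 * p) * (4 * u' ^ 2 * (u' - 3 * p'))|
      ≤ 24 * (16 * R ^ 3) ^ 2 * ((u' - u) ^ 2 * Pi + (p' - p) ^ 2) := by
    have e1 := mul_le_mul_of_nonneg_left hxx ha0
    have e2 := mul_le_mul_of_nonneg_left hPG (by positivity : 0 ≤ 24 * (16 * R ^ 3) ^ 2)
    linarith only [e1, e2]
  have G2 : (u' - u) ^ 2 * |4 * u ^ 2 * (u - 3 * p) * (4 * p')|
      ≤ 8 * (16 * R ^ 3) * ((u' - u) ^ 2 * Pi + (p' - p) ^ 2) := by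
    have e1 := mul_le_mul_of_nonneg_left hxQ ha0
    have e2 := mul_le_mul_of_nonneg_left hPG (by positivity : 0 ≤ 8 * (16 * R ^ 3))
    linarith only [e1, e2]
  have G3 : (u' - u) ^ 2 * |4 * u' ^ 2 * (u' - 3 * p') * (4 * p)|
      ≤ 8 * (16 * R ^ 3) * ((u' - u) ^ 2 * Pi + (p' - p) ^ 2) := by
    have e1 := mul_le_mul_of_nonneg_left hxQ' ha0
    have e2 := mul_le_mul_of_nonneg_left hPG (by positivity : 0 ≤ 8 * (16 * R ^ 3))
    linarith only [e1, e2]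
  have G4 : (u' - u) ^ 2 * |(4 * p) * (4 * p')| ≤ 16 * ((u' - u) ^ 2 * Pi + (p' - p) ^ 2) := by
    have e0 : |(4 * p) * (4 * p')| = 16 * |p * p'| := by
      rw [show (4 * p) * (4 * p') = 16 * (p * p') by ring, abs_mul]; norm_num
    rw [e0]
    have e1 := mul_le_mul_of_nonneg_left hppP ha0
    linarith only [hE0, e1]
  have hrest := restA (d := yf h u' p' - yf h u p) h0.le hh1 hB1
    (by unfold Pf; ring : Pf h u p = kf u + h * (4 * u ^ 2 * (u - 3 * p)))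
    (by unfold Pf; ring : Pf h u' p' = kf u' + h * (4 * u' ^ 2 * (u' - 3 * p')))
    (by unfold Pf; ring : Pf h u' p' - Pf h u p = (kf u' - kf u)
      + h * (4 * u' ^ 2 * (u' - 3 * p') - 4 * u ^ 2 * (u - 3 * p)))
    bP bP' bQ bQ' bx bx' hmu0 hmuB hwk hG0 (dk_sq_le u u') F1 F2 F3 F4 G1 G2 G3 G4 hDx
  have hd := d_sq_le h0.le hh1 (by unfold yf; ring : yf h u' p' - yf h u p
    = h * (p' - p + (u' ^ 3 - u ^ 3)) + (4 - h) * (om p' - om p)) (dom_sq_le p p')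
  generalize ((u' - u) ^ 2 + (yf h u' p' - yf h u p) ^ 2) * (Pf h u p * Pf h u' p')
        + (yf h u' p' - yf h u p) ^ 2 * ((4 * p) * (4 * p'))
        + 2 * (u' - u) * (yf h u' p' - yf h u p) * (Pf h u p * (4 * p') + (4 * p) * Pf h u' p')
        + mu u p * ((yf h u' p' - yf h u p) * (Pf h u' p' - Pf h u p)
          + h * (((u' - u) ^ 2 + (yf h u' p' - yf h u p) ^ 2)
              * (Pf h u p * (4 * p') + (4 * p) * Pf h u' p')
            + 2 * (u' - u) * (yf h u' p' - yf h u p)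
              * (Pf h u p * Pf h u' p' + (4 * p) * (4 * p')))) = Rst at hrest ⊢
  have hab : (u' - u) ^ 2 * Pi + mu u p * |(u' - u) * (p' - p)| + (p' - p) ^ 2
      = ((u' - u) ^ 2 * Pi + (p' - p) ^ 2) + mu u p * |(u' - u) * (p' - p)| := by ring
  rw [hab] at hcore ⊢
  refine absorb h0 hh1 rfl hwk hwo hG0 (mul_nonneg hmu0 (abs_nonneg _)) ?_ ?_ le_rfl
  · linarith only [hcore, hcore]
  · -- the remainder
    generalize (u' - u) ^ 2 * Pi + (p' - p) ^ 2 = G at *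
    generalize (u' - u) * (kf u' - kf u) = wk at *
    generalize (p' - p) * (om p' - om p) = wo at *
    generalize (yf h u' p' - yf h u p) ^ 2 = d2 at *
    have hs' : h ^ 2 * (p' - p + (u' ^ 3 - u ^ 3)) ^ 2 ≤ h ^ 2 * ((16 * R ^ 3) ^ 2 * G) :=
      mul_le_mul_of_nonneg_left hs (sq_nonneg h)
    generalize (p' - p + (u' ^ 3 - u ^ 3)) ^ 2 = s2 at *
    generalize 16 * R ^ 3 = B at *
    have b35 : B ^ 3 ≤ B ^ 5 := pow_le_pow_right₀ hB1 (by norm_num)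
    have e1 : h * B ^ 3 ≤ 1 / 10 ^ 20 := (mul_le_mul_of_nonneg_left b35 h0.le).trans hB5
    have e2 : h * |Rst| ≤ h * (20 * B ^ 3 * (wk + d2) + 120 * B ^ 3 * (h * G)) :=
      mul_le_mul_of_nonneg_left hrest h0.le
    have e3 : d2 ≤ 2 * (h ^ 2 * (B ^ 2 * G)) + 32 * wo := by linarith only [hd, hs']
    have e4 : h * B ^ 3 * (wk + d2) ≤ h * B ^ 3 * (wk + (2 * (h ^ 2 * (B ^ 2 * G)) + 32 * wo)) :=
      mul_le_mul_of_nonneg_left (by linarith only [hd, hs']) (by positivity)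
    have e5 : h * B ^ 3 * (wk + 32 * wo) ≤ 1 / 10 ^ 20 * (wk + 32 * wo) :=
      mul_le_mul_of_nonneg_right e1 (by positivity)
    have e6 : h * B ^ 5 * (h ^ 2 * G) ≤ 1 / 10 ^ 20 * (h ^ 2 * G) :=
      mul_le_mul_of_nonneg_right hB5 (by positivity)
    have e7 : h * B ^ 3 * (h * G) ≤ 1 / 10 ^ 20 * (h * G) :=
      mul_le_mul_of_nonneg_right e1 (by positivity)
    have e8 : h ^ 2 * G ≤ h * G := by
      apply mul_le_mul_of_nonneg_right _ hG0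
      rw [sq]; exact mul_le_of_le_one_left h0.le hh1
    have e9 : 0 ≤ h * G := by positivity
    have e10 : h * (20 * B ^ 3 * (wk + d2) + 120 * B ^ 3 * (h * G))
      = 20 * (h * B ^ 3 * (wk + d2)) + 120 * (h * B ^ 3 * (h * G)) := by ring
    have e11 : h * B ^ 3 * (wk + (2 * (h ^ 2 * (B ^ 2 * G)) + 32 * wo))
      = h * B ^ 3 * (wk + 32 * wo) + 2 * (h * B ^ 5 * (h ^ 2 * G)) := by ring
    have e12 : h / 50 * (1 * G) = 1 / 50 * (h * G) := by ring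
    rw [e12]
    norm_num at e5 e6 e7 ⊢
    linarith only [hwk, hwo, e2, e4, e8, e9, e5, e6, e7]

lemma abs_quad_le (u u' : ℝ) : |u ^ 2 + u * u' + u' ^ 2| ≤ 3 / 2 * (u ^ 2 + u' ^ 2) := by
  rw [abs_le]
  constructor <;> linarith only [sq_nonneg (u - u'), sq_nonneg (u + u'), sq_nonneg u, sq_nonneg u']

theorem Fs_lower_large {R h u p u' p' : ℝ} (hR : 1 ≤ R) (h0 : 0 < h)
    (hh : 10 ^ 30 * R ^ 20 * h ≤ 1)
    (hu : |u| ≤ R) (hp : |p| ≤ R) (hu' : |u'| ≤ R) (hp' : |p'| ≤ R) (hA : 1 / 2 < |u' - u|) :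
    1 / 4 * ((u' - u) * (kf u' - kf u) + (p' - p) * (om p' - om p))
      + h / 50 * ((u' - u) ^ 2 * ((u - p) ^ 2 + (u' - p') ^ 2 + |p * p'|)
        + mu u p * |(u' - u) * (p' - p)|) ≤ Fs h u p u' p' := by
  obtain ⟨hB5, hν, hh20⟩ := hB_small hR h0 hh
  have hh1 : h ≤ 1 := hh20.trans (by norm_num)
  have r3 : 1 ≤ R ^ 3 := one_le_pow₀ hR
  have hB1 : 1 ≤ 16 * R ^ 3 := by linarith only [h0, hh20, r3]
  have hhB : h * (16 * R ^ 3) ≤ 1 := by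
    have : 16 * R ^ 3 ≤ (16 * R ^ 3) ^ 5 := by
      calc 16 * R ^ 3 = (16 * R ^ 3) ^ 1 := (pow_one _).symm
        _ ≤ (16 * R ^ 3) ^ 5 := pow_le_pow_right₀ hB1 (by norm_num)
    have := mul_le_mul_of_nonneg_left this h0.le
    linarith only [h0, hB5, hh20, this]
  have hcore := (core_lower hR hν hu hp hu' hp').1
  rw [Fs_identity]
  obtain ⟨bP, bQ, ba, bd, bs⟩ := base_bounds hR h0.le hhB hu hp hu' hp'
  obtain ⟨bP', bQ', -, -, -⟩ := base_bounds hR h0.le hhB hu' hp' hu hp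
  have hmu0 := mu_nonneg u p
  have hmuB : mu u p ≤ 16 * R ^ 3 := by linarith only [h0, hh20, r3, mu_le u p]
  have hwk := wk_nonneg u u'
  have hwo := wo_nonneg p p'
  have hxx := xx_le hR hu hp hu' hp'
  have hxQ := xQ_le (u' := u') hR hu hp hp'
  have hxQ' := xQ_le (u' := u) hR hu' hp' hp
  have hF := kf_F1' hR hu hu'
  have hmu2 := mu_sq_le u p u' p'
  have huu := uu_le u p u' p'
  have hpi : (u' - p') ^ 2 + (u - p) ^ 2 + |p' * p| = (u - p) ^ 2 + (u' - p') ^ 2 + |p * p'| := by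
    rw [mul_comm p' p]; ring
  rw [hpi] at hxQ'
  have hPi0 : 0 ≤ (u - p) ^ 2 + (u' - p') ^ 2 + |p * p'| := by positivity
  have hppP : |p * p'| ≤ (u - p) ^ 2 + (u' - p') ^ 2 + |p * p'| := by
    linarith only [sq_nonneg (u - p), sq_nonneg (u' - p')]
  set Pi := (u - p) ^ 2 + (u' - p') ^ 2 + |p * p'| with hPidef
  have hRR3 : R ≤ R ^ 3 := by
    calc R = R ^ 1 := (pow_one R).symm
      _ ≤ R ^ 3 := pow_le_pow_right₀ hR (by norm_num)
  have ha0 := sq_nonneg (u' - u)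
  have hE0 := sq_nonneg (p' - p)
  have hme0 : 0 ≤ mu u p * |p' - p| := mul_nonneg hmu0 (abs_nonneg _)
  have hZ0 : 0 ≤ Pi + mu u p * |p' - p| := by positivity
  have hPZ : Pi ≤ Pi + mu u p * |p' - p| := by linarith only [hme0]
  have hwkabs : |u' - u| * |kf u' - kf u| = (u' - u) * (kf u' - kf u) := by
    rw [← abs_mul, abs_of_nonneg hwk]
  have hDk0 := abs_nonneg (kf u' - kf u)
  have hDk2 : |kf u' - kf u| ≤ 2 * ((u' - u) * (kf u' - kf u)) := by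
    rw [← hwkabs]
    have := mul_le_mul_of_nonneg_right hA.le hDk0
    linarith only [this]
  have bDk : |kf u' - kf u| ≤ 16 * R ^ 3 * ((u' - u) * (kf u' - kf u)) := by
    refine hDk2.trans (mul_le_mul_of_nonneg_right (by linarith only [h0, hh20, r3]) hwk)
  have bk : |kf u| ≤ 16 * R ^ 3 * ((u' - u) * (kf u' - kf u)) := by
    have e1 := hF.1
    rw [abs_mul] at e1
    have e2 := mul_le_mul_of_nonneg_right hA.le (abs_nonneg (kf u))
    have e3 : 2 * R * |kf u' - kf u| ≤ 2 * R * (2 * ((u' - u) * (kf u' - kf u))) :=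
      mul_le_mul_of_nonneg_left hDk2 (by linarith only [hR, h0, hh20])
    have e4 : R * ((u' - u) * (kf u' - kf u)) ≤ R ^ 3 * ((u' - u) * (kf u' - kf u)) :=
      mul_le_mul_of_nonneg_right hRR3 hwk
    have e5 : 0 ≤ R ^ 3 * ((u' - u) * (kf u' - kf u)) := by positivity
    linarith only [hDk0, bDk, e1, e2, e3, e4]
  have bk' : |kf u'| ≤ 16 * R ^ 3 * ((u' - u) * (kf u' - kf u)) := by
    have e1 := hF.2
    rw [abs_mul] at e1
    have e2 := mul_le_mul_of_nonneg_right hA.le (abs_nonneg (kf u'))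
    have e3 : 2 * R * |kf u' - kf u| ≤ 2 * R * (2 * ((u' - u) * (kf u' - kf u))) :=
      mul_le_mul_of_nonneg_left hDk2 (by linarith only [hR, h0, hh20])
    have e4 : R * ((u' - u) * (kf u' - kf u)) ≤ R ^ 3 * ((u' - u) * (kf u' - kf u)) :=
      mul_le_mul_of_nonneg_right hRR3 hwk
    have e5 : 0 ≤ R ^ 3 * ((u' - u) * (kf u' - kf u)) := by positivity
    linarith only [hDk0, bDk, e1, e2, e3, e4]
  have bx := (x_le hR hu hp).1
  have bx' := (x_le hR hu' hp').1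
  have bDx : |4 * u' ^ 2 * (u' - 3 * p') - 4 * u ^ 2 * (u - 3 * p)| ≤ 2 * (16 * R ^ 3) := by
    obtain ⟨c1, c2⟩ := abs_le.1 bx
    obtain ⟨c3, c4⟩ := abs_le.1 bx'
    rw [abs_le]; constructor <;> linarith only [c2, c3, c1, c4]
  have G1 : |4 * u ^ 2 * (u - 3 * p) * (4 * u' ^ 2 * (u' - 3 * p'))|
      ≤ 24 * (16 * R ^ 3) ^ 2 * (Pi + mu u p * |p' - p|) :=
    hxx.trans (mul_le_mul_of_nonneg_left hPZ (by positivity))
  have G2 : |4 * u ^ 2 * (u - 3 * p) * (4 * p')|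
      ≤ 8 * (16 * R ^ 3) * (Pi + mu u p * |p' - p|) :=
    hxQ.trans (mul_le_mul_of_nonneg_left hPZ (by positivity))
  have G3 : |4 * u' ^ 2 * (u' - 3 * p') * (4 * p)|
      ≤ 8 * (16 * R ^ 3) * (Pi + mu u p * |p' - p|) :=
    hxQ'.trans (mul_le_mul_of_nonneg_left hPZ (by positivity))
  have G4 : |(4 * p) * (4 * p')| ≤ 16 * (Pi + mu u p * |p' - p|) := by
    have e0 : |(4 * p) * (4 * p')| = 16 * |p * p'| := by
      rw [show (4 * p) * (4 * p') = 16 * (p * p') by ring, abs_mul]; norm_num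
    rw [e0]
    linarith only [hppP, hme0]
  have hE2R : |p' - p| ≤ 2 * R := by
    obtain ⟨c1, c2⟩ := abs_le.1 hp
    obtain ⟨c3, c4⟩ := abs_le.1 hp'
    rw [abs_le]; constructor <;> linarith only [c2, c3, c1, c4]
  have ha2R : |u' - u| ≤ 2 * R := by
    obtain ⟨c1, c2⟩ := abs_le.1 hu
    obtain ⟨c3, c4⟩ := abs_le.1 hu'
    rw [abs_le]; constructor <;> linarith only [c2, c3, c1, c4]
  have hmus : mu u p * |p' - p + (u' ^ 3 - u ^ 3)|
      ≤ 6 * (16 * R ^ 3) ^ 2 * (Pi + mu u p * |p' - p|) := by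
    have e1 : u' ^ 3 - u ^ 3 = (u' - u) * (u ^ 2 + u * u' + u' ^ 2) := by ring
    have hq := abs_quad_le u u'
    have hq2 : |u' ^ 3 - u ^ 3| ≤ 2 * R * (3 / 2 * (4 * Pi + 2 * (p' - p) ^ 2)) := by
      rw [e1]
      refine (mb ha2R hq).trans ?_
      apply mul_le_mul_of_nonneg_left _ (by linarith only [hR, h0, hh20])
      linarith only [huu]
    have hq3 : |p' - p + (u' ^ 3 - u ^ 3)| ≤ |p' - p|
        + 2 * R * (3 / 2 * (4 * Pi + 2 * (p' - p) ^ 2)) := by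
      refine (abs_add_le _ _).trans (by linarith only [hq2])
    have hq4 := mul_le_mul_of_nonneg_left hq3 hmu0
    have hq5 : (p' - p) ^ 2 ≤ 2 * R * |p' - p| := by
      rw [← sq_abs, sq]; exact mul_le_mul_of_nonneg_right hE2R (abs_nonneg _)
    have hq6 : mu u p * (p' - p) ^ 2 ≤ 2 * R * (mu u p * |p' - p|) := by
      have := mul_le_mul_of_nonneg_left hq5 hmu0
      linarith only [this]
    have hq7 : mu u p * Pi ≤ 7 / 2 * Pi := mul_le_mul_of_nonneg_right (mu_le u p) hPi0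
    have hq8 : R * (mu u p * Pi) ≤ R * (7 / 2 * Pi) := mul_le_mul_of_nonneg_left hq7 (by linarith only [hR, h0, hh20])
    have hq9 : R * (mu u p * (p' - p) ^ 2) ≤ R * (2 * R * (mu u p * |p' - p|)) :=
      mul_le_mul_of_nonneg_left hq6 (by linarith only [hR, h0, hh20])
    have r16 : R ≤ R ^ 6 := by
      calc R = R ^ 1 := (pow_one R).symm
        _ ≤ R ^ 6 := pow_le_pow_right₀ hR (by norm_num)
    have r26 : R ^ 2 ≤ R ^ 6 := pow_le_pow_right₀ hR (by norm_num)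
    have r06 : 1 ≤ R ^ 6 := one_le_pow₀ hR
    have f1 : R * Pi ≤ R ^ 6 * Pi := mul_le_mul_of_nonneg_right r16 hPi0
    have f2 : R ^ 2 * (mu u p * |p' - p|) ≤ R ^ 6 * (mu u p * |p' - p|) :=
      mul_le_mul_of_nonneg_right r26 hme0
    have f3 : 1 * (mu u p * |p' - p|) ≤ R ^ 6 * (mu u p * |p' - p|) :=
      mul_le_mul_of_nonneg_right r06 hme0
    have f4 : 0 ≤ R ^ 6 * Pi := by positivity
    have f5 : 6 * (16 * R ^ 3) ^ 2 * (Pi + mu u p * |p' - p|)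
      = 1536 * (R ^ 6 * Pi) + 1536 * (R ^ 6 * (mu u p * |p' - p|)) := by ring
    rw [f5]
    linarith only [hme0, hq4, hq8, hq9, f1, f2, f3, f4]
  have hrest := restB h0.le hh1 hB1
    (by unfold Pf; ring : Pf h u p = kf u + h * (4 * u ^ 2 * (u - 3 * p)))
    (by unfold Pf; ring : Pf h u' p' = kf u' + h * (4 * u' ^ 2 * (u' - 3 * p')))
    (by unfold Pf; ring : Pf h u' p' - Pf h u p = (kf u' - kf u)
      + h * (4 * u' ^ 2 * (u' - 3 * p') - 4 * u ^ 2 * (u - 3 * p)))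
    (by unfold yf; ring : yf h u' p' - yf h u p
      = h * (p' - p + (u' ^ 3 - u ^ 3)) + (4 - h) * (om p' - om p))
    ba bd bP' bQ bQ' bx hmu0 hmuB hwk hwo hZ0 bk bk' bDk (dom_sq_le p p') bs bDx
    G1 G2 G3 G4 hmu2 hmus
  generalize ((u' - u) ^ 2 + (yf h u' p' - yf h u p) ^ 2) * (Pf h u p * Pf h u' p')
        + (yf h u' p' - yf h u p) ^ 2 * ((4 * p) * (4 * p'))
        + 2 * (u' - u) * (yf h u' p' - yf h u p) * (Pf h u p * (4 * p') + (4 * p) * Pf h u' p')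
        + mu u p * ((yf h u' p' - yf h u p) * (Pf h u' p' - Pf h u p)
          + h * (((u' - u) ^ 2 + (yf h u' p' - yf h u p) ^ 2)
              * (Pf h u p * (4 * p') + (4 * p) * Pf h u' p')
            + 2 * (u' - u) * (yf h u' p' - yf h u p)
              * (Pf h u p * Pf h u' p' + (4 * p) * (4 * p')))) = Rst at hrest ⊢
  -- compare Z with the budget
  have hZG : Pi + mu u p * |p' - p|
      ≤ 4 * ((u' - u) ^ 2 * Pi + mu u p * |(u' - u) * (p' - p)|) := by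
    have e1 : 1 / 4 ≤ (u' - u) ^ 2 := by
      rw [← sq_abs]
      calc (1:ℝ) / 4 = (1 / 2) ^ 2 := by norm_num
        _ ≤ |u' - u| ^ 2 := pow_le_pow_left₀ (by norm_num) hA.le 2
    have e2 := mul_le_mul_of_nonneg_right e1 hPi0
    have e3 : 1 / 2 * (mu u p * |p' - p|) ≤ |u' - u| * (mu u p * |p' - p|) :=
      mul_le_mul_of_nonneg_right hA.le hme0
    rw [abs_mul]
    linarith only [hme0, e2, e3]
  have hG0 : 0 ≤ (u' - u) ^ 2 * Pi + mu u p * |(u' - u) * (p' - p)| :=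
    add_nonneg (mul_nonneg ha0 hPi0) (mul_nonneg hmu0 (abs_nonneg _))
  have hab : (u' - u) ^ 2 * Pi + mu u p * |(u' - u) * (p' - p)|
      = ((u' - u) ^ 2 * Pi + mu u p * |(u' - u) * (p' - p)|) + 0 := by ring
  rw [hab] at hcore ⊢
  refine absorb h0 hh1 rfl hwk hwo hG0 le_rfl ?_ ?_ le_rfl
  · linarith [hcore]
  · generalize (u' - u) ^ 2 * Pi + mu u p * |(u' - u) * (p' - p)| = G at *
    generalize Pi + mu u p * |p' - p| = Z at *
    generalize (u' - u) * (kf u' - kf u) = wk at *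
    generalize (p' - p) * (om p' - om p) = wo at *
    generalize 16 * R ^ 3 = B at *
    have b25 : B ^ 2 ≤ B ^ 5 := pow_le_pow_right₀ hB1 (by norm_num)
    have e1 : h * B ^ 2 ≤ 1 / 10 ^ 20 := (mul_le_mul_of_nonneg_left b25 h0.le).trans hB5
    have e2 : h * |Rst| ≤ h * (17 * B ^ 5 * wk + 40 * B ^ 2 * wo + 1500 * B ^ 5 * (h * Z)) :=
      mul_le_mul_of_nonneg_left hrest h0.le
    have e3 : h * B ^ 5 * wk ≤ 1 / 10 ^ 20 * wk := mul_le_mul_of_nonneg_right hB5 hwk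
    have e4 : h * B ^ 2 * wo ≤ 1 / 10 ^ 20 * wo := mul_le_mul_of_nonneg_right e1 hwo
    have e5 : h * B ^ 5 * (h * Z) ≤ 1 / 10 ^ 20 * (h * Z) :=
      mul_le_mul_of_nonneg_right hB5 (by positivity)
    have e6 : h * Z ≤ h * (4 * G) := mul_le_mul_of_nonneg_left hZG h0.le
    have e7 : 0 ≤ h * G := by positivity
    have e10 : h * (17 * B ^ 5 * wk + 40 * B ^ 2 * wo + 1500 * B ^ 5 * (h * Z))
      = 17 * (h * B ^ 5 * wk) + 40 * (h * B ^ 2 * wo) + 1500 * (h * B ^ 5 * (h * Z)) := by ring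
    have e12 : h / 50 * (1 * G) = 1 / 50 * (h * G) := by ring
    rw [e12]
    norm_num at e3 e4 e5 ⊢
    linarith only [hwk, hwo, e2, e6, e7, e3, e4, e5]

/-- Lower bound for the slice kernel (module T2a). -/
theorem Fs_lower {R h u p u' p' : ℝ} (hR : 1 ≤ R) (h0 : 0 < h) (hh : 10 ^ 30 * R ^ 20 * h ≤ 1)
    (hu : |u| ≤ R) (hp : |p| ≤ R) (hu' : |u'| ≤ R) (hp' : |p'| ≤ R) :
    1 / 4 * ((u' - u) * (kf u' - kf u) + (p' - p) * (om p' - om p))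
      + h / 50 * ((u' - u) ^ 2 * ((u - p) ^ 2 + (u' - p') ^ 2 + |p * p'|)
        + mu u p * |(u' - u) * (p' - p)|) ≤ Fs h u p u' p'
    ∧ (|u' - u| ≤ 1 / 2 →
      1 / 4 * ((u' - u) * (kf u' - kf u) + (p' - p) * (om p' - om p))
      + h / 50 * ((u' - u) ^ 2 * ((u - p) ^ 2 + (u' - p') ^ 2 + |p * p'|)
        + mu u p * |(u' - u) * (p' - p)| + (p' - p) ^ 2) ≤ Fs h u p u' p') := by
  rcases le_or_gt |u' - u| (1 / 2) with hA | hA
  · have h1 := Fs_lower_small hR h0 hh hu hp hu' hp' hA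
    refine ⟨?_, fun _ => h1⟩
    have h2 : 0 ≤ h / 50 * (p' - p) ^ 2 := by positivity
    linarith
  · exact ⟨Fs_lower_large hR h0 hh hu hp hu' hp' hA, fun hc => absurd hc (not_le.2 hA)⟩

end EC
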