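import Mathlib
import Pool.Agent.Helper35.EC.SliceLower

/-!
# MP_0db605_an : lower bounds for the slice kernel at the walls
-/

namespace EC

lemma kf_wall {s t : ℝ} (h : s ≤ t) (hw : 2 ≤ |s| ∨ 2 ≤ |t|) :
    2 / 5 * (t - s) ≤ kf t - kf s := by
  have hw' : s ≤ -2 ∨ 2 ≤ t := by
    rcases hw with hw | hw
    · rcases le_total 0 s with h0 | h0
      · rw [abs_of_nonneg h0] at hw; right; linarith
      · rw [abs_of_nonpos h0] at hw; left; linarith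
    · rcases le_total 0 t with h0 | h0
      · rw [abs_of_nonneg h0] at hw; right; linarith
      · rw [abs_of_nonpos h0] at hw; left; linarith
  rcases kf_cases s with ⟨h1, e1⟩ | ⟨h1, h1', e1⟩ | ⟨h1, h1', e1⟩ | ⟨h1, e1⟩ <;>
  rcases kf_cases t with ⟨h2, e2⟩ | ⟨h2, h2', e2⟩ | ⟨h2, h2', e2⟩ | ⟨h2, e2⟩ <;>
  rw [e1, e2] <;> rcases hw' with hw' | hw' <;> nlinarith

lemma wk_wall {u u' : ℝ} (hw : 2 ≤ |u| ∨ 2 ≤ |u'|) :
    2 / 5 * (u' - u) ^ 2 ≤ (u' - u) * (kf u' - kf u) := by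
  rcases le_total u u' with h | h
  · have h1 := kf_wall h hw
    have h2 := mul_le_mul_of_nonneg_left h1 (by linarith : 0 ≤ u' - u)
    linarith
  · have h1 := kf_wall h hw.symm
    have h2 := mul_le_mul_of_nonneg_left h1 (by linarith : 0 ≤ u - u')
    linarith

lemma om_far {p p' : ℝ} (hp : 11 / 5 ≤ p ∨ p ≤ -1 / 5) (he : 1 / 10 ≤ |p' - p|) :
    1 / 100 ≤ (p' - p) * (om p' - om p) := by
  rcases le_total p p' with h | h
  · rw [abs_of_nonneg (by linarith)] at he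
    have h1 : 1 / 10 ≤ om p' - om p := by
      rcases om_cases p with ⟨h1, e1⟩ | ⟨h1, h1', e1⟩ | ⟨h1, e1⟩ <;>
      rcases om_cases p' with ⟨h2, e2⟩ | ⟨h2, h2', e2⟩ | ⟨h2, e2⟩ <;>
      rw [e1, e2] <;> rcases hp with hp | hp <;> linarith
    nlinarith
  · rw [abs_of_nonpos (by linarith)] at he
    have h1 : 1 / 10 ≤ om p - om p' := by
      rcases om_cases p with ⟨h1, e1⟩ | ⟨h1, h1', e1⟩ | ⟨h1, e1⟩ <;>
      rcases om_cases p' with ⟨h2, e2⟩ | ⟨h2, h2', e2⟩ | ⟨h2, e2⟩ <;>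
      rw [e1, e2] <;> rcases hp with hp | hp <;> linarith
    nlinarith

lemma pp_near {p p' : ℝ} (hp : 11 / 5 ≤ p ∨ p ≤ -1 / 5) (he : |p' - p| ≤ 1 / 10) :
    1 + (4 * p) ^ 2 + (4 * p') ^ 2 ≤ 160 * |p * p'| ∧ (p' - p) ^ 2 ≤ |p * p'| := by
  obtain ⟨h1, h2⟩ := abs_le.1 he
  have hpos : 0 ≤ p * p' := by
    rcases hp with hp | hp
    · exact mul_nonneg (by linarith) (by linarith)
    · exact mul_nonneg_of_nonpos_of_nonpos (by linarith) (by linarith)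
  rw [abs_of_nonneg hpos]
  have hp2 : 1 / 25 ≤ p ^ 2 := by rcases hp with hp | hp <;> nlinarith
  have hpp : p ^ 2 / 2 ≤ p * p' := by
    rcases hp with hp | hp <;> nlinarith
  have he2 : (p' - p) ^ 2 ≤ 1 / 100 := by nlinarith
  have hp' : p' ^ 2 ≤ 9 / 4 * p ^ 2 := by
    have : p' ^ 2 = 2 * (p * p') - p ^ 2 + (p' - p) ^ 2 := by ring
    have h3 : p * p' ≤ 3 / 2 * p ^ 2 := by rcases hp with hp | hp <;> nlinarith
    nlinarith
  constructor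
  · nlinarith
  · nlinarith

/-- dy² bound -/
lemma dy_sq_le {R h u p u' p' : ℝ} (hR : 1 ≤ R) (h0 : 0 < h) (h1 : h ≤ 1)
    (hu : |u| ≤ R) (hu' : |u'| ≤ R) :
    (yf h u' p' - yf h u p) ^ 2
      ≤ 2 * (h ^ 2 * ((16 * R ^ 3) ^ 2 * ((u' - u) ^ 2 * ((u - p) ^ 2 + (u' - p') ^ 2 + |p * p'|)
        + (p' - p) ^ 2))) + 32 * ((p' - p) * (om p' - om p)) := by
  have hs := s_sq_le (p := p) (p' := p') hR hu hu'
  have hd := d_sq_le h0.le h1 (by unfold yf; ring : yf h u' p' - yf h u p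
    = h * (p' - p + (u' ^ 3 - u ^ 3)) + (4 - h) * (om p' - om p)) (dom_sq_le p p')
  have := mul_le_mul_of_nonneg_left hs (sq_nonneg h)
  linarith

/-- smallness used in the wall estimates -/
lemma small2 {R h : ℝ} (hR : 1 ≤ R) (h0 : 0 < h) (hh : 10 ^ 30 * R ^ 20 * h ≤ 1) :
    h ^ 2 * (16 * R ^ 3) ^ 2 ≤ 1 / 10 ^ 10 * h ∧ h ^ 2 * (16 * R ^ 3) ^ 2 * R ^ 4 ≤ 1 / 10 ^ 10 ∧
      h * R ^ 4 ≤ 1 / 10 ^ 10 ∧ h * R ^ 3 ≤ 1 / 10 ^ 10 ∧ h ≤ 1 := by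
  have r6 : R ^ 6 ≤ R ^ 20 := pow_le_pow_right₀ hR (by norm_num)
  have r10 : R ^ 10 ≤ R ^ 20 := pow_le_pow_right₀ hR (by norm_num)
  have r4 : R ^ 4 ≤ R ^ 20 := pow_le_pow_right₀ hR (by norm_num)
  have r3 : R ^ 3 ≤ R ^ 20 := pow_le_pow_right₀ hR (by norm_num)
  have r0 : 1 ≤ R ^ 20 := one_le_pow₀ hR
  have e5 : 0 ≤ h * R ^ 20 := by positivity
  have e4 : 10 ^ 30 * (h * R ^ 20) ≤ 1 := by linarith
  have e6 : h * R ^ 6 ≤ h * R ^ 20 := mul_le_mul_of_nonneg_left r6 h0.le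
  have e10 : h * R ^ 10 ≤ h * R ^ 20 := mul_le_mul_of_nonneg_left r10 h0.le
  have e44 : h * R ^ 4 ≤ h * R ^ 20 := mul_le_mul_of_nonneg_left r4 h0.le
  have e3 : h * R ^ 3 ≤ h * R ^ 20 := mul_le_mul_of_nonneg_left r3 h0.le
  have e0 : h * 1 ≤ h * R ^ 20 := mul_le_mul_of_nonneg_left r0 h0.le
  norm_num at e4
  have h1 : h ≤ 1 := by linarith
  refine ⟨?_, ?_, by norm_num; linarith, by norm_num; linarith, h1⟩
  · have : h ^ 2 * (16 * R ^ 3) ^ 2 = (256 * (h * R ^ 6)) * h := by ring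
    rw [this]
    apply mul_le_mul_of_nonneg_right _ h0.le
    norm_num; linarith
  · have : h ^ 2 * (16 * R ^ 3) ^ 2 * R ^ 4 = (256 * (h * R ^ 10)) * h := by ring
    rw [this]
    have e7 : 256 * (h * R ^ 10) ≤ 1 / 10 ^ 10 := by norm_num; linarith
    calc (256 * (h * R ^ 10)) * h ≤ 1 / 10 ^ 10 * 1 :=
          mul_le_mul e7 h1 h0.le (by norm_num)
      _ = 1 / 10 ^ 10 := by ring

theorem Fs_wall_u {R h u p u' p' : ℝ} (hR : 1 ≤ R) (h0 : 0 < h) (hh : 10 ^ 30 * R ^ 20 * h ≤ 1)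
    (hu : |u| ≤ R) (hp : |p| ≤ R) (hu' : |u'| ≤ R) (hp' : |p'| ≤ R)
    (hw : 2 ≤ |u| ∨ 2 ≤ |u'|) :
    1 / 10 ^ 3 * ((u' - u) ^ 2 + (yf h u' p' - yf h u p) ^ 2) ≤ Fs h u p u' p' := by
  obtain ⟨s1, s2, s3, s4, h1⟩ := small2 hR h0 hh
  have hwk := wk_wall hw
  have hwo := wo_nonneg p p'
  have hdy := dy_sq_le (p := p) (p' := p') hR h0 h1 hu hu'
  have hL := Fs_lower hR h0 hh hu hp hu' hp'
  have hmu : 0 ≤ mu u p * |(u' - u) * (p' - p)| := mul_nonneg (mu_nonneg u p) (abs_nonneg _)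
  have hPi0 : 0 ≤ (u - p) ^ 2 + (u' - p') ^ 2 + |p * p'| := by positivity
  have ha0 := sq_nonneg (u' - u)
  have hE0 := sq_nonneg (p' - p)
  have hER : (p' - p) ^ 2 ≤ 4 * R ^ 2 := by
    obtain ⟨c1, c2⟩ := abs_le.1 hp
    obtain ⟨c3, c4⟩ := abs_le.1 hp'
    rw [show 4 * R ^ 2 = (2 * R) ^ 2 by ring]
    exact sq_le_sq' (by linarith) (by linarith)
  generalize (u - p) ^ 2 + (u' - p') ^ 2 + |p * p'| = Pi at *
  have hX0 : 0 ≤ (u' - u) ^ 2 * Pi := mul_nonneg ha0 hPi0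
  generalize (u' - u) ^ 2 * Pi = X at *
  have f1 : h ^ 2 * (16 * R ^ 3) ^ 2 * X ≤ 1 / 10 ^ 10 * h * X := mul_le_mul_of_nonneg_right s1 hX0
  have f1' : 0 ≤ h * X := by positivity
  have hmuh : 0 ≤ h * (mu u p * |(u' - u) * (p' - p)|) := mul_nonneg h0.le hmu
  rcases le_or_gt |u' - u| (1 / 2) with hA | hA
  · have h3 := hL.2 hA
    have f2 : h ^ 2 * (16 * R ^ 3) ^ 2 * (p' - p) ^ 2 ≤ 1 / 10 ^ 10 * h * (p' - p) ^ 2 :=
      mul_le_mul_of_nonneg_right s1 hE0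
    have f2' : 0 ≤ h * (p' - p) ^ 2 := by positivity
    norm_num at f1 f2 ⊢
    linarith
  · have h3 := hL.1
    have ha1 : 1 / 4 ≤ (u' - u) ^ 2 := by
      rw [← sq_abs]
      calc (1:ℝ) / 4 = (1 / 2) ^ 2 := by norm_num
        _ ≤ |u' - u| ^ 2 := pow_le_pow_left₀ (by norm_num) hA.le 2
    have hR24 : R ^ 2 ≤ R ^ 4 := pow_le_pow_right₀ hR (by norm_num)
    have f2 : h ^ 2 * (16 * R ^ 3) ^ 2 * (p' - p) ^ 2 ≤ 1 / 10 ^ 9 := by
      have g1 : h ^ 2 * (16 * R ^ 3) ^ 2 * (p' - p) ^ 2 ≤ h ^ 2 * (16 * R ^ 3) ^ 2 * (4 * R ^ 4) :=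
        mul_le_mul_of_nonneg_left (by linarith) (by positivity)
      norm_num at s2 ⊢
      linarith
    norm_num at f1 f2 ⊢
    linarith

lemma y_far {R h u p : ℝ} (hR : 1 ≤ R) (h0 : 0 < h) (hh : 10 ^ 30 * R ^ 20 * h ≤ 1)
    (hu : |u| ≤ R) (hp : |p| ≤ R) (hy : 1 ≤ |yf h u p|) : 11 / 5 ≤ p ∨ p ≤ -1 / 5 := by
  obtain ⟨s1, s2, s3, s4, h1⟩ := small2 hR h0 hh
  by_contra hc
  push Not at hc
  obtain ⟨c1, c2⟩ := hc
  have hom : |om p| ≤ 1 / 5 := by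
    rcases om_cases p with ⟨h1, e1⟩ | ⟨h1, h1', e1⟩ | ⟨h1, e1⟩ <;> rw [e1, abs_le] <;>
      constructor <;> linarith
  have hR13 : R ≤ R ^ 3 := by
    calc R = R ^ 1 := (pow_one R).symm
      _ ≤ R ^ 3 := pow_le_pow_right₀ hR (by norm_num)
  have hcu : |u ^ 3| ≤ R ^ 3 := by rw [abs_pow]; exact pow_le_pow_left₀ (abs_nonneg _) hu 3
  have e2 : |h * (p + u ^ 3)| ≤ 2 / 10 ^ 10 := by
    rw [abs_mul, abs_of_pos h0]
    have := abs_add_le p (u ^ 3)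
    have : h * |p + u ^ 3| ≤ h * (2 * R ^ 3) := mul_le_mul_of_nonneg_left (by linarith) h0.le
    norm_num at s4 ⊢
    linarith
  have e3 : |(4 - h) * om p| ≤ 4 * (1 / 5) := by
    apply mb _ hom
    rw [abs_of_nonneg (by linarith)]; linarith
  have e4 := abs_add_le (h * (p + u ^ 3)) ((4 - h) * om p)
  have e5 : yf h u p = h * (p + u ^ 3) + (4 - h) * om p := rfl
  rw [← e5] at e4
  have e6 : (2:ℝ) / 10 ^ 10 ≤ 1 / 10 := by norm_num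
  linarith

lemma wall_y_aux {R h u p u' p' : ℝ} (hR : 1 ≤ R) (h0 : 0 < h) (hh : 10 ^ 30 * R ^ 20 * h ≤ 1)
    (hu : |u| ≤ R) (hp : |p| ≤ R) (hu' : |u'| ≤ R) (hp' : |p'| ≤ R)
    (hfar : 1 / 100 ≤ (p' - p) * (om p' - om p) ∨
      (1 + (4 * p) ^ 2 + (4 * p') ^ 2 ≤ 160 * |p * p'| ∧ (p' - p) ^ 2 ≤ |p * p'|)) :
    1 / 10 ^ 5 * ((yf h u' p' - yf h u p) ^ 2
        + h * ((u' - u) ^ 2 * (1 + (4 * p) ^ 2 + (4 * p') ^ 2))) ≤ Fs h u p u' p' := by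
  obtain ⟨s1, s2, s3, s4, h1⟩ := small2 hR h0 hh
  have hwk := wk_nonneg u u'
  have hwo := wo_nonneg p p'
  have hdy := dy_sq_le (p := p) (p' := p') hR h0 h1 hu hu'
  have hL := Fs_lower hR h0 hh hu hp hu' hp'
  have hmu : 0 ≤ mu u p * |(u' - u) * (p' - p)| := mul_nonneg (mu_nonneg u p) (abs_nonneg _)
  have hPi0 : 0 ≤ (u - p) ^ 2 + (u' - p') ^ 2 + |p * p'| := by positivity
  have hppP : |p * p'| ≤ (u - p) ^ 2 + (u' - p') ^ 2 + |p * p'| := by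
    linarith [sq_nonneg (u - p), sq_nonneg (u' - p')]
  have ha0 := sq_nonneg (u' - u)
  have hE0 := sq_nonneg (p' - p)
  have hER : (p' - p) ^ 2 ≤ 4 * R ^ 2 := by
    obtain ⟨c1, c2⟩ := abs_le.1 hp
    obtain ⟨c3, c4⟩ := abs_le.1 hp'
    rw [show 4 * R ^ 2 = (2 * R) ^ 2 by ring]
    exact sq_le_sq' (by linarith) (by linarith)
  have haR : (u' - u) ^ 2 ≤ 4 * R ^ 2 := by
    obtain ⟨c1, c2⟩ := abs_le.1 hu
    obtain ⟨c3, c4⟩ := abs_le.1 hu'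
    rw [show 4 * R ^ 2 = (2 * R) ^ 2 by ring]
    exact sq_le_sq' (by linarith) (by linarith)
  have hmuh : 0 ≤ h * (mu u p * |(u' - u) * (p' - p)|) := mul_nonneg h0.le hmu
  rcases hfar with hfar | ⟨hf1, hf2⟩
  · -- big p-wall
    have hp2 : p ^ 2 ≤ R ^ 2 := by rw [← sq_abs]; exact pow_le_pow_left₀ (abs_nonneg _) hp 2
    have hp2' : p' ^ 2 ≤ R ^ 2 := by rw [← sq_abs]; exact pow_le_pow_left₀ (abs_nonneg _) hp' 2
    have hu2 : u ^ 2 ≤ R ^ 2 := by rw [← sq_abs]; exact pow_le_pow_left₀ (abs_nonneg _) hu 2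
    have hu2' : u' ^ 2 ≤ R ^ 2 := by rw [← sq_abs]; exact pow_le_pow_left₀ (abs_nonneg _) hu' 2
    have hR2 : 1 ≤ R ^ 2 := one_le_pow₀ hR
    have hPiR : (u - p) ^ 2 + (u' - p') ^ 2 + |p * p'| ≤ 9 * R ^ 2 := by
      have g1 : (u - p) ^ 2 ≤ 2 * u ^ 2 + 2 * p ^ 2 := by linarith [sq_nonneg (u + p),
        (by ring : (u + p) ^ 2 + (u - p) ^ 2 = 2 * u ^ 2 + 2 * p ^ 2)]
      have g2 : (u' - p') ^ 2 ≤ 2 * u' ^ 2 + 2 * p' ^ 2 := by linarith [sq_nonneg (u' + p'),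
        (by ring : (u' + p') ^ 2 + (u' - p') ^ 2 = 2 * u' ^ 2 + 2 * p' ^ 2)]
      have g3 : |p * p'| ≤ R * R := mb hp hp'
      have g4 : R * R = R ^ 2 := by ring
      linarith
    have hR24 : R ^ 2 ≤ R ^ 4 := pow_le_pow_right₀ hR (by norm_num)
    have k1 : (u' - u) ^ 2 * ((u - p) ^ 2 + (u' - p') ^ 2 + |p * p'|) + (p' - p) ^ 2
        ≤ 40 * R ^ 4 := by
      have g5 : (u' - u) ^ 2 * ((u - p) ^ 2 + (u' - p') ^ 2 + |p * p'|) ≤ 4 * R ^ 2 * (9 * R ^ 2) :=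
        mul_le_mul haR hPiR hPi0 (by positivity)
      linarith
    have k2 : (u' - u) ^ 2 * (1 + (4 * p) ^ 2 + (4 * p') ^ 2) ≤ 132 * R ^ 4 := by
      have g6 : 1 + (4 * p) ^ 2 + (4 * p') ^ 2 ≤ 33 * R ^ 2 := by linarith
      have g7 : (u' - u) ^ 2 * (1 + (4 * p) ^ 2 + (4 * p') ^ 2) ≤ 4 * R ^ 2 * (33 * R ^ 2) :=
        mul_le_mul haR g6 (by positivity) (by positivity)
      linarith
    have k3 : h ^ 2 * ((16 * R ^ 3) ^ 2 * ((u' - u) ^ 2 * ((u - p) ^ 2 + (u' - p') ^ 2 + |p * p'|)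
        + (p' - p) ^ 2)) ≤ 40 / 10 ^ 10 := by
      have g8 : h ^ 2 * (16 * R ^ 3) ^ 2 * ((u' - u) ^ 2 * ((u - p) ^ 2 + (u' - p') ^ 2 + |p * p'|)
        + (p' - p) ^ 2) ≤ h ^ 2 * (16 * R ^ 3) ^ 2 * (40 * R ^ 4) :=
        mul_le_mul_of_nonneg_left k1 (by positivity)
      linarith
    have k4 : h * ((u' - u) ^ 2 * (1 + (4 * p) ^ 2 + (4 * p') ^ 2)) ≤ 132 / 10 ^ 10 := by
      have g9 := mul_le_mul_of_nonneg_left k2 h0.le
      norm_num at s3 ⊢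
      linarith
    have h3 := hL.1
    have k5 : 0 ≤ h * ((u' - u) ^ 2 * ((u - p) ^ 2 + (u' - p') ^ 2 + |p * p'|)) := by positivity
    linarith
  · -- close points
    have j1 : (u' - u) ^ 2 * (1 + (4 * p) ^ 2 + (4 * p') ^ 2)
        ≤ 160 * ((u' - u) ^ 2 * ((u - p) ^ 2 + (u' - p') ^ 2 + |p * p'|)) := by
      have := mul_le_mul_of_nonneg_left (hf1.trans (mul_le_mul_of_nonneg_left hppP
        (by norm_num : (0:ℝ) ≤ 160))) ha0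
      linarith
    have j2 : (p' - p) ^ 2 ≤ (u - p) ^ 2 + (u' - p') ^ 2 + |p * p'| := hf2.trans hppP
    have j3 := mul_le_mul_of_nonneg_left j1 h0.le
    generalize (u - p) ^ 2 + (u' - p') ^ 2 + |p * p'| = Pi at *
    have hX0 : 0 ≤ (u' - u) ^ 2 * Pi := mul_nonneg ha0 hPi0
    have f1 : h ^ 2 * (16 * R ^ 3) ^ 2 * ((u' - u) ^ 2 * Pi)
        ≤ 1 / 10 ^ 10 * h * ((u' - u) ^ 2 * Pi) := mul_le_mul_of_nonneg_right s1 hX0
    have f1' : 0 ≤ h * ((u' - u) ^ 2 * Pi) := by positivity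
    have f2 : h ^ 2 * (16 * R ^ 3) ^ 2 * (p' - p) ^ 2 ≤ 1 / 10 ^ 10 * h * (p' - p) ^ 2 :=
      mul_le_mul_of_nonneg_right s1 hE0
    have f2' : 0 ≤ h * (p' - p) ^ 2 := by positivity
    rcases le_or_gt |u' - u| (1 / 2) with hA | hA
    · have h3 := hL.2 hA
      norm_num at f1 f2 ⊢
      linarith
    · have h3 := hL.1
      have ha1 : 1 / 4 ≤ (u' - u) ^ 2 := by
        rw [← sq_abs]
        calc (1:ℝ) / 4 = (1 / 2) ^ 2 := by norm_num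
          _ ≤ |u' - u| ^ 2 := pow_le_pow_left₀ (by norm_num) hA.le 2
      have j4 : (p' - p) ^ 2 ≤ 4 * ((u' - u) ^ 2 * Pi) := by
        have := mul_le_mul_of_nonneg_right ha1 hPi0
        linarith
      have j5 := mul_le_mul_of_nonneg_left j4 h0.le
      norm_num at f1 f2 ⊢
      linarith

theorem Fs_wall_y {R h u p u' p' : ℝ} (hR : 1 ≤ R) (h0 : 0 < h) (hh : 10 ^ 30 * R ^ 20 * h ≤ 1)
    (hu : |u| ≤ R) (hp : |p| ≤ R) (hu' : |u'| ≤ R) (hp' : |p'| ≤ R)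
    (hw : 1 ≤ |yf h u p| ∨ 1 ≤ |yf h u' p'|) :
    1 / 10 ^ 5 * ((yf h u' p' - yf h u p) ^ 2
        + h * ((u' - u) ^ 2 * (1 + (4 * p) ^ 2 + (4 * p') ^ 2))) ≤ Fs h u p u' p' := by
  apply wall_y_aux hR h0 hh hu hp hu' hp'
  rcases hw with hw | hw
  · have hfar := y_far hR h0 hh hu hp hw
    rcases le_or_gt (1 / 10) |p' - p| with he | he
    · exact Or.inl (om_far hfar he)
    · exact Or.inr (pp_near hfar he.le)
  · have hfar := y_far hR h0 hh hu' hp' hw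
    rcases le_or_gt (1 / 10) |p' - p| with he | he
    · left
      have := om_far (p := p') (p' := p) hfar (by rwa [abs_sub_comm])
      linarith
    · right
      have := pp_near (p := p') (p' := p) hfar (by rw [abs_sub_comm]; exact he.le)
      rw [mul_comm p' p] at this
      constructor
      · linarith [this.1]
      · linarith [this.2, (by ring : (p - p') ^ 2 = (p' - p) ^ 2)]

end EC
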