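import Mathlib
import Pool.Agent.Helper35.EC.SliceLower

/-!
# MP_0db605_an : zeros of the slice kernel
-/

namespace EC

theorem Fs_nonneg {R h u p u' p' : ℝ} (hR : 1 ≤ R) (h0 : 0 < h) (hh : 10 ^ 30 * R ^ 20 * h ≤ 1)
    (hu : |u| ≤ R) (hp : |p| ≤ R) (hu' : |u'| ≤ R) (hp' : |p'| ≤ R) :
    0 ≤ Fs h u p u' p' := by
  refine le_trans ?_ (Fs_lower hR h0 hh hu hp hu' hp').1
  have h1 := wk_nonneg u u'
  have h2 := wo_nonneg p p'
  have h3 := mu_nonneg u p
  positivity

theorem Fs_eq_zero {R h u p u' p' : ℝ} (hR : 1 ≤ R) (h0 : 0 < h) (hh : 10 ^ 30 * R ^ 20 * h ≤ 1)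
    (hu : |u| ≤ R) (hp : |p| ≤ R) (hu' : |u'| ≤ R) (hp' : |p'| ≤ R)
    (hF : Fs h u p u' p' = 0) :
    (u' = u ∧ p' = p) ∨ (u = 0 ∧ p = 0 ∧ u' = 1 ∧ p' = 1) := by
  obtain ⟨h1, h2⟩ := Fs_lower hR h0 hh hu hp hu' hp'
  rw [hF] at h1 h2
  have hwk := wk_nonneg u u'
  have hwo := wo_nonneg p p'
  have hmu := mu_nonneg u p
  have hX : 0 ≤ (u' - u) ^ 2 * ((u - p) ^ 2 + (u' - p') ^ 2 + |p * p'|) := by positivity
  have hY : 0 ≤ mu u p * |(u' - u) * (p' - p)| := mul_nonneg hmu (abs_nonneg _)
  have hXY : 0 ≤ h / 50 * ((u' - u) ^ 2 * ((u - p) ^ 2 + (u' - p') ^ 2 + |p * p'|)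
        + mu u p * |(u' - u) * (p' - p)|) := by positivity
  have hwk0 : (u' - u) * (kf u' - kf u) = 0 := by linarith
  have hXY0 : (u' - u) ^ 2 * ((u - p) ^ 2 + (u' - p') ^ 2 + |p * p'|)
        + mu u p * |(u' - u) * (p' - p)| = 0 := by
    have : h / 50 * ((u' - u) ^ 2 * ((u - p) ^ 2 + (u' - p') ^ 2 + |p * p'|)
        + mu u p * |(u' - u) * (p' - p)|) = 0 := by linarith
    rcases mul_eq_zero.1 this with h3 | h3
    · exfalso; linarith
    · exact h3
  have hX0 : (u' - u) ^ 2 * ((u - p) ^ 2 + (u' - p') ^ 2 + |p * p'|) = 0 := by linarith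
  have hY0 : mu u p * |(u' - u) * (p' - p)| = 0 := by linarith
  have hsm : |u' - u| ≤ 1 / 2 → p' = p := by
    intro hA
    have h3 := h2 hA
    have h4 : 0 ≤ (p' - p) ^ 2 := sq_nonneg _
    have h5 : h / 50 * (p' - p) ^ 2 ≤ 0 := by
      have : h / 50 * ((u' - u) ^ 2 * ((u - p) ^ 2 + (u' - p') ^ 2 + |p * p'|)
        + mu u p * |(u' - u) * (p' - p)| + (p' - p) ^ 2) = h / 50 * (p' - p) ^ 2 := by
        rw [hXY0]; ring
      rw [this] at h3
      linarith
    have h6 : (p' - p) ^ 2 = 0 := by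
      by_contra hc
      have : 0 < (p' - p) ^ 2 := lt_of_le_of_ne h4 (Ne.symm hc)
      have : 0 < h / 50 * (p' - p) ^ 2 := by positivity
      linarith
    have := pow_eq_zero_iff (two_ne_zero) |>.1 h6
    linarith
  by_cases ha : u' - u = 0
  · left
    refine ⟨by linarith, hsm ?_⟩
    rw [ha, abs_zero]; norm_num
  · right
    have ha2 : 0 < (u' - u) ^ 2 := by positivity
    have hPi : (u - p) ^ 2 + (u' - p') ^ 2 + |p * p'| = 0 := by
      rcases mul_eq_zero.1 hX0 with h3 | h3
      · exfalso; linarith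
      · exact h3
    have q1 := sq_nonneg (u - p)
    have q2 := sq_nonneg (u' - p')
    have q3 := abs_nonneg (p * p')
    have e1 : (u - p) ^ 2 = 0 := by linarith
    have e2 : (u' - p') ^ 2 = 0 := by linarith
    have e3 : |p * p'| = 0 := by linarith
    have e1' : u = p := by
      have := pow_eq_zero_iff (two_ne_zero) |>.1 e1
      linarith
    have e2' : u' = p' := by
      have := pow_eq_zero_iff (two_ne_zero) |>.1 e2
      linarith
    have e3' : p * p' = 0 := abs_eq_zero.1 e3
    subst e1'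
    subst e2'
    have hA : 1 / 2 < |u' - u| := by
      by_contra hc
      push Not at hc
      exact ha (by linarith [hsm hc])
    have hk : kf u' = kf u := by
      rcases mul_eq_zero.1 hwk0 with h3 | h3
      · exact absurd h3 ha
      · linarith
    have hk0 : kf 0 = 0 := kf_of_mid le_rfl zero_le_one
    -- values where kf vanishes
    have kzero : ∀ v : ℝ, kf v = 0 → 0 ≤ v ∧ v ≤ 1 := by
      intro v hv
      rcases kf_cases v with ⟨h3, e⟩ | ⟨h3, h3', e⟩ | ⟨h3, h3', e⟩ | ⟨h3, e⟩
      · exfalso; linarith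
      · have : v = 0 := by
          have : v ^ 2 = 0 := by linarith
          exact pow_eq_zero_iff (two_ne_zero) |>.1 this
        subst this; exact ⟨le_rfl, zero_le_one⟩
      · exact ⟨h3, h3'⟩
      · have : v = 1 := by linarith
        subst this; exact ⟨zero_le_one, le_rfl⟩
    rcases mul_eq_zero.1 e3' with hz | hz
    · -- u = p = 0
      rw [hz, hk0] at hk
      obtain ⟨g1, g2⟩ := kzero u' hk
      rw [hz] at hF hA
      have hpos : 0 < u' := by
        rw [sub_zero, abs_of_nonneg g1] at hA; linarith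
      have hval : Fs h 0 0 u' u' = 4 * h * u' ^ 2 * (1 - u' ^ 2) := by
        have m0 : mu 0 0 = 0 := by
          unfold mu
          rw [neg_zero, pos_of_nonneg le_rfl]
          norm_num
        have o1 : om u' = 0 := om_of_mid g1 (by linarith)
        have o0 : om 0 = 0 := om_of_mid le_rfl (by norm_num)
        unfold Fs Ks yf Pf
        rw [m0, o1, o0, hk0, hk]
        ring
      rw [hval] at hF
      have hne : 4 * h * u' ^ 2 ≠ 0 := by positivity
      have h6 : 1 - u' ^ 2 = 0 := by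
        rcases mul_eq_zero.1 hF with h7 | h7
        · exact absurd h7 hne
        · exact h7
      have h7 : u' = 1 := by nlinarith
      exact ⟨hz, hz, h7, h7⟩
    · -- u' = p' = 0 : excluded by the twist
      exfalso
      rw [hz, hk0] at hk
      obtain ⟨g1, g2⟩ := kzero u hk.symm
      rw [hz] at hA hY0
      have hpos : 1 / 2 < u := by
        rw [zero_sub, abs_neg, abs_of_nonneg g1] at hA; linarith
      have hm : 0 < mu u u := by
        unfold mu
        have h8 : 0 < min (pos u) 2 := by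
          rw [pos_of_nonneg g1]; exact lt_min (by linarith) (by norm_num)
        have h9 : 0 ≤ min (pos (-u)) 1 := le_min (pos_nonneg _) zero_le_one
        linarith
      have h10 : 0 < |(0 - u) * (0 - u)| := by
        rw [abs_pos]
        have : (0 - u) ≠ 0 := by linarith
        exact mul_ne_zero this this
      have := mul_pos hm h10
      linarith

end EC
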